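import Mathlib

/-!
# Mean value inequality for `C²` superharmonic functions on the unit disc
-/

open MeasureTheory Set Filter Topology Metric
open scoped Real

namespace Pool.Agent.H25.GW

/-- `f` is `C²` and superharmonic on the open set `D ⊆ ℂ`. -/
def SuperHarm (f : ℂ → ℝ) (D : Set ℂ) : Prop :=
  ∀ z ∈ D, ContDiffAt ℝ 2 f z ∧
    fderiv ℝ (fderiv ℝ f) z 1 1 + fderiv ℝ (fderiv ℝ f) z Complex.I Complex.I ≤ 0

theorem continuous_section {Ψ : ℝ → ℝ → ℝ} {U : Set ℝ}
    (hc : ContinuousOn (Function.uncurry Ψ) (U ×ˢ univ)) {s : ℝ} (hs : s ∈ U) :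
    Continuous (Ψ s) := by
  rw [← continuousOn_univ]
  have h1 : ContinuousOn (fun θ : ℝ => (s, θ)) univ := by fun_prop
  exact hc.comp h1 (fun θ _ => ⟨hs, mem_univ _⟩)

/-- differentiation under the integral sign, continuous version -/
theorem hasDerivAt_param {Ψ Ψ' : ℝ → ℝ → ℝ} {U : Set ℝ} (hU : IsOpen U)
    (hc : ContinuousOn (Function.uncurry Ψ) (U ×ˢ univ))
    (hc' : ContinuousOn (Function.uncurry Ψ') (U ×ˢ univ))
    (hd : ∀ s ∈ U, ∀ θ, HasDerivAt (fun s => Ψ s θ) (Ψ' s θ) s) {s₀ : ℝ} (hs : s₀ ∈ U) (a b : ℝ) :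
    HasDerivAt (fun s => ∫ θ in a..b, Ψ s θ) (∫ θ in a..b, Ψ' s₀ θ) s₀ := by
  obtain ⟨ε, hε, hεU⟩ := Metric.isOpen_iff.mp hU s₀ hs
  have hcl : closedBall s₀ (ε / 2) ⊆ U := (closedBall_subset_ball (by linarith)).trans hεU
  have hK : IsCompact (closedBall s₀ (ε / 2) ×ˢ uIcc a b) :=
    (isCompact_closedBall _ _).prod isCompact_uIcc
  have hcont : ∀ s ∈ U, Continuous (Ψ s) := fun s hs => continuous_section hc hs
  have hcont' : ∀ s ∈ U, Continuous (Ψ' s) := fun s hs => continuous_section hc' hs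
  obtain ⟨C, hC⟩ := hK.exists_bound_of_continuousOn
    (hc'.mono (prod_mono hcl (subset_univ _)))
  refine (intervalIntegral.hasDerivAt_integral_of_dominated_loc_of_deriv_le (μ := volume)
    (bound := fun _ => C) (s := ball s₀ (ε / 2)) (ball_mem_nhds _ (by linarith)) ?_ ?_ ?_ ?_ ?_ ?_).2
  · filter_upwards [hU.mem_nhds hs] with s hs
    exact (hcont s hs).aestronglyMeasurable
  · exact (hcont s₀ hs).intervalIntegrable _ _
  · exact (hcont' s₀ hs).aestronglyMeasurable
  · refine Eventually.of_forall fun θ hθ s hs => ?_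
    exact hC (s, θ) ⟨ball_subset_closedBall hs, uIoc_subset_uIcc hθ⟩
  · exact intervalIntegrable_const
  · refine Eventually.of_forall fun θ _ s hs => hd s ?_ θ
    exact hcl (ball_subset_closedBall hs)

variable {f : ℂ → ℝ}

theorem norm_exp_lt_one {s : ℝ} (hs : s < 0) (θ : ℝ) :
    Complex.exp (s + θ * Complex.I) ∈ ball (0 : ℂ) 1 := by
  rw [mem_ball_zero_iff, Complex.norm_exp]
  simpa using hs

/-- the mean value inequality -/
theorem circle_mean_le (hf : SuperHarm f (ball 0 1)) {s : ℝ} (hs : s < 0) :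
    ∫ θ in (0 : ℝ)..2 * π, f (Complex.exp (s + θ * Complex.I)) ≤ 2 * π * f 0 := by
  set w : ℝ → ℝ → ℂ := fun s θ => Complex.exp (s + θ * Complex.I) with hw
  have hwc : Continuous (Function.uncurry w) := by
    unfold Function.uncurry
    simp only [hw]
    fun_prop
  have hws : ∀ s θ, HasDerivAt (fun s => w s θ) (w s θ) s := by
    intro s θ
    have h1 : HasDerivAt (fun s : ℝ => ((s : ℂ) + θ * Complex.I)) 1 s :=
      (Complex.ofRealCLM.hasDerivAt (x := s)).add_const _
    simpa using h1.cexp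
  have hwθ : ∀ s θ, HasDerivAt (fun θ => w s θ) (Complex.I * w s θ) θ := by
    intro s θ
    have h1 : HasDerivAt (fun θ : ℝ => ((s : ℂ) + θ * Complex.I)) (1 * Complex.I) θ :=
      ((Complex.ofRealCLM.hasDerivAt (x := θ)).mul_const _).const_add _
    have h2 := h1.cexp
    rw [one_mul, mul_comm] at h2
    exact h2
  have hwD : ∀ s < 0, ∀ θ, w s θ ∈ ball (0 : ℂ) 1 := fun s hs θ => norm_exp_lt_one hs θ
  have hC2 : ContDiffOn ℝ 2 f (ball 0 1) := fun z hz => (hf z hz).1.contDiffWithinAt
  have hC2at : ∀ z ∈ ball (0 : ℂ) 1, ContDiffAt ℝ 2 f z := fun z hz => (hf z hz).1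
  -- derivatives
  have hD1 : ∀ z ∈ ball (0 : ℂ) 1, HasFDerivAt f (fderiv ℝ f z) z := fun z hz =>
    ((hC2at z hz).differentiableAt (by norm_num)).hasFDerivAt
  have hC1 : ∀ z ∈ ball (0 : ℂ) 1, ContDiffAt ℝ 1 (fderiv ℝ f) z := fun z hz =>
    (hC2at z hz).fderiv_right (by norm_num)
  have hD2 : ∀ z ∈ ball (0 : ℂ) 1, HasFDerivAt (fderiv ℝ f) (fderiv ℝ (fderiv ℝ f) z) z :=
    fun z hz => ((hC1 z hz).differentiableAt (by norm_num)).hasFDerivAt
  have hcD1 : ContinuousOn (fderiv ℝ f) (ball 0 1) := fun z hz =>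
    (hC1 z hz).continuousAt.continuousWithinAt
  have hcD2 : ContinuousOn (fderiv ℝ (fderiv ℝ f)) (ball 0 1) := fun z hz =>
    ((hC1 z hz).fderiv_right (m := 0) (by norm_num)).continuousAt.continuousWithinAt
  have hcf : ContinuousOn f (ball 0 1) := hC2.continuousOn
  set U : Set ℝ := Iio 0 with hUdef
  have hUo : IsOpen U := isOpen_Iio
  have hmaps : MapsTo (Function.uncurry w) (U ×ˢ univ) (ball (0 : ℂ) 1) := by
    rintro ⟨s, θ⟩ ⟨hs, -⟩
    exact hwD s hs θ
  -- the three functions
  set Φ : ℝ → ℝ → ℝ := fun s θ => f (w s θ) with hΦ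
  set Φ1 : ℝ → ℝ → ℝ := fun s θ => fderiv ℝ f (w s θ) (w s θ) with hΦ1
  set Φ2 : ℝ → ℝ → ℝ := fun s θ =>
    fderiv ℝ (fderiv ℝ f) (w s θ) (w s θ) (w s θ) + fderiv ℝ f (w s θ) (w s θ) with hΦ2
  have hcΦ : ContinuousOn (Function.uncurry Φ) (U ×ˢ univ) :=
    hcf.comp hwc.continuousOn hmaps
  have hcΦ1 : ContinuousOn (Function.uncurry Φ1) (U ×ˢ univ) :=
    (hcD1.comp hwc.continuousOn hmaps).clm_apply hwc.continuousOn
  have hcΦ2 : ContinuousOn (Function.uncurry Φ2) (U ×ˢ univ) := by
    refine ContinuousOn.add ?_ hcΦ1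
    exact ((hcD2.comp hwc.continuousOn hmaps).clm_apply hwc.continuousOn).clm_apply
      hwc.continuousOn
  have hdΦ : ∀ s ∈ U, ∀ θ, HasDerivAt (fun s => Φ s θ) (Φ1 s θ) s := by
    intro s hs θ
    exact (hD1 _ (hwD s hs θ)).comp_hasDerivAt s (hws s θ)
  have hdΦ1 : ∀ s ∈ U, ∀ θ, HasDerivAt (fun s => Φ1 s θ) (Φ2 s θ) s := by
    intro s hs θ
    have h1 : HasDerivAt (fun s => fderiv ℝ f (w s θ))
        (fderiv ℝ (fderiv ℝ f) (w s θ) (w s θ)) s :=
      (hD2 _ (hwD s hs θ)).comp_hasDerivAt s (hws s θ)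
    exact h1.clm_apply (hws s θ)
  set B : ℝ → ℝ := fun s => ∫ θ in (0 : ℝ)..2 * π, Φ s θ with hB
  set B1 : ℝ → ℝ := fun s => ∫ θ in (0 : ℝ)..2 * π, Φ1 s θ with hB1
  set B2 : ℝ → ℝ := fun s => ∫ θ in (0 : ℝ)..2 * π, Φ2 s θ with hB2
  have hBd : ∀ s ∈ U, HasDerivAt B (B1 s) s := fun s hs =>
    hasDerivAt_param hUo hcΦ hcΦ1 hdΦ hs _ _
  have hB1d : ∀ s ∈ U, HasDerivAt B1 (B2 s) s := fun s hs =>
    hasDerivAt_param hUo hcΦ1 hcΦ2 hdΦ1 hs _ _
  -- second derivative is nonpositive
  have hB2le : ∀ s ∈ U, B2 s ≤ 0 := by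
    intro s hs
    set Ψ1 : ℝ → ℝ := fun θ => fderiv ℝ f (w s θ) (Complex.I * w s θ) with hΨ1
    set Ψ2 : ℝ → ℝ := fun θ =>
      fderiv ℝ (fderiv ℝ f) (w s θ) (Complex.I * w s θ) (Complex.I * w s θ)
        + fderiv ℝ f (w s θ) (-(w s θ)) with hΨ2
    have hwcs : Continuous (w s) := by
      have : w s = fun θ => w s θ := rfl
      simp only [hw]
      fun_prop
    have hmaps_s : MapsTo (w s) univ (ball (0 : ℂ) 1) := fun θ _ => hwD s hs θ
    have hΨ2c : Continuous Ψ2 := by
      rw [← continuousOn_univ]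
      refine ContinuousOn.add ?_ ?_
      · exact ((hcD2.comp hwcs.continuousOn hmaps_s).clm_apply
          (continuous_const.mul hwcs).continuousOn).clm_apply
          (continuous_const.mul hwcs).continuousOn
      · exact (hcD1.comp hwcs.continuousOn hmaps_s).clm_apply hwcs.neg.continuousOn
    have hΨd : ∀ θ, HasDerivAt Ψ1 (Ψ2 θ) θ := by
      intro θ
      have h1 : HasDerivAt (fun θ => fderiv ℝ f (w s θ))
          (fderiv ℝ (fderiv ℝ f) (w s θ) (Complex.I * w s θ)) θ :=
        (hD2 _ (hwD s hs θ)).comp_hasDerivAt θ (hwθ s θ)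
      have h2 : HasDerivAt (fun θ => Complex.I * w s θ) (Complex.I * (Complex.I * w s θ)) θ :=
        (hwθ s θ).const_mul _
      have h3 := h1.clm_apply h2
      have h4 : Complex.I * (Complex.I * w s θ) = -(w s θ) := by
        rw [← mul_assoc, Complex.I_mul_I]; ring
      rw [h4] at h3
      exact h3
    have hΨ0 : ∫ θ in (0 : ℝ)..2 * π, Ψ2 θ = 0 := by
      rw [intervalIntegral.integral_eq_sub_of_hasDerivAt (fun θ _ => hΨd θ)
        (hΨ2c.intervalIntegrable _ _)]
      have hper : w s (2 * π) = w s 0 := by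
        simp only [hw]
        push_cast
        rw [Complex.exp_add, Complex.exp_add, Complex.exp_two_pi_mul_I]
        simp
      simp only [hΨ1, hper, sub_self]
    have hΦ2c : Continuous (Φ2 s) := continuous_section hcΦ2 hs
    have hsum : B2 s = ∫ θ in (0 : ℝ)..2 * π, (Φ2 s θ + Ψ2 θ) := by
      rw [intervalIntegral.integral_add (hΦ2c.intervalIntegrable _ _)
        (hΨ2c.intervalIntegrable _ _), hΨ0, add_zero]
    rw [hsum]
    have hpt : ∀ θ, Φ2 s θ + Ψ2 θ ≤ 0 := by
      intro θ
      simp only [hΦ2, hΨ2]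
      set z := w s θ with hz
      have hzD := hwD s hs θ
      rw [← hz] at hzD
      set D := fderiv ℝ (fderiv ℝ f) z with hD
      have key : ∀ u : ℂ, D u u + D (Complex.I * u) (Complex.I * u)
          = (u.re ^ 2 + u.im ^ 2) * (D 1 1 + D Complex.I Complex.I) := by
        intro u
        have hu : u = u.re • (1 : ℂ) + u.im • Complex.I := by
          apply Complex.ext <;> simp
        have hIu : Complex.I * u = (-u.im) • (1 : ℂ) + u.re • Complex.I := by
          apply Complex.ext <;> simp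
        rw [hIu]
        conv_lhs => rw [hu]
        simp only [map_add, map_smul, add_apply,
          smul_apply, smul_eq_mul, Complex.add_re, Complex.add_im,
          Complex.smul_re, Complex.smul_im, Complex.one_re, Complex.one_im, Complex.I_re,
          Complex.I_im]
        ring
      have h1 := (hf z hzD).2
      have h2 := key z
      rw [map_neg]
      have h3 : 0 ≤ z.re ^ 2 + z.im ^ 2 := by positivity
      have h4 : (z.re ^ 2 + z.im ^ 2) * (D 1 1 + D Complex.I Complex.I) ≤ 0 :=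
        mul_nonpos_of_nonneg_of_nonpos h3 h1
      linarith
    have := intervalIntegral.integral_mono_on (a := (0 : ℝ)) (b := 2 * π) (by positivity)
      ((hΦ2c.add hΨ2c).intervalIntegrable _ _)
      (intervalIntegrable_const (c := (0 : ℝ)) (μ := volume))
      (fun θ _ => hpt θ)
    simpa using this
  -- B1 is antitone
  have hB1anti : AntitoneOn B1 U := by
    apply antitoneOn_of_deriv_nonpos (convex_Iio 0)
    · exact fun s hs => (hB1d s hs).continuousAt.continuousWithinAt
    · intro s hs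
      rw [interior_Iio] at hs
      exact (hB1d s hs).differentiableAt.differentiableWithinAt
    · intro s hs
      rw [interior_Iio] at hs
      rw [(hB1d s hs).deriv]
      exact hB2le s hs
  -- limit at -∞
  have hlim : Tendsto B atBot (𝓝 (2 * π * f 0)) := by
    have hf0 : ContinuousAt f 0 := (hC2at 0 (mem_ball_self one_pos)).continuousAt
    have : ∀ ε > 0, ∀ᶠ s in atBot, ∀ θ, |f (w s θ) - f 0| ≤ ε := by
      intro ε hε
      obtain ⟨δ, hδ, hδ'⟩ := Metric.continuousAt_iff.mp hf0 ε hε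
      have h1 : ∀ᶠ s : ℝ in atBot, Real.exp s < δ :=
        (Real.tendsto_exp_atBot).eventually (gt_mem_nhds hδ)
      filter_upwards [h1] with s hs θ
      have h2 : dist (w s θ) 0 < δ := by
        rw [dist_zero_right]
        simp only [hw]
        rw [Complex.norm_exp]
        simpa using hs
      have := hδ' h2
      rw [Real.dist_eq] at this
      exact this.le
    rw [Metric.tendsto_nhds]
    intro ε hε
    have h7 : (0 : ℝ) < ε / (4 * π) := by positivity
    filter_upwards [this _ h7, eventually_lt_atBot (0 : ℝ)] with s hs hs0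
    rw [Real.dist_eq]
    have hcs : Continuous (Φ s) := continuous_section hcΦ (mem_Iio.mpr hs0)
    have h2 : B s - 2 * π * f 0 = ∫ θ in (0 : ℝ)..2 * π, (Φ s θ - f 0) := by
      rw [intervalIntegral.integral_sub (hcs.intervalIntegrable _ _)
        (intervalIntegrable_const)]
      simp [hB]
    rw [h2]
    have h3 := intervalIntegral.norm_integral_le_of_norm_le_const
      (a := (0 : ℝ)) (b := 2 * π) (f := fun θ => Φ s θ - f 0) (C := ε / (4 * π))
      (fun θ _ => by simpa using hs θ)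
    rw [Real.norm_eq_abs] at h3
    have hpi : |2 * π - 0| = 2 * π := by rw [sub_zero, abs_of_pos (by positivity)]
    rw [hpi] at h3
    have h4 : ε / (4 * π) * (2 * π) = ε / 2 := by
      field_simp; ring
    rw [h4] at h3
    linarith
  -- B1 ≤ 0
  have hB1le : ∀ s ∈ U, B1 s ≤ 0 := by
    intro s₀ hs₀
    by_contra hcon
    push Not at hcon
    set δ := B1 s₀ with hδ
    have hbound : ∀ s ≤ s₀, B s ≤ B s₀ - δ * (s₀ - s) := by
      intro s hs
      have hmono2 : MonotoneOn (fun t => B t - δ * t) (Iic s₀) := by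
        apply monotoneOn_of_deriv_nonneg (convex_Iic s₀)
        · intro t ht
          have htU : t ∈ U := mem_Iio.mpr (lt_of_le_of_lt (mem_Iic.mp ht) (mem_Iio.mp hs₀))
          exact ((hBd t htU).sub ((hasDerivAt_id t).const_mul δ)).continuousAt.continuousWithinAt
        · intro t ht
          rw [interior_Iic] at ht
          have htU : t ∈ U := mem_Iio.mpr (lt_trans (mem_Iio.mp ht) (mem_Iio.mp hs₀))
          exact ((hBd t htU).sub
            ((hasDerivAt_id t).const_mul δ)).differentiableAt.differentiableWithinAt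
        · intro t ht
          rw [interior_Iic] at ht
          have htU : t ∈ U := mem_Iio.mpr (lt_trans (mem_Iio.mp ht) (mem_Iio.mp hs₀))
          have h5 : HasDerivAt (fun t => B t - δ * t) (B1 t - δ * 1) t :=
            (hBd t htU).sub ((hasDerivAt_id t).const_mul δ)
          rw [h5.deriv]
          have := hB1anti htU hs₀ (le_of_lt ht)
          linarith
      have h6 := hmono2 (mem_Iic.mpr hs) (mem_Iic.mpr le_rfl) hs
      simp only at h6
      linarith
    have h1 : Tendsto (fun s => B s₀ - δ * (s₀ - s)) atBot atBot := by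
      have h2 : Tendsto (fun s : ℝ => δ * s) atBot atBot := tendsto_id.const_mul_atBot hcon
      have h3 : (fun s => B s₀ - δ * (s₀ - s)) = fun s => (B s₀ - δ * s₀) + δ * s := by
        ext s; ring
      rw [h3]
      exact tendsto_atBot_add_const_left _ _ h2
    have h4 : ∀ᶠ s in atBot, B s < 2 * π * f 0 - 1 := by
      filter_upwards [h1.eventually_lt_atBot (2 * π * f 0 - 1), eventually_le_atBot s₀] with s h5 h6
      exact lt_of_le_of_lt (hbound s h6) h5
    have h5 : ∀ᶠ s in atBot, 2 * π * f 0 - 1 < B s :=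
      hlim.eventually (lt_mem_nhds (by linarith))
    obtain ⟨s, h6, h7⟩ := (h4.and h5).exists
    linarith
  have hBanti : AntitoneOn B U := by
    apply antitoneOn_of_deriv_nonpos (convex_Iio 0)
    · exact fun s hs => (hBd s hs).continuousAt.continuousWithinAt
    · intro s hs
      rw [interior_Iio] at hs
      exact (hBd s hs).differentiableAt.differentiableWithinAt
    · intro s hs
      rw [interior_Iio] at hs
      rw [(hBd s hs).deriv]
      exact hB1le s hs
  refine ge_of_tendsto hlim ?_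
  filter_upwards [eventually_le_atBot s] with t ht
  exact hBanti (lt_of_le_of_lt ht hs) hs ht

end Pool.Agent.H25.GW
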