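import Mathlib
import Pool.Agent.H25.GW.Mean

/-!
# Superharmonic functions compose with holomorphic maps
-/

open MeasureTheory Set Filter Topology Metric
open scoped Real

namespace Pool.Agent.H25.GW

theorem laplace_key (D : ℂ →L[ℝ] ℂ →L[ℝ] ℝ) (u : ℂ) :
    D u u + D (Complex.I * u) (Complex.I * u)
      = (u.re ^ 2 + u.im ^ 2) * (D 1 1 + D Complex.I Complex.I) := by
  have hu : u = u.re • (1 : ℂ) + u.im • Complex.I := by
    apply Complex.ext <;> simp
  have hIu : Complex.I * u = (-u.im) • (1 : ℂ) + u.re • Complex.I := by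
    apply Complex.ext <;> simp
  rw [hIu]
  conv_lhs => rw [hu]
  simp only [map_add, map_smul, add_apply, smul_apply, smul_eq_mul, Complex.add_re, Complex.add_im,
    Complex.smul_re, Complex.smul_im, Complex.one_re, Complex.one_im, Complex.I_re, Complex.I_im]
  ring

theorem second_fderiv_apply {g : ℂ → ℝ} {z : ℂ} (hg : ContDiffAt ℝ 2 g z) (η ξ : ℂ) :
    fderiv ℝ (fderiv ℝ g) z η ξ = fderiv ℝ (fun y => fderiv ℝ g y ξ) z η := by
  have h1 : DifferentiableAt ℝ (fderiv ℝ g) z :=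
    (hg.fderiv_right (m := 1) (by norm_num)).differentiableAt (by norm_num)
  rw [fderiv_clm_apply h1 (differentiableAt_const ξ)]
  simp

/-- Laplacian of a composition with a holomorphic map. -/
theorem laplace_comp {f : ℂ → ℝ} {φ : ℂ → ℂ} {z : ℂ} (hf : ContDiffAt ℝ 2 f (φ z))
    (hφ : AnalyticAt ℂ φ z) :
    fderiv ℝ (fderiv ℝ (f ∘ φ)) z 1 1 + fderiv ℝ (fderiv ℝ (f ∘ φ)) z Complex.I Complex.I
      = ((deriv φ z).re ^ 2 + (deriv φ z).im ^ 2) *
        (fderiv ℝ (fderiv ℝ f) (φ z) 1 1 + fderiv ℝ (fderiv ℝ f) (φ z) Complex.I Complex.I) := by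
  have hφc : ContDiffAt ℝ 2 φ z := hφ.contDiffAt.restrict_scalars ℝ
  have hcomp : ContDiffAt ℝ 2 (f ∘ φ) z := hf.comp z hφc
  rw [second_fderiv_apply hcomp, second_fderiv_apply hcomp]
  have hev : ∀ᶠ y in 𝓝 z, ∀ ξ : ℂ,
      fderiv ℝ (f ∘ φ) y ξ = fderiv ℝ f (φ y) (deriv φ y * ξ) := by
    have h1 : ∀ᶠ y in 𝓝 z, ContDiffAt ℝ 2 f (φ y) :=
      hφ.continuousAt.eventually (hf.eventually (by simp))
    filter_upwards [h1, hφ.eventually_analyticAt] with y hy hy2 ξ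
    have h2 : HasFDerivAt φ ((ContinuousLinearMap.toSpanSingleton ℂ (deriv φ y)).restrictScalars ℝ)
        y := hy2.differentiableAt.hasDerivAt.hasFDerivAt.restrictScalars ℝ
    have h3 : HasFDerivAt f (fderiv ℝ f (φ y)) (φ y) :=
      (hy.differentiableAt (by norm_num)).hasFDerivAt
    rw [(h3.comp y h2).fderiv]
    simp [mul_comm]
  have hev1 : (fun y => fderiv ℝ (f ∘ φ) y 1) =ᶠ[𝓝 z]
      fun y => fderiv ℝ f (φ y) (deriv φ y * 1) := hev.mono fun y hy => hy 1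
  have hevI : (fun y => fderiv ℝ (f ∘ φ) y Complex.I) =ᶠ[𝓝 z]
      fun y => fderiv ℝ f (φ y) (deriv φ y * Complex.I) := hev.mono fun y hy => hy Complex.I
  rw [hev1.fderiv_eq, hevI.fderiv_eq]
  have hL : HasFDerivAt (fderiv ℝ f) (fderiv ℝ (fderiv ℝ f) (φ z)) (φ z) :=
    ((hf.fderiv_right (m := 1) (by norm_num)).differentiableAt (by norm_num)).hasFDerivAt
  have hφd : HasFDerivAt φ
      ((ContinuousLinearMap.toSpanSingleton ℂ (deriv φ z)).restrictScalars ℝ) z :=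
    hφ.differentiableAt.hasDerivAt.hasFDerivAt.restrictScalars ℝ
  have hφdd : HasFDerivAt (deriv φ)
      ((ContinuousLinearMap.toSpanSingleton ℂ (deriv (deriv φ) z)).restrictScalars ℝ) z :=
    hφ.deriv.differentiableAt.hasDerivAt.hasFDerivAt.restrictScalars ℝ
  have key : ∀ ξ η : ℂ, fderiv ℝ (fun y => fderiv ℝ f (φ y) (deriv φ y * ξ)) z η
      = fderiv ℝ (fderiv ℝ f) (φ z) (deriv φ z * η) (deriv φ z * ξ)
        + fderiv ℝ f (φ z) (deriv (deriv φ) z * η * ξ) := by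
    intro ξ η
    have h1 := hL.comp z hφd
    have h2 := hφdd.mul_const' ξ
    have h3 := h1.clm_apply h2
    have h4 : (fun y => fderiv ℝ f (φ y) (deriv φ y * ξ))
        = fun y => ((fderiv ℝ f) ∘ φ) y (deriv φ y * ξ) := rfl
    rw [h4, h3.fderiv]
    simp [mul_comm, add_comm]
  rw [key, key]
  have h5 : deriv (deriv φ) z * Complex.I * Complex.I = -(deriv (deriv φ) z * 1 * 1) := by
    rw [mul_assoc, Complex.I_mul_I]; ring
  rw [h5, map_neg]
  have h6 := laplace_key (fderiv ℝ (fderiv ℝ f) (φ z)) (deriv φ z)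
  rw [← h6]
  rw [mul_one, mul_comm (deriv φ z) Complex.I]
  ring

theorem SuperHarm.comp {f : ℂ → ℝ} {φ : ℂ → ℂ} {D D' : Set ℂ} (hf : SuperHarm f D)
    (hφ : ∀ z ∈ D', AnalyticAt ℂ φ z) (hmaps : MapsTo φ D' D) :
    SuperHarm (f ∘ φ) D' := by
  intro z hz
  have h := hf _ (hmaps hz)
  refine ⟨h.1.comp z ((hφ z hz).contDiffAt.restrict_scalars ℝ), ?_⟩
  rw [laplace_comp h.1 (hφ z hz)]
  exact mul_nonpos_of_nonneg_of_nonpos (by positivity) h.2

theorem SuperHarm.congr {f g : ℂ → ℝ} {D : Set ℂ} (hf : SuperHarm f D)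
    (h : ∀ z ∈ D, f =ᶠ[𝓝 z] g) : SuperHarm g D := by
  intro z hz
  have h1 := hf z hz
  have h2 := h z hz
  refine ⟨h1.1.congr_of_eventuallyEq h2.symm, ?_⟩
  have h3 : fderiv ℝ f =ᶠ[𝓝 z] fderiv ℝ g := h2.fderiv
  rw [← h3.fderiv_eq]
  exact h1.2

end Pool.Agent.H25.GW
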