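import Mathlib

/-!
# A Liouville property for multiplicative positive superaveraging functions

`X` a measure space with an action of a countable group `G` admitting a fundamental domain `F` of
finite measure, `B ⊆ X × X` a symmetric `G`-invariant set with sections of bounded measure, and
`f : X → ℝ` positive with `f (g • x) = m g * f x`, such that the average of `f` over each section
`B_x` is at most `f x`.  Then `f y = f x` for almost all `(x, y) ∈ B`.
-/

open MeasureTheory Set
open scoped ENNReal Pointwise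

namespace Pool.Agent.H25.GW

section

variable {X G : Type*} [MeasurableSpace X] [Group G] [Countable G] [MulAction G X]
  [MeasurableConstSMul G X] {μ : Measure X} [SMulInvariantMeasure G X μ] [SFinite μ]

/-- unfolding and swapping -/
theorem lintegral_swap_of_invariant {F : Set X} (hF : IsFundamentalDomain G F μ)
    {Φ : X → X → ℝ≥0∞} (hΦ : Measurable (Function.uncurry Φ))
    (hinv : ∀ (g : G) (x y : X), Φ (g • x) (g • y) = Φ x y) :
    ∫⁻ x in F, ∫⁻ y, Φ x y ∂μ ∂μ = ∫⁻ x in F, ∫⁻ y, Φ y x ∂μ ∂μ := by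
  have h1 : ∀ g : G, Measurable fun p : X × X => Φ p.1 (g • p.2) := by
    intro g
    exact hΦ.comp (measurable_fst.prodMk ((measurable_const_smul g).comp measurable_snd))
  have h2 : ∀ g : G, Measurable fun p : X × X => Φ (g • p.1) p.2 := by
    intro g
    exact hΦ.comp (((measurable_const_smul g).comp measurable_fst).prodMk measurable_snd)
  calc ∫⁻ x in F, ∫⁻ y, Φ x y ∂μ ∂μ
      = ∫⁻ x in F, ∑' g : G, ∫⁻ y in F, Φ x (g⁻¹ • y) ∂μ ∂μ := by
        refine lintegral_congr fun x => ?_
        exact hF.lintegral_eq_tsum' _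
    _ = ∑' g : G, ∫⁻ x in F, ∫⁻ y in F, Φ x (g⁻¹ • y) ∂μ ∂μ := by
        rw [lintegral_tsum]
        intro g
        exact (h1 g⁻¹).lintegral_prod_right'.aemeasurable
    _ = ∑' g : G, ∫⁻ x in F, ∫⁻ y in F, Φ (g • x) y ∂μ ∂μ := by
        refine tsum_congr fun g => ?_
        refine lintegral_congr fun x => ?_
        refine lintegral_congr fun y => ?_
        rw [← hinv g x, smul_inv_smul]
    _ = ∑' g : G, ∫⁻ y in F, ∫⁻ x in F, Φ (g • x) y ∂μ ∂μ := by
        refine tsum_congr fun g => ?_
        exact lintegral_lintegral_swap (h2 g).aemeasurable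
    _ = ∫⁻ y in F, ∑' g : G, ∫⁻ x in F, Φ (g • x) y ∂μ ∂μ := by
        rw [lintegral_tsum]
        intro g
        exact (h2 g).lintegral_prod_left'.aemeasurable
    _ = ∫⁻ y in F, ∫⁻ x, Φ x y ∂μ ∂μ := by
        refine lintegral_congr fun y => ?_
        exact (hF.lintegral_eq_tsum'' fun x => Φ x y).symm

/-- The kernel argument. -/
theorem ae_eq_of_superaverage {F : Set X} (hF : IsFundamentalDomain G F μ) (hFfin : μ F < ∞)
    {B : Set (X × X)} (hB : MeasurableSet B) (hsymm : ∀ x y, (x, y) ∈ B → (y, x) ∈ B)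
    (hBinv : ∀ (g : G) (x y : X), (x, y) ∈ B → (g • x, g • y) ∈ B)
    {c : ℝ≥0∞} (hc : c < ∞) (hBc : ∀ x, μ (Prod.mk x ⁻¹' B) ≤ c)
    {f : X → ℝ} (hf : Measurable f) (hpos : ∀ x, 0 < f x)
    {m : G → ℝ} (hm : ∀ (g : G) (x : X), f (g • x) = m g * f x)
    (hmean : ∀ x, ∫⁻ y in Prod.mk x ⁻¹' B, ENNReal.ofReal (f y) ∂μ
      ≤ ENNReal.ofReal (f x) * μ (Prod.mk x ⁻¹' B)) :
    ∀ᵐ x ∂μ, ∀ᵐ y ∂μ, (x, y) ∈ B → f y = f x := by
  classical
  set ν : Measure (X × X) := ((μ.restrict F).prod μ).restrict B with hν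
  set g : X × X → ℝ := fun p => Real.log (f p.2) - Real.log (f p.1) with hg
  have hgm : Measurable g := by
    have := Real.measurable_log
    fun_prop
  have hBiff : ∀ (a : G) (x y : X), (a • x, a • y) ∈ B ↔ (x, y) ∈ B := by
    intro a x y
    constructor
    · intro h
      have := hBinv a⁻¹ _ _ h
      simpa using this
    · exact hBinv a x y
  have hmpos : ∀ (a : G) (x : X), 0 < m a := by
    intro a x
    have h1 := hpos (a • x)
    rw [hm] at h1
    exact (pos_iff_pos_of_mul_pos h1).mpr (hpos x)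
  have hginv : ∀ (a : G) (x y : X), g (a • x, a • y) = g (x, y) := by
    intro a x y
    simp only [hg, hm]
    rw [Real.log_mul (hmpos a x).ne' (hpos y).ne', Real.log_mul (hmpos a x).ne' (hpos x).ne']
    ring
  -- integrals against `ν`
  have hνint : ∀ Ψ : X × X → ℝ≥0∞, Measurable Ψ →
      ∫⁻ p, Ψ p ∂ν = ∫⁻ x in F, ∫⁻ y, B.indicator Ψ (x, y) ∂μ ∂μ := by
    intro Ψ hΨ
    rw [hν, ← lintegral_indicator hB, lintegral_prod _ (hΨ.indicator hB).aemeasurable]
  have hmass : ν univ ≤ c * μ F := by
    have := hνint (fun _ => 1) measurable_const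
    rw [lintegral_one] at this
    rw [this]
    calc ∫⁻ x in F, ∫⁻ y, B.indicator (fun _ => 1) (x, y) ∂μ ∂μ
        ≤ ∫⁻ x in F, c ∂μ := by
          refine lintegral_mono fun x => ?_
          have h3 : (fun y => B.indicator (fun _ => (1 : ℝ≥0∞)) (x, y))
              = (Prod.mk x ⁻¹' B).indicator 1 := by
            ext y; simp [Set.indicator]
          rw [h3, lintegral_indicator_one (measurable_prodMk_left hB)]
          exact hBc x
      _ = c * μ F := by simp
  have hfin : IsFiniteMeasure ν := ⟨lt_of_le_of_lt hmass (ENNReal.mul_lt_top hc hFfin)⟩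
  -- (i) exponential moment
  have hexp : ∫⁻ p, ENNReal.ofReal (Real.exp (g p)) ∂ν ≤ ν univ := by
    have h1 := hνint (fun p => ENNReal.ofReal (Real.exp (g p)))
      (ENNReal.measurable_ofReal.comp (Real.measurable_exp.comp hgm))
    have h2 := hνint (fun _ => 1) measurable_const
    rw [lintegral_one] at h2
    rw [h1, h2]
    refine lintegral_mono fun x => ?_
    have hx : (fun y => B.indicator (fun p => ENNReal.ofReal (Real.exp (g p))) (x, y))
        = (Prod.mk x ⁻¹' B).indicator
          (fun y => (ENNReal.ofReal (f x))⁻¹ * ENNReal.ofReal (f y)) := by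
      ext y
      by_cases hy : (x, y) ∈ B
      · rw [indicator_of_mem hy, indicator_of_mem (by exact hy)]
        simp only [hg]
        rw [Real.exp_sub, Real.exp_log (hpos y), Real.exp_log (hpos x), div_eq_inv_mul,
          ENNReal.ofReal_mul (inv_nonneg.mpr (hpos x).le), ENNReal.ofReal_inv_of_pos (hpos x)]
      · rw [indicator_of_notMem hy, indicator_of_notMem (by exact hy)]
    have hx2 : (fun y => B.indicator (fun _ => (1 : ℝ≥0∞)) (x, y))
        = (Prod.mk x ⁻¹' B).indicator 1 := by
      ext y; simp [Set.indicator]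
    rw [hx, hx2, lintegral_indicator_one (measurable_prodMk_left hB),
      lintegral_indicator (measurable_prodMk_left hB), lintegral_const_mul _ (by fun_prop)]
    have hne : ENNReal.ofReal (f x) ≠ 0 := by
      simpa using hpos x
    calc (ENNReal.ofReal (f x))⁻¹ * ∫⁻ y in Prod.mk x ⁻¹' B, ENNReal.ofReal (f y) ∂μ
        ≤ (ENNReal.ofReal (f x))⁻¹ * (ENNReal.ofReal (f x) * μ (Prod.mk x ⁻¹' B)) := by
          gcongr; exact hmean x
      _ = μ (Prod.mk x ⁻¹' B) := by
          rw [← mul_assoc, ENNReal.inv_mul_cancel hne ENNReal.ofReal_ne_top, one_mul]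
  -- (ii) positive part
  have hpp : ∫⁻ p, ENNReal.ofReal (g p) ∂ν ≤ ν univ := by
    refine le_trans (lintegral_mono fun p => ?_) hexp
    apply ENNReal.ofReal_le_ofReal
    linarith [Real.add_one_le_exp (g p)]
  -- (iii) symmetry
  have hsw : ∫⁻ p, ENNReal.ofReal (-g p) ∂ν = ∫⁻ p, ENNReal.ofReal (g p) ∂ν := by
    rw [hνint (fun p => ENNReal.ofReal (-g p)) (ENNReal.measurable_ofReal.comp hgm.neg),
      hνint (fun p => ENNReal.ofReal (g p)) (ENNReal.measurable_ofReal.comp hgm)]
    have key := lintegral_swap_of_invariant (G := G) (μ := μ) hF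
      (Φ := fun x y => B.indicator (fun p => ENNReal.ofReal (g p)) (x, y))
      ((ENNReal.measurable_ofReal.comp hgm).indicator hB) (by
        intro a x y
        by_cases h : (x, y) ∈ B
        · rw [indicator_of_mem h, indicator_of_mem ((hBiff a x y).mpr h), hginv]
        · rw [indicator_of_notMem h, indicator_of_notMem (fun h' => h ((hBiff a x y).mp h'))])
    rw [key]
    refine lintegral_congr fun x => lintegral_congr fun y => ?_
    by_cases h : (x, y) ∈ B
    · rw [indicator_of_mem h, indicator_of_mem (hsymm _ _ h)]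
      congr 1
      simp [hg]
    · rw [indicator_of_notMem h, indicator_of_notMem (fun h' => h (hsymm _ _ h'))]
  have hmasslt : ν univ < ∞ := measure_lt_top ν univ
  have hgi : Integrable g ν := by
    refine ⟨hgm.aestronglyMeasurable, ?_⟩
    rw [hasFiniteIntegral_iff_norm]
    calc ∫⁻ p, ENNReal.ofReal ‖g p‖ ∂ν
        ≤ ∫⁻ p, (ENNReal.ofReal (g p) + ENNReal.ofReal (-g p)) ∂ν := by
          refine lintegral_mono fun p => ?_
          rw [Real.norm_eq_abs]
          rcases le_total 0 (g p) with h | h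
          · rw [abs_of_nonneg h]; exact le_self_add
          · rw [abs_of_nonpos h]; exact le_add_self
      _ = ∫⁻ p, ENNReal.ofReal (g p) ∂ν + ∫⁻ p, ENNReal.ofReal (-g p) ∂ν :=
          lintegral_add_left (ENNReal.measurable_ofReal.comp hgm) _
      _ < ∞ := by
          rw [hsw]
          exact ENNReal.add_lt_top.mpr ⟨lt_of_le_of_lt hpp hmasslt, lt_of_le_of_lt hpp hmasslt⟩
  have hg0 : ∫ p, g p ∂ν = 0 := by
    rw [integral_eq_lintegral_pos_part_sub_lintegral_neg_part hgi, hsw, sub_self]
  have hei : Integrable (fun p => Real.exp (g p)) ν := by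
    refine ⟨(Real.measurable_exp.comp hgm).aestronglyMeasurable, ?_⟩
    rw [hasFiniteIntegral_iff_ofReal (Filter.Eventually.of_forall fun p => (Real.exp_pos _).le)]
    exact lt_of_le_of_lt hexp hmasslt
  have hei2 : ∫ p, Real.exp (g p) ∂ν ≤ (ν univ).toReal := by
    rw [integral_eq_lintegral_of_nonneg_ae
      (Filter.Eventually.of_forall fun p => (Real.exp_pos _).le) hei.aestronglyMeasurable]
    exact ENNReal.toReal_mono hmasslt.ne hexp
  have hint : Integrable (fun p => Real.exp (g p) - 1 - g p) ν :=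
    (hei.sub (integrable_const 1)).sub hgi
  have hnn : 0 ≤ᵐ[ν] fun p => Real.exp (g p) - 1 - g p :=
    Filter.Eventually.of_forall fun p => by
      have := Real.add_one_le_exp (g p)
      simp only [Pi.zero_apply]; linarith
  have hzero : ∫ p, (Real.exp (g p) - 1 - g p) ∂ν = 0 := by
    apply le_antisymm
    · have h1 : ∫ p, (Real.exp (g p) - 1 - g p) ∂ν
          = ∫ p, Real.exp (g p) ∂ν - (ν univ).toReal := by
        have h2 : Integrable (fun p => Real.exp (g p) - 1) ν := hei.sub (integrable_const 1)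
        rw [integral_sub h2 hgi, hg0, integral_sub hei (integrable_const 1)]
        simp [Measure.real]
      rw [h1]; linarith
    · exact integral_nonneg_of_ae hnn
  have hae : ∀ᵐ p ∂ν, g p = 0 := by
    have := (integral_eq_zero_iff_of_nonneg_ae hnn hint).mp hzero
    filter_upwards [this] with p hp
    by_contra hne
    have := Real.add_one_lt_exp hne
    simp only [Pi.zero_apply] at hp
    linarith
  have hae2 : ∀ᵐ p ∂((μ.restrict F).prod μ), p ∈ B → f p.2 = f p.1 := by
    have := (ae_restrict_iff' hB).mp hae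
    filter_upwards [this] with p hp hpB
    have h := hp hpB
    simp only [hg] at h
    exact Real.log_injOn_pos (mem_Ioi.mpr (hpos _)) (mem_Ioi.mpr (hpos _)) (by linarith)
  have hae3 : ∀ᵐ x ∂(μ.restrict F), ∀ᵐ y ∂μ, (x, y) ∈ B → f y = f x :=
    Measure.ae_ae_of_ae_prod hae2
  -- the bad set
  set N : Set X := {x | ¬ ∀ᵐ y ∂μ, (x, y) ∈ B → f y = f x} with hN
  have hNinv : ∀ a : G, a • N = N := by
    intro a
    have key : ∀ (a : G) (x : X), (∀ᵐ y ∂μ, (x, y) ∈ B → f y = f x) →
        ∀ᵐ y ∂μ, (a • x, y) ∈ B → f y = f (a • x) := by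
      intro a x hx
      have h1 := (measurePreserving_smul a⁻¹ μ).quasiMeasurePreserving.ae hx
      filter_upwards [h1] with y hy hyB
      have h2 : (x, a⁻¹ • y) ∈ B := by
        have := (hBiff a⁻¹ (a • x) y).mpr hyB
        simpa using this
      have h3 := hy h2
      have h4 : f y = m a * f (a⁻¹ • y) := by
        rw [← hm, smul_inv_smul]
      rw [h4, h3, hm]
    ext x
    rw [mem_smul_set_iff_inv_smul_mem]
    simp only [hN, mem_ofPred_eq]
    constructor
    · intro h h'
      exact h (key a⁻¹ x h')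
    · intro h h'
      apply h
      have := key a _ h'
      simpa using this
  have hNF : μ (N ∩ F) = 0 := by
    have := ae_iff.mp hae3
    have h0 : μ.restrict F N = 0 := this
    exact le_antisymm (le_trans (Measure.le_restrict_apply _ _) h0.le) bot_le
  have : μ N = 0 := by
    refine hF.measure_zero_of_invariant N (fun a => hNinv a) ?_
    exact hNF
  exact this

end

end Pool.Agent.H25.GW
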