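import Mathlib
import Pool.Agent.H25.GW.Kernel
import Pool.Agent.H25.GW.Comp

/-!
# Liouville property of lattices in `SL(2,ℝ)`

A positive superharmonic function on the upper half-plane which is multiplied by constants under
a subgroup of `SL(2,ℝ)` with a fundamental domain of finite hyperbolic area is constant.
-/

open MeasureTheory Set Filter Topology Metric UpperHalfPlane
open scoped Real MatrixGroups ENNReal

namespace Pool.Agent.H25.GW

/-- Cayley transform from the disc to the upper half-plane. -/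
noncomputable def cay (ζ : ℂ) : ℂ := Complex.I * (1 + ζ) / (1 - ζ)

theorem cay_im {ζ : ℂ} (hζ : ζ ∈ ball (0 : ℂ) 1) : 0 < (cay ζ).im := by
  rw [mem_ball_zero_iff] at hζ
  have hne : (1 - ζ) ≠ 0 := by
    intro h
    have : ζ = 1 := (sub_eq_zero.mp h).symm
    rw [this] at hζ
    simp at hζ
  have h1 : Complex.normSq ζ < 1 := by
    rw [Complex.normSq_eq_norm_sq]
    have := norm_nonneg ζ
    nlinarith
  have h2 : 0 < Complex.normSq (1 - ζ) := Complex.normSq_pos.mpr hne
  unfold cay
  rw [Complex.div_im]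
  have h3 : (Complex.I * (1 + ζ)).im * (1 - ζ).re / Complex.normSq (1 - ζ)
      - (Complex.I * (1 + ζ)).re * (1 - ζ).im / Complex.normSq (1 - ζ)
      = (1 - Complex.normSq ζ) / Complex.normSq (1 - ζ) := by
    rw [← sub_div]
    congr 1
    simp [Complex.normSq_apply]
    ring
  rw [h3]
  exact div_pos (by linarith) h2

theorem cay_analyticAt {ζ : ℂ} (hζ : ζ ∈ ball (0 : ℂ) 1) : AnalyticAt ℂ cay ζ := by
  rw [mem_ball_zero_iff] at hζ
  have hne : (1 - ζ) ≠ 0 := by
    intro h
    have : ζ = 1 := (sub_eq_zero.mp h).symm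
    rw [this] at hζ
    simp at hζ
  unfold cay
  fun_prop (disch := exact hne)

/-- inverse Cayley transform -/
noncomputable def icay (w : ℂ) : ℂ := (w - Complex.I) / (w + Complex.I)

theorem add_I_ne {w : ℂ} (hw : 0 < w.im) : w + Complex.I ≠ 0 := by
  intro h
  have := congrArg Complex.im h
  simp at this
  linarith

theorem cay_icay {w : ℂ} (hw : 0 < w.im) : cay (icay w) = w := by
  have h1 := add_I_ne hw
  have hI : Complex.I ≠ 0 := Complex.I_ne_zero
  have h2 : (1 : ℂ) - (w - Complex.I) / (w + Complex.I) = 2 * Complex.I / (w + Complex.I) := by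
    field_simp; ring
  have h3 : (1 : ℂ) + (w - Complex.I) / (w + Complex.I) = 2 * w / (w + Complex.I) := by
    field_simp; ring
  unfold cay icay
  rw [h2, h3]
  field_simp

theorem icay_mem {w : ℂ} (hw : 0 < w.im) : icay w ∈ ball (0 : ℂ) 1 := by
  rw [mem_ball_zero_iff]
  unfold icay
  rw [norm_div, div_lt_one (norm_pos_iff.mpr (add_I_ne hw))]
  apply lt_of_pow_lt_pow_left₀ 2 (norm_nonneg _)
  rw [← Complex.normSq_eq_norm_sq, ← Complex.normSq_eq_norm_sq]
  simp [Complex.normSq_apply]
  nlinarith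

/-- rotation in `SL(2,ℝ)` around `i` by the angle `θ` -/
noncomputable def rot (θ : ℝ) : SL(2, ℝ) :=
  ⟨!![Real.cos (θ / 2), Real.sin (θ / 2); -Real.sin (θ / 2), Real.cos (θ / 2)], by
    rw [Matrix.det_fin_two_of]
    have := Real.cos_sq_add_sin_sq (θ / 2)
    nlinarith⟩

theorem rot_continuous : Continuous rot := by
  apply continuous_induced_rng.mpr
  show Continuous fun θ : ℝ =>
    (!![Real.cos (θ / 2), Real.sin (θ / 2); -Real.sin (θ / 2), Real.cos (θ / 2)] :
      Matrix (Fin 2) (Fin 2) ℝ)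
  apply continuous_matrix
  intro i j
  fin_cases i <;> fin_cases j <;> simp <;> fun_prop

theorem icay_rot (θ : ℝ) (w : ℍ) :
    icay ((rot θ • w : ℍ) : ℂ) = Complex.exp (θ * Complex.I) * icay w := by
  set a : ℝ := Real.cos (θ / 2) with ha
  set b : ℝ := Real.sin (θ / 2) with hb
  have hab : a ^ 2 + b ^ 2 = 1 := Real.cos_sq_add_sin_sq (θ / 2)
  have hw := w.im_pos
  have hcoe : ((rot θ • w : ℍ) : ℂ) = (a * w + b) / (-b * w + a) := by
    rw [coe_specialLinearGroup_apply]
    simp [rot, ha, hb]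
  have hden : (-b * (w : ℂ) + a) ≠ 0 := by
    intro h
    have h1 := congrArg Complex.im h
    have h2 := congrArg Complex.re h
    simp at h1 h2
    rcases h1 with h1 | h1
    · rw [h1] at h2 hab
      simp at h2
      rw [h2] at hab
      norm_num at hab
    · exact w.im_ne_zero h1
  have hexp : Complex.exp (θ * Complex.I) = (a + b * Complex.I) ^ 2 := by
    have h1 : (θ : ℂ) * Complex.I = (θ / 2 : ℝ) * Complex.I + (θ / 2 : ℝ) * Complex.I := by
      push_cast; ring
    rw [h1, Complex.exp_add, Complex.exp_mul_I, ← Complex.ofReal_cos, ← Complex.ofReal_sin]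
    ring
  have hI2 : Complex.I ^ 2 = -1 := Complex.I_sq
  have habC : ((a : ℂ) + b * Complex.I) * (a - b * Complex.I) = 1 := by
    have : ((a ^ 2 + b ^ 2 : ℝ) : ℂ) = 1 := by rw [hab]; simp
    push_cast at this
    linear_combination this - (b : ℂ) ^ 2 * hI2
  have hne1 : (a : ℂ) - b * Complex.I ≠ 0 := right_ne_zero_of_mul_eq_one habC
  have h2 := add_I_ne hw
  have hgen : ∀ (N D N' : ℂ), D ≠ 0 → N - Complex.I * D = N' → N / D - Complex.I = N' / D := by
    intro N D N' hD h
    rw [← h]; field_simp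
  have hgen' : ∀ (N D N' : ℂ), D ≠ 0 → N + Complex.I * D = N' → N / D + Complex.I = N' / D := by
    intro N D N' hD h
    rw [← h]; field_simp
  have h3 : ((a : ℂ) * w + b) / (-b * w + a) - Complex.I
      = (a + b * Complex.I) * (w - Complex.I) / (-b * w + a) := by
    apply hgen _ _ _ hden
    linear_combination (b : ℂ) * hI2
  have h4 : ((a : ℂ) * w + b) / (-b * w + a) + Complex.I
      = (a - b * Complex.I) * (w + Complex.I) / (-b * w + a) := by
    apply hgen' _ _ _ hden
    linear_combination (b : ℂ) * hI2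
  have h5 : (a : ℂ) + b * Complex.I = 1 / (a - b * Complex.I) :=
    eq_one_div_of_mul_eq_one_left habC
  rw [hcoe, hexp]
  unfold icay
  rw [h3, h4, div_div_div_cancel_right₀ hden, mul_div_mul_comm]
  have h6 : ((a : ℂ) + b * Complex.I) / (a - b * Complex.I) = (a + b * Complex.I) ^ 2 := by
    rw [div_eq_mul_one_div, ← h5]; ring
  rw [h6]

/-- superharmonicity of a function on the upper half-plane -/
def SuperHarmH (f : ℍ → ℝ) : Prop := SuperHarm (fun z => f (ofComplex z)) {z : ℂ | 0 < z.im}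

theorem SuperHarmH.disc {f : ℍ → ℝ} (hf : SuperHarmH f) (g : SL(2, ℝ)) :
    SuperHarm (fun ζ => f (g • ofComplex (cay ζ))) (ball 0 1) := by
  set φ : ℂ → ℂ := fun ζ => (g 0 0 * cay ζ + g 0 1) / (g 1 0 * cay ζ + g 1 1) with hφ
  have hden : ∀ ζ ∈ ball (0 : ℂ) 1, ((g 1 0 : ℝ) : ℂ) * cay ζ + (g 1 1 : ℝ) ≠ 0 := by
    intro ζ hζ h
    have hc := cay_im hζ
    have h1 := congrArg Complex.im h
    have h2 := congrArg Complex.re h
    simp at h1 h2
    rcases h1 with h1 | h1
    · rw [h1] at h2
      simp at h2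
      have := g.det_coe
      rw [Matrix.det_fin_two, h1, h2] at this
      simp at this
    · linarith
  have hval : ∀ ζ ∈ ball (0 : ℂ) 1, ((g • ofComplex (cay ζ) : ℍ) : ℂ) = φ ζ := by
    intro ζ hζ
    rw [coe_specialLinearGroup_apply, ofComplex_apply_of_im_pos (cay_im hζ)]
    simp [hφ]
  have hmaps : MapsTo φ (ball 0 1) {z : ℂ | 0 < z.im} := by
    intro ζ hζ
    rw [mem_ofPred_eq, ← hval ζ hζ]
    exact UpperHalfPlane.im_pos _
  have han : ∀ ζ ∈ ball (0 : ℂ) 1, AnalyticAt ℂ φ ζ := by
    intro ζ hζ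
    have := cay_analyticAt hζ
    simp only [hφ]
    fun_prop (disch := exact hden ζ hζ)
  have h1 := SuperHarm.comp hf han hmaps
  refine h1.congr fun z hz => ?_
  filter_upwards [isOpen_ball.mem_nhds hz] with y hy
  simp only [Function.comp]
  rw [← hval y hy, ofComplex_apply]

theorem cay_zero : ofComplex (cay 0) = UpperHalfPlane.I := by
  have : cay 0 = (UpperHalfPlane.I : ℂ) := by simp [cay]
  rw [this, ofComplex_apply]

/-- circle averages around `i`, as an integral over the rotations -/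
theorem rot_mean_le {f : ℍ → ℝ} (hf : SuperHarmH f) (g : SL(2, ℝ)) (w : ℍ) :
    ∫ θ in (0 : ℝ)..2 * π, f (g • rot θ • w) ≤ 2 * π * f (g • UpperHalfPlane.I) := by
  set F : ℂ → ℝ := fun ζ => f (g • ofComplex (cay ζ)) with hF
  have hFs : SuperHarm F (ball 0 1) := hf.disc g
  have hF0 : F 0 = f (g • UpperHalfPlane.I) := by
    simp only [hF]; rw [cay_zero]
  have hFw : ∀ θ : ℝ, f (g • rot θ • w) = F (Complex.exp (θ * Complex.I) * icay w) := by
    intro θ
    simp only [hF]
    rw [← icay_rot, cay_icay (UpperHalfPlane.im_pos _), ofComplex_apply]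
  simp_rw [hFw]
  by_cases h0 : icay (w : ℂ) = 0
  · rw [h0]
    simp [hF0]
  · have hmem := icay_mem w.im_pos
    rw [mem_ball_zero_iff] at hmem
    set s : ℝ := Real.log ‖icay (w : ℂ)‖ with hs
    have hsneg : s < 0 := Real.log_neg (norm_pos_iff.mpr h0) hmem
    set α : ℝ := Complex.arg (icay (w : ℂ)) with hα
    have hw : icay (w : ℂ) = Complex.exp (s + α * Complex.I) := by
      rw [hs, hα, Complex.exp_add, ← Complex.ofReal_exp, Real.exp_log (norm_pos_iff.mpr h0)]
      exact (Complex.norm_mul_exp_arg_mul_I _).symm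
    have hfun : ∀ θ : ℝ, F (Complex.exp (θ * Complex.I) * icay w)
        = (fun t : ℝ => F (Complex.exp (s + t * Complex.I))) (θ + α) := by
      intro θ
      simp only
      rw [hw, ← Complex.exp_add]
      congr 2
      push_cast; ring
    simp_rw [hfun]
    rw [intervalIntegral.integral_comp_add_right
      (fun t : ℝ => F (Complex.exp (s + t * Complex.I)))]
    have hper : Function.Periodic (fun t : ℝ => F (Complex.exp (s + t * Complex.I))) (2 * π) := by
      intro t
      simp only
      congr 1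
      have : ((s : ℂ) + (t + 2 * π : ℝ) * Complex.I)
          = (s + t * Complex.I) + 2 * π * Complex.I := by push_cast; ring
      rw [this, Complex.exp_add, Complex.exp_two_pi_mul_I, mul_one]
    have h2 : (0 + α : ℝ) = α := zero_add _
    have h3 : (2 * π + α : ℝ) = α + 2 * π := add_comm _ _
    rw [h2, h3, hper.intervalIntegral_add_eq α 0, zero_add, ← hF0]
    exact circle_mean_le hFs hsneg

theorem ball_smul_preimage (g : SL(2, ℝ)) (z : ℍ) (r : ℝ) :
    (fun w : ℍ => g • w) ⁻¹' ball (g • z) r = ball z r := by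
  ext w
  simp [mem_ball]

instance : MeasurableConstSMul SL(2, ℝ) ℍ where
  measurable_const_smul g := (continuous_const_smul g).measurable

instance : SMulInvariantMeasure SL(2, ℝ) ℍ volume where
  measure_preimage_smul g s hs := by
    have h := (measure_preimage_smul (μ := (volume : Measure ℍ))
      (g : GL (Fin 2) ℝ) s)
    have h2 : (fun x : ℍ => g • x) = fun x : ℍ => (g : GL (Fin 2) ℝ) • x := by
      ext x
      rw [MulAction.compHom_smul_def]
      rfl
    rw [h2]
    exact h

theorem volume_ball_eq (z : ℍ) (r : ℝ) : volume (ball z r) = volume (ball UpperHalfPlane.I r) := by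
  obtain ⟨g, hg⟩ := MulAction.exists_smul_eq SL(2, ℝ) UpperHalfPlane.I z
  have := measure_preimage_smul (μ := (volume : Measure ℍ)) g (ball z r)
  rw [← this, ← hg, ball_smul_preimage]

theorem setLIntegral_ball_smul (k : SL(2, ℝ)) (z : ℍ) (r : ℝ) {F : ℍ → ℝ≥0∞} (hF : Measurable F) :
    ∫⁻ w in ball (k • z) r, F w = ∫⁻ w in ball z r, F (k • w) := by
  have h1 := (measurePreserving_smul k (volume : Measure ℍ)).setLIntegral_comp_preimage
    (isOpen_ball.measurableSet (s := ball (k • z) r)) hF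
  rw [← h1, ball_smul_preimage]

theorem rot_smul_I (θ : ℝ) : rot θ • UpperHalfPlane.I = UpperHalfPlane.I := by
  have h1 := icay_rot θ UpperHalfPlane.I
  have h2 : icay (UpperHalfPlane.I : ℂ) = 0 := by simp [icay]
  rw [h2, mul_zero] at h1
  have h3 := cay_icay (UpperHalfPlane.im_pos (rot θ • UpperHalfPlane.I))
  apply UpperHalfPlane.ext
  have h4 : ((rot θ • UpperHalfPlane.I : ℍ) : ℂ) = cay 0 := by rw [← h3, h1]
  rw [h4]; simp [cay]

theorem ball_mean_aux {f : ℍ → ℝ} (hc : Continuous f) (hpos : ∀ z, 0 < f z) (r : ℝ)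
    (hmean : ∀ w : ℍ, ∫ θ in (0 : ℝ)..2 * π, f (rot θ • w) ≤ 2 * π * f UpperHalfPlane.I) :
    ∫⁻ w in ball UpperHalfPlane.I r, ENNReal.ofReal (f w)
      ≤ ENNReal.ofReal (f UpperHalfPlane.I) * volume (ball UpperHalfPlane.I r) := by
  have hfc : Continuous fun w => ENNReal.ofReal (f w) := ENNReal.continuous_ofReal.comp hc
  have hrot : ∀ θ : ℝ, ∫⁻ w in ball UpperHalfPlane.I r, ENNReal.ofReal (f (rot θ • w))
      = ∫⁻ w in ball UpperHalfPlane.I r, ENNReal.ofReal (f w) := by
    intro θ
    have := setLIntegral_ball_smul (rot θ) UpperHalfPlane.I r hfc.measurable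
    rw [rot_smul_I] at this
    exact this.symm
  have hjc : Continuous fun p : ℝ × ℍ => rot p.1 • p.2 :=
    (rot_continuous.comp continuous_fst).smul continuous_snd
  obtain ⟨H, hH⟩ : ∃ H : ℝ → ℍ → ℝ, ∀ θ w, H θ w = f (rot θ • w) := ⟨_, fun _ _ => rfl⟩
  have hHc : Continuous (Function.uncurry H) := by
    have h1 : Function.uncurry H = fun p : ℝ × ℍ => f (rot p.1 • p.2) := by
      ext p; exact hH p.1 p.2
    rw [h1]
    exact hc.comp hjc
  have hHpos : ∀ θ w, 0 < H θ w := fun θ w => by rw [hH]; exact hpos _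
  have hmeas : Measurable (Function.uncurry fun (θ : ℝ) (w : ℍ) => ENNReal.ofReal (H θ w)) :=
    (ENNReal.continuous_ofReal.comp hHc).measurable
  have h2π : (0 : ℝ) < 2 * π := by positivity
  set J : ℝ≥0∞ := ∫⁻ w in ball UpperHalfPlane.I r, ENNReal.ofReal (f w) with hJ
  have e1 : ENNReal.ofReal (2 * π) * J
      = ∫⁻ θ in Ioc (0 : ℝ) (2 * π), ∫⁻ w in ball UpperHalfPlane.I r, ENNReal.ofReal (H θ w) := by
    have h1 : (fun θ : ℝ => ∫⁻ w in ball UpperHalfPlane.I r, ENNReal.ofReal (H θ w))
        = fun _ => J := by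
      ext θ
      rw [← hrot θ]
      simp_rw [hH]
    rw [h1, setLIntegral_const, Real.volume_Ioc, sub_zero, mul_comm]
  have e2 : ∫⁻ θ in Ioc (0 : ℝ) (2 * π), ∫⁻ w in ball UpperHalfPlane.I r, ENNReal.ofReal (H θ w)
      = ∫⁻ w in ball UpperHalfPlane.I r, ∫⁻ θ in Ioc (0 : ℝ) (2 * π), ENNReal.ofReal (H θ w) :=
    lintegral_lintegral_swap hmeas.aemeasurable
  have e3 : ∀ w : ℍ, ∫⁻ θ in Ioc (0 : ℝ) (2 * π), ENNReal.ofReal (H θ w)
      ≤ ENNReal.ofReal (2 * π * f UpperHalfPlane.I) := by
    intro w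
    have hcw : Continuous fun θ : ℝ => H θ w :=
      hHc.comp (continuous_id.prodMk continuous_const)
    have hint : Integrable (fun θ : ℝ => H θ w) (volume.restrict (Ioc (0 : ℝ) (2 * π))) :=
      (hcw.intervalIntegrable 0 (2 * π)).1
    have h1 : ∫⁻ θ in Ioc (0 : ℝ) (2 * π), ENNReal.ofReal (H θ w)
        = ENNReal.ofReal (∫ θ in (0 : ℝ)..2 * π, H θ w) := by
      rw [intervalIntegral.integral_of_le h2π.le]
      rw [ofReal_integral_eq_lintegral_ofReal hint
        (Eventually.of_forall fun θ => (hHpos _ _).le)]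
    rw [h1]
    apply ENNReal.ofReal_le_ofReal
    simp_rw [hH]
    exact hmean w
  have hkey : ENNReal.ofReal (2 * π) * J
      ≤ ENNReal.ofReal (2 * π) * (ENNReal.ofReal (f UpperHalfPlane.I) *
        volume (ball UpperHalfPlane.I r)) := by
    rw [e1, e2]
    refine (lintegral_mono e3).trans (le_of_eq ?_)
    rw [setLIntegral_const, ENNReal.ofReal_mul h2π.le, mul_assoc]
  have hne0 : ENNReal.ofReal (2 * π) ≠ 0 := by simpa using h2π
  exact (ENNReal.mul_le_mul_iff_right hne0 ENNReal.ofReal_ne_top).mp hkey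

/-- mean value inequality over hyperbolic balls -/
theorem ball_mean_le {f : ℍ → ℝ} (hc : Continuous f) (hpos : ∀ z, 0 < f z)
    (hf : SuperHarmH f) (z : ℍ) (r : ℝ) :
    ∫⁻ w in ball z r, ENNReal.ofReal (f w) ≤ ENNReal.ofReal (f z) * volume (ball z r) := by
  obtain ⟨g, hg⟩ := MulAction.exists_smul_eq SL(2, ℝ) UpperHalfPlane.I z
  have hfc : Continuous fun w => ENNReal.ofReal (f w) := ENNReal.continuous_ofReal.comp hc
  rw [volume_ball_eq z r, ← hg, setLIntegral_ball_smul g _ _ hfc.measurable]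
  exact ball_mean_aux (f := fun w => f (g • w)) (hc.comp (continuous_const_smul g))
    (fun w => hpos _) r (fun w => rot_mean_le hf g w)

theorem volume_ne_zero : (volume : Measure ℍ) ≠ 0 := by
  intro h
  have h1 := volume_eq_lintegral (univ : Set ℍ)
  rw [h] at h1
  simp only [Measure.coe_zero, Pi.zero_apply, image_univ] at h1
  have h2 := h1.symm
  have hopen : IsOpen (range UpperHalfPlane.coe) := isOpenEmbedding_coe.isOpen_range
  rw [lintegral_eq_zero_iff (by fun_prop)] at h2
  have h3 : ∀ᵐ z : ℂ ∂(volume.restrict (range UpperHalfPlane.coe)), False := by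
    have h4 := ae_restrict_mem (μ := (volume : Measure ℂ)) hopen.measurableSet
    filter_upwards [h2, h4] with z hz hz2
    obtain ⟨w, rfl⟩ := hz2
    simp only [Pi.zero_apply, ENNReal.coe_eq_zero] at hz
    have hw : (w : ℂ).im ≠ 0 := w.im_ne_zero
    simp at hz
    exact hw hz
  have h5 : (volume : Measure ℂ) (range UpperHalfPlane.coe) = 0 := by
    have := ae_iff.mp h3
    simpa using this
  have h6 := hopen.measure_pos (volume : Measure ℂ) ⟨_, mem_range_self UpperHalfPlane.I⟩
  exact h6.ne' h5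

theorem volume_open_pos {U : Set ℍ} (hU : IsOpen U) (hne : U.Nonempty) : 0 < volume U :=
  measure_isOpen_pos_of_smulInvariant_of_ne_zero SL(2, ℝ) volume_ne_zero hU hne

instance : Measure.IsOpenPosMeasure (volume : Measure ℍ) where
  open_pos U hU hne := (volume_open_pos hU hne).ne'

/-- **Liouville property.**  A positive continuous superharmonic function on the upper half-plane
which is multiplied by constants under a subgroup of `SL(2,ℝ)` having a fundamental domain of
finite hyperbolic area is constant. -/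
theorem liouville {Δ : Subgroup SL(2, ℝ)} [Countable Δ] {F : Set ℍ}
    (hF : IsFundamentalDomain Δ F (volume : Measure ℍ)) (hfin : volume F < ∞)
    {f : ℍ → ℝ} (hc : Continuous f) (hpos : ∀ z, 0 < f z) (hf : SuperHarmH f)
    {m : Δ → ℝ} (hm : ∀ (δ : Δ) (z : ℍ), f (δ • z) = m δ * f z) (z w : ℍ) : f z = f w := by
  set B : Set (ℍ × ℍ) := {p | dist p.1 p.2 < 1} with hB
  have hBo : IsOpen B := isOpen_lt (continuous_fst.dist continuous_snd) continuous_const
  have hsec : ∀ x : ℍ, Prod.mk x ⁻¹' B = ball x 1 := by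
    intro x; ext y; simp [hB, mem_ball, dist_comm]
  have hinv : ∀ (δ : Δ) (x y : ℍ), dist (δ • x) (δ • y) = dist x y := fun δ x y =>
    dist_smul (δ : SL(2, ℝ)) x y
  have : MeasurableConstSMul Δ ℍ :=
    ⟨fun δ => (continuous_const_smul (δ : SL(2, ℝ))).measurable⟩
  have : SMulInvariantMeasure Δ ℍ volume :=
    ⟨fun δ s hs => measure_preimage_smul (μ := (volume : Measure ℍ)) (δ : SL(2, ℝ)) s⟩
  have hballfin : volume (ball UpperHalfPlane.I 1) < ∞ :=
    (isCompact_closedBall UpperHalfPlane.I (1 : ℝ)).measure_lt_top.trans_le' 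
      (measure_mono ball_subset_closedBall)
  have key := ae_eq_of_superaverage (G := Δ) (μ := (volume : Measure ℍ)) hF hfin
    hBo.measurableSet
    (fun x y h => by simp only [hB, mem_ofPred_eq] at h ⊢; rwa [dist_comm])
    (fun δ x y h => by simp only [hB, mem_ofPred_eq] at h ⊢; rwa [hinv])
    hballfin (fun x => by rw [hsec, volume_ball_eq]) hc.measurable hpos hm
    (fun x => by rw [hsec]; exact ball_mean_le hc hpos hf x 1)
  have hgood : ∀ x : ℍ, (∀ᵐ y : ℍ, (x, y) ∈ B → f y = f x) → ∀ y ∈ ball x 1, f y = f x := by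
    intro x hx
    by_contra hcon
    push Not at hcon
    obtain ⟨y, hy, hne⟩ := hcon
    set U : Set ℍ := ball x 1 ∩ {y | f y ≠ f x} with hU
    have hUo : IsOpen U := isOpen_ball.inter (isOpen_ne_fun hc continuous_const)
    have hpos := volume_open_pos hUo ⟨y, hy, hne⟩
    have hsub : U ⊆ {y | ¬ ((x, y) ∈ B → f y = f x)} := by
      rintro y ⟨hy, hne⟩ h
      exact hne (h (by
        have : y ∈ Prod.mk x ⁻¹' B := by rw [hsec]; exact hy
        exact this))
    have := measure_mono_null hsub (ae_iff.mp hx)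
    exact hpos.ne' this
  have hloc : IsLocallyConstant f := by
    rw [IsLocallyConstant.iff_eventually_eq]
    intro x
    obtain ⟨x', hx', hx'2⟩ : ∃ x' ∈ ball x (1 / 2), ∀ᵐ y : ℍ, (x', y) ∈ B → f y = f x' := by
      by_contra hcon
      have hsub : ball x (1 / 2) ⊆ {x | ¬ ∀ᵐ y : ℍ, (x, y) ∈ B → f y = f x} := fun x' hx' h =>
        hcon ⟨x', hx', h⟩
      have := measure_mono_null hsub (ae_iff.mp key)
      exact (volume_open_pos isOpen_ball ⟨x, mem_ball_self (by norm_num)⟩).ne' this
    have h1 := hgood x' hx'2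
    filter_upwards [ball_mem_nhds x (by norm_num : (0 : ℝ) < 1 / 2)] with y hy
    rw [mem_ball] at hx' hy
    have h2 : y ∈ ball x' 1 := by
      rw [mem_ball]
      have := dist_triangle y x x'
      rw [dist_comm x x'] at this
      linarith
    have h3 : x ∈ ball x' 1 := by
      rw [mem_ball, dist_comm]; linarith
    rw [h1 y h2, h1 x h3]
  exact hloc.apply_eq_of_preconnectedSpace z w

end Pool.Agent.H25.GW
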