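import Mathlib
import Pool.Agent.H64.GW.Defs
import Pool.Agent.H25.GW.Liouville

/-!
# Bases with enough curves of finite hyperbolic area have the Liouville property
-/

open MeasureTheory Set Filter Topology Metric UpperHalfPlane
open Laplacian
open scoped Real MatrixGroups ENNReal Manifold ContDiff

namespace Pool.Agent.H25.GW

open Pool.Agent.H64.GW

section

variable (𝕄 : Type) [NormedAddCommGroup 𝕄] [NormedSpace ℂ 𝕄]
  (S : Type) [TopologicalSpace S] [ChartedSpace 𝕄 S] (Γ : Type) [Group Γ] [MulAction Γ S]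

/-- A curve of finite hyperbolic area in the base `(S, Γ)`: a holomorphic map `u : ℍ → S` and a
subgroup `Λ` of `SL(2,ℝ)` with a fundamental domain `D` of finite hyperbolic area, such that `u`
is equivariant for a homomorphism `α : Λ → Γ`.  It induces a holomorphic map `Λ \ ℍ → Γ \ S`. -/
structure HypCurve where
  /-- the Fuchsian group -/
  Λ : Subgroup SL(2, ℝ)
  countable : Countable Λ
  /-- the fundamental domain -/
  D : Set ℍ
  fundamental : IsFundamentalDomain Λ D (volume : Measure ℍ)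
  finite_area : volume D < ⊤
  /-- the homomorphism of fundamental groups -/
  α : Λ →* Γ
  /-- the holomorphic map -/
  u : ℍ → S
  holomorphic : MDifferentiable 𝓘(ℂ) 𝓘(ℂ, 𝕄) u
  equivariant : ∀ (δ : Λ) (z : ℍ), u (δ • z) = α δ • u z

/-- The base `(S, Γ)` has enough curves: each point and each sufficiently near point lie on a
common curve of finite hyperbolic area. -/
def HasCurves : Prop :=
  ∀ s : S, ∀ᶠ t in 𝓝 s, ∃ C : HypCurve 𝕄 S Γ, s ∈ range C.u ∧ t ∈ range C.u

end

variable {𝕄 : Type} [NormedAddCommGroup 𝕄] [NormedSpace ℂ 𝕄]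
  {S : Type} [TopologicalSpace S] [ChartedSpace 𝕄 S] {Γ : Type} [Group Γ] [MulAction Γ S]

theorem two_le_smooth : (2 : WithTop ℕ∞) ≤ ((⊤ : ℕ∞) : WithTop ℕ∞) := by
  have h : ((2 : ℕ∞) : WithTop ℕ∞) ≤ ((⊤ : ℕ∞) : WithTop ℕ∞) := WithTop.coe_le_coe.mpr le_top
  exact h

theorem laplacian_eq_fderiv (f : ℂ → ℝ) (z : ℂ) :
    Δ f z = fderiv ℝ (fderiv ℝ f) z 1 1 + fderiv ℝ (fderiv ℝ f) z Complex.I Complex.I := by
  rw [InnerProductSpace.laplacian_eq_iteratedFDeriv_complexPlane]
  simp only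
  rw [iteratedFDeriv_two_apply, iteratedFDeriv_two_apply]
  rfl

theorem superHarm_of_disc {v : S → ℝ} (hv : IsPSH 𝕄 v) {f : ℂ → S} (hf : IsDisc 𝕄 f) :
    SuperHarm (fun ζ => -v (f ζ)) (ball 0 1) := by
  intro z hz
  have h1 : ContDiffAt ℝ 2 (v ∘ f) z :=
    ((hv.smooth f hf).contDiffAt (isOpen_ball.mem_nhds hz)).of_le two_le_smooth
  have h2 := hv.laplacian_nonneg f hf z hz
  rw [laplacian_eq_fderiv] at h2
  refine ⟨h1.neg, ?_⟩
  have h3 : (fun ζ => -v (f ζ)) = -(v ∘ f) := rfl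
  have h4 : fderiv ℝ (-(v ∘ f)) = -fderiv ℝ (v ∘ f) := by
    ext1 y; rw [fderiv_neg]; rfl
  rw [h3, h4, fderiv_neg]
  simp only [neg_apply]
  linarith

theorem isDisc_curve (C : HypCurve 𝕄 S Γ) {z₀ : ℂ} (hz₀ : 0 < z₀.im) :
    IsDisc 𝕄 (fun ζ => C.u (ofComplex (z₀ + z₀.im * ζ))) := by
  intro ζ hζ
  rw [mem_ball_zero_iff] at hζ
  have him : 0 < (z₀ + z₀.im * ζ).im := by
    simp only [Complex.add_im, Complex.mul_im, Complex.ofReal_re, Complex.ofReal_im, zero_mul,
      add_zero]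
    have h1 := Complex.abs_im_le_norm ζ
    have h2 : -1 < ζ.im := by
      have := neg_abs_le ζ.im
      linarith
    nlinarith
  have h1 : MDifferentiableAt 𝓘(ℂ) 𝓘(ℂ) (ofComplex : ℂ → ℍ) (z₀ + z₀.im * ζ) :=
    mdifferentiableAt_ofComplex him
  have h2 : MDifferentiableAt 𝓘(ℂ) 𝓘(ℂ) (fun ζ : ℂ => z₀ + z₀.im * ζ) ζ := by
    rw [mdifferentiableAt_iff_differentiableAt]
    fun_prop
  exact (C.holomorphic _).comp ζ (h1.comp ζ h2)

theorem superHarmH_curve {v : S → ℝ} (hv : IsPSH 𝕄 v) (C : HypCurve 𝕄 S Γ) :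
    SuperHarmH (fun z => -v (C.u z)) := by
  intro z₀ hz₀
  rw [mem_ofPred_eq] at hz₀
  have h1 := superHarm_of_disc hv (isDisc_curve C hz₀)
  have hne : ((z₀.im : ℝ) : ℂ) ≠ 0 := by exact_mod_cast hz₀.ne'
  set φ : ℂ → ℂ := fun z => (z - z₀) / z₀.im with hφ
  have hmaps : MapsTo φ (ball z₀ z₀.im) (ball 0 1) := by
    intro z hz
    rw [mem_ball, dist_eq_norm] at hz
    rw [mem_ball_zero_iff]
    simp only [hφ]
    rw [norm_div, Complex.norm_real, Real.norm_eq_abs, abs_of_pos hz₀, div_lt_one hz₀]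
    exact hz
  have han : ∀ z ∈ ball z₀ z₀.im, AnalyticAt ℂ φ z := by
    intro z _
    simp only [hφ]
    fun_prop (disch := exact hne)
  have h2 := SuperHarm.comp h1 han hmaps
  have h3 : ((fun ζ => -v (C.u (ofComplex (z₀ + z₀.im * ζ)))) ∘ φ)
      = fun z => -v (C.u (ofComplex z)) := by
    ext z
    simp only [Function.comp, hφ]
    rw [mul_div_cancel₀ _ hne, add_sub_cancel]
  rw [h3] at h2
  exact h2 z₀ (mem_ball_self hz₀)

theorem const_on_curve {v : S → ℝ} (hv : IsPSH 𝕄 v) (hneg : ∀ s, v s < 0)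
    (hm : ∀ γ : Γ, ∃ m : ℝ, ∀ s, v (γ • s) = m * v s) (C : HypCurve 𝕄 S Γ) (z w : ℍ) :
    v (C.u z) = v (C.u w) := by
  choose m hm using hm
  have := C.countable
  have hc : Continuous C.u := C.holomorphic.continuous
  have h := liouville C.fundamental C.finite_area (f := fun z => -v (C.u z))
    (hv.continuous.comp hc).neg (fun z => by have := hneg (C.u z); linarith)
    (superHarmH_curve hv C) (m := fun δ => m (C.α δ))
    (fun δ z => by rw [C.equivariant, hm]; ring) z w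
  linarith

/-- A connected base with enough curves of finite hyperbolic area has the Liouville property. -/
theorem isLiouville_of_curves [PreconnectedSpace S] (h : HasCurves 𝕄 S Γ) : IsLiouville 𝕄 S Γ := by
  intro v hv hneg hm
  have hloc : IsLocallyConstant v := by
    rw [IsLocallyConstant.iff_eventually_eq]
    intro s
    filter_upwards [h s] with t ht
    obtain ⟨C, ⟨z, hz⟩, ⟨w, hw⟩⟩ := ht
    rw [← hz, ← hw]
    exact const_on_curve hv hneg hm C w z
  exact fun s t => hloc.apply_eq_of_preconnectedSpace s t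

end Pool.Agent.H25.GW
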