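import Mathlib

/-!
# Second order directional calculus on the complex plane
-/

open Filter Topology

namespace Pool.Agent.H25.GW

section Real

variable {X : Type*} [NormedAddCommGroup X] [NormedSpace ℝ X]
  {X' : Type*} [NormedAddCommGroup X'] [NormedSpace ℝ X']

/-- derivative in the direction `v` -/
noncomputable def dd (v : ℂ) (T : ℂ → X) (z : ℂ) : X := fderiv ℝ T z v

/-- second derivative in the direction `v` -/
noncomputable def d2 (v : ℂ) (T : ℂ → X) (z : ℂ) : X := dd v (dd v T) z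

/-- the Laplacian -/
noncomputable def lap (T : ℂ → X) (z : ℂ) : X := d2 1 T z + d2 Complex.I T z

variable {T T₁ T₂ : ℂ → X} {z : ℂ} {v : ℂ}

theorem dd_congr (h : T₁ =ᶠ[𝓝 z] T₂) : dd v T₁ z = dd v T₂ z := by
  unfold dd
  rw [h.fderiv_eq]

theorem dd_congr_nhds (h : T₁ =ᶠ[𝓝 z] T₂) : dd v T₁ =ᶠ[𝓝 z] dd v T₂ := by
  filter_upwards [h.eventuallyEq_nhds] with y hy
  exact dd_congr hy

theorem d2_congr (h : T₁ =ᶠ[𝓝 z] T₂) : d2 v T₁ z = d2 v T₂ z :=
  dd_congr (dd_congr_nhds h)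

theorem lap_congr (h : T₁ =ᶠ[𝓝 z] T₂) : lap T₁ z = lap T₂ z := by
  unfold lap
  rw [d2_congr h, d2_congr h]

theorem ev_diff (h : ContDiffAt ℝ 2 T z) : ∀ᶠ y in 𝓝 z, DifferentiableAt ℝ T y := by
  filter_upwards [h.eventually (by simp)] with y hy
  exact hy.differentiableAt (by norm_num)

theorem diff_of (h : ContDiffAt ℝ 2 T z) : DifferentiableAt ℝ T z :=
  h.differentiableAt (by norm_num)

theorem contDiffAt_dd (h : ContDiffAt ℝ 2 T z) : ContDiffAt ℝ 1 (dd v T) z :=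
  (h.fderiv_right (m := 1) (by norm_num)).clm_apply contDiffAt_const

theorem diff_dd (h : ContDiffAt ℝ 2 T z) : DifferentiableAt ℝ (dd v T) z :=
  (contDiffAt_dd h).differentiableAt (by norm_num)

theorem dd_const (c : X) : dd v (fun _ => c) z = 0 := by
  unfold dd
  simp

theorem dd_const_fun (c : X) : dd v (fun _ : ℂ => c) = fun _ => 0 := by
  ext1 y
  exact dd_const c

theorem d2_const (c : X) : d2 v (fun _ => c) z = 0 := by
  unfold d2
  rw [dd_const_fun, dd_const]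

theorem dd_add (h1 : DifferentiableAt ℝ T₁ z) (h2 : DifferentiableAt ℝ T₂ z) :
    dd v (fun y => T₁ y + T₂ y) z = dd v T₁ z + dd v T₂ z := by
  unfold dd
  rw [fderiv_fun_add h1 h2]
  rfl

theorem d2_add (h1 : ContDiffAt ℝ 2 T₁ z) (h2 : ContDiffAt ℝ 2 T₂ z) :
    d2 v (fun y => T₁ y + T₂ y) z = d2 v T₁ z + d2 v T₂ z := by
  unfold d2
  have : dd v (fun y => T₁ y + T₂ y) =ᶠ[𝓝 z] fun y => dd v T₁ y + dd v T₂ y := by
    filter_upwards [ev_diff h1, ev_diff h2] with y hy1 hy2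
    exact dd_add hy1 hy2
  rw [dd_congr this, dd_add (diff_dd h1) (diff_dd h2)]

theorem dd_sub (h1 : DifferentiableAt ℝ T₁ z) (h2 : DifferentiableAt ℝ T₂ z) :
    dd v (fun y => T₁ y - T₂ y) z = dd v T₁ z - dd v T₂ z := by
  unfold dd
  rw [fderiv_fun_sub h1 h2]
  rfl

theorem d2_sub (h1 : ContDiffAt ℝ 2 T₁ z) (h2 : ContDiffAt ℝ 2 T₂ z) :
    d2 v (fun y => T₁ y - T₂ y) z = d2 v T₁ z - d2 v T₂ z := by
  unfold d2
  have : dd v (fun y => T₁ y - T₂ y) =ᶠ[𝓝 z] fun y => dd v T₁ y - dd v T₂ y := by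
    filter_upwards [ev_diff h1, ev_diff h2] with y hy1 hy2
    exact dd_sub hy1 hy2
  rw [dd_congr this, dd_sub (diff_dd h1) (diff_dd h2)]

theorem dd_sum {ι : Type*} (s : Finset ι) {A : ι → ℂ → X}
    (h : ∀ i ∈ s, DifferentiableAt ℝ (A i) z) :
    dd v (fun y => ∑ i ∈ s, A i y) z = ∑ i ∈ s, dd v (A i) z := by
  unfold dd
  rw [fderiv_fun_sum h]
  simp

theorem d2_sum {ι : Type*} (s : Finset ι) {A : ι → ℂ → X}
    (h : ∀ i ∈ s, ContDiffAt ℝ 2 (A i) z) :
    d2 v (fun y => ∑ i ∈ s, A i y) z = ∑ i ∈ s, d2 v (A i) z := by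
  unfold d2
  have : dd v (fun y => ∑ i ∈ s, A i y) =ᶠ[𝓝 z] fun y => ∑ i ∈ s, dd v (A i) y := by
    have h2 : ∀ᶠ y in 𝓝 z, ∀ i ∈ s, DifferentiableAt ℝ (A i) y := by
      rw [Filter.eventually_all_finset]
      intro i hi
      exact ev_diff (h i hi)
    filter_upwards [h2] with y hy
    exact dd_sum s hy
  rw [dd_congr this, dd_sum s fun i hi => diff_dd (h i hi)]

theorem dd_clm (L : X →L[ℝ] X') (h : DifferentiableAt ℝ T z) :
    dd v (fun y => L (T y)) z = L (dd v T z) := by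
  unfold dd
  have := (L.hasFDerivAt.comp z h.hasFDerivAt).fderiv
  have h2 : (fun y => L (T y)) = L ∘ T := rfl
  rw [h2, this]
  rfl

theorem d2_clm (L : X →L[ℝ] X') (h : ContDiffAt ℝ 2 T z) :
    d2 v (fun y => L (T y)) z = L (d2 v T z) := by
  unfold d2
  have : dd v (fun y => L (T y)) =ᶠ[𝓝 z] fun y => L (dd v T y) := by
    filter_upwards [ev_diff h] with y hy
    exact dd_clm L hy
  rw [dd_congr this, dd_clm L (diff_dd h)]

variable {𝒜 : Type*} [NormedRing 𝒜] [NormedAlgebra ℝ 𝒜] {A B : ℂ → 𝒜}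

theorem dd_mul (h1 : DifferentiableAt ℝ A z) (h2 : DifferentiableAt ℝ B z) :
    dd v (fun y => A y * B y) z = dd v A z * B z + A z * dd v B z := by
  unfold dd
  rw [fderiv_fun_mul' h1 h2]
  simp [add_comm]

theorem d2_mul (h1 : ContDiffAt ℝ 2 A z) (h2 : ContDiffAt ℝ 2 B z) :
    d2 v (fun y => A y * B y) z =
      d2 v A z * B z + A z * d2 v B z + (2 : ℝ) • (dd v A z * dd v B z) := by
  unfold d2
  have : dd v (fun y => A y * B y) =ᶠ[𝓝 z] fun y => dd v A y * B y + A y * dd v B y := by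
    filter_upwards [ev_diff h1, ev_diff h2] with y hy1 hy2
    exact dd_mul hy1 hy2
  have e1 : DifferentiableAt ℝ (fun y => dd v A y * B y) z := (diff_dd h1).mul (diff_of h2)
  have e2 : DifferentiableAt ℝ (fun y => A y * dd v B y) z := (diff_of h1).mul (diff_dd h2)
  rw [dd_congr this, dd_add e1 e2,
    dd_mul (diff_dd h1) (diff_of h2), dd_mul (diff_of h1) (diff_dd h2), two_smul]
  abel

end Real

section Complex

variable {X : Type*} [NormedAddCommGroup X] [NormedSpace ℂ X] {g : ℂ → X} {z v : ℂ}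

theorem dd_holo (h : DifferentiableAt ℂ g z) : dd v g z = v • deriv g z := by
  unfold dd
  have h2 : HasFDerivAt g ((ContinuousLinearMap.toSpanSingleton ℂ (deriv g z)).restrictScalars ℝ)
      z := h.hasDerivAt.hasFDerivAt.restrictScalars ℝ
  rw [h2.fderiv]
  simp

theorem lap_holo [CompleteSpace X] (h : ∀ᶠ y in 𝓝 z, DifferentiableAt ℂ g y) : lap g z = 0 := by
  have h1 : ∀ v : ℂ, d2 v g z = v • v • deriv (deriv g) z := by
    intro v
    unfold d2
    have h3 : dd v g =ᶠ[𝓝 z] fun y => v • deriv g y := by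
      filter_upwards [h] with y hy
      exact dd_holo hy
    obtain ⟨s, hs, hs2, hs3⟩ := eventually_nhds_iff.1 h
    have h4 : DifferentiableOn ℂ g s := fun y hy => (hs y hy).differentiableWithinAt
    have h5 : DifferentiableAt ℂ (deriv g) z := (h4.deriv hs2).differentiableAt (hs2.mem_nhds hs3)
    have h6 : DifferentiableAt ℂ (fun y => v • deriv g y) z := h5.const_smul v
    rw [dd_congr h3, dd_holo h6, deriv_fun_const_smul _ h5]
  unfold lap
  rw [h1, h1, smul_smul, smul_smul, Complex.I_mul_I]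
  simp

theorem contDiffAt_holo [CompleteSpace X] (h : ∀ᶠ y in 𝓝 z, DifferentiableAt ℂ g y)
    {n : WithTop ℕ∞} (hn : n ≤ ((⊤ : ℕ∞) : WithTop ℕ∞)) :
    ContDiffAt ℝ n g z := by
  obtain ⟨s, hs, hs2, hs3⟩ := eventually_nhds_iff.1 h
  have h4 : DifferentiableOn ℂ g s := fun y hy => (hs y hy).differentiableWithinAt
  have h5 : ContDiffAt ℂ ((⊤ : ℕ∞) : WithTop ℕ∞) g z := (h4.contDiffOn hs2).contDiffAt
    (hs2.mem_nhds hs3)
  exact (h5.restrict_scalars ℝ).of_le hn

end Complex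

end Pool.Agent.H25.GW
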