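import Mathlib
import Pool.Agent.H25.GW.Calc

/-!
# Second order expansion of a determinant
-/

open Filter Topology
open scoped Matrix.Norms.Operator

namespace Pool.Agent.H25.GW

variable {m : Type*} [Fintype m]

/-- entry of a matrix as a continuous linear map -/
noncomputable def entryL (i j : m) : Matrix m m ℂ →L[ℂ] ℂ :=
  LinearMap.toContinuousLinearMap (Matrix.entryLinearMap ℂ ℂ i j)

theorem entryL_apply (i j : m) (M : Matrix m m ℂ) : entryL i j M = M i j := rfl

variable [DecidableEq m]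

theorem contDiff_det {n : WithTop ℕ∞} : ContDiff ℂ n (fun M : Matrix m m ℂ => M.det) := by
  have : (fun M : Matrix m m ℂ => M.det) = fun M =>
      ∑ σ : Equiv.Perm m, ((Equiv.Perm.sign σ : ℤ) : ℂ) * ∏ i, entryL (σ i) i M := by
    funext M
    rw [Matrix.det_apply']
    rfl
  rw [this]
  refine ContDiff.sum fun σ _ => contDiff_const.mul (contDiff_prod fun i _ => ?_)
  exact (entryL (σ i) i).contDiff

theorem exists_hasFDerivAt_det (X : Matrix m m ℂ) :
    ∃ L : Matrix m m ℂ →L[ℂ] ℂ, HasFDerivAt (fun M : Matrix m m ℂ => M.det) L X :=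
  ⟨_, (contDiff_det.differentiable (n := 1) (by norm_num)).differentiableAt.hasFDerivAt⟩

theorem hasFDerivAt_det_one :
    ∃ L : Matrix m m ℂ →L[ℂ] ℂ, HasFDerivAt (fun M : Matrix m m ℂ => M.det) L 1 ∧
      ∀ M, L M = M.trace := by
  obtain ⟨L, hL⟩ := exists_hasFDerivAt_det (1 : Matrix m m ℂ)
  refine ⟨L, hL, fun M => ?_⟩
  have h1 : HasDerivAt (fun r : ℂ => (1 : Matrix m m ℂ) + r • M) M 0 := by
    have h := ((hasDerivAt_id (0 : ℂ)).smul_const M).const_add (1 : Matrix m m ℂ)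
    rw [one_smul] at h
    exact h
  have h0 : (1 : Matrix m m ℂ) + (0 : ℂ) • M = 1 := by simp
  have h2 : HasDerivAt (fun r : ℂ => ((1 : Matrix m m ℂ) + r • M).det) (L M) 0 := by
    rw [← h0] at hL
    exact hL.comp_hasDerivAt 0 h1
  have h5 : HasDerivAt (fun r : ℂ => ((1 : Matrix m m ℂ) + r • M).det) M.trace 0 := by
    set p : Polynomial ℂ := (1 + (Polynomial.X : Polynomial ℂ) • M.map Polynomial.C).det.divX.divX
      with hp
    have h6 : (fun r : ℂ => ((1 : Matrix m m ℂ) + r • M).det) = fun r =>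
      (1 + M.trace * r) + (Polynomial.eval r p) * r ^ 2 := by
      funext r
      exact Matrix.det_one_add_smul r M
    rw [h6]
    have h7 : HasDerivAt (fun r : ℂ => 1 + M.trace * r) (M.trace * 1) 0 :=
      ((hasDerivAt_id (0 : ℂ)).const_mul M.trace).const_add 1
    have h8 : HasDerivAt (fun r : ℂ => (Polynomial.eval r p) * r ^ 2)
        (Polynomial.eval 0 (Polynomial.derivative p) * (0 : ℂ) ^ 2 +
          Polynomial.eval 0 p * ((2 : ℕ) * (0 : ℂ) ^ (2 - 1))) 0 :=
      (Polynomial.hasDerivAt p (0 : ℂ)).mul (hasDerivAt_pow 2 (0 : ℂ))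
    have h9 := h7.add h8
    have h10 : M.trace * 1 + (Polynomial.eval 0 (Polynomial.derivative p) * (0 : ℂ) ^ 2 +
          Polynomial.eval 0 p * ((2 : ℕ) * (0 : ℂ) ^ (2 - 1))) = M.trace := by
      norm_num
    rw [h10] at h9
    exact h9
  exact h2.unique h5

theorem hasFDerivAt_det {X : Matrix m m ℂ} (hX : IsUnit X) :
    ∃ L : Matrix m m ℂ →L[ℂ] ℂ, HasFDerivAt (fun M : Matrix m m ℂ => M.det) L X ∧
      ∀ M, L M = X.det * (X⁻¹ * M).trace := by
  have hdet : IsUnit X.det := (Matrix.isUnit_iff_isUnit_det X).1 hX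
  obtain ⟨L, hL, hL2⟩ := hasFDerivAt_det_one (m := m)
  have h2 : X⁻¹ * X = 1 := Matrix.nonsing_inv_mul X hdet
  set K : Matrix m m ℂ →L[ℂ] Matrix m m ℂ :=
    LinearMap.toContinuousLinearMap (LinearMap.mulLeft ℂ X⁻¹) with hK
  have hK2 : HasFDerivAt (fun Y : Matrix m m ℂ => X⁻¹ * Y) K X := K.hasFDerivAt
  rw [← h2] at hL
  have h4 := (hL.comp X hK2).const_mul X.det
  refine ⟨_, h4.congr_of_eventuallyEq (Filter.Eventually.of_forall fun Y => ?_), fun M => ?_⟩
  · show Y.det = X.det * (X⁻¹ * Y).det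
    rw [← Matrix.det_mul, ← mul_assoc, Matrix.mul_nonsing_inv X hdet, one_mul]
  · show X.det * L (K M) = _
    rw [hL2]
    rfl

variable {G : ℂ → Matrix m m ℂ} {z v : ℂ}

theorem dd_det (h : DifferentiableAt ℝ G z) (hu : IsUnit (G z)) :
    dd v (fun y => (G y).det) z = (G z).det * ((G z)⁻¹ * dd v G z).trace := by
  obtain ⟨L, hL, hL2⟩ := hasFDerivAt_det hu
  have h1 := (hL.restrictScalars ℝ).comp z h.hasFDerivAt
  unfold dd
  have h2 : (fun y => (G y).det) = (fun M : Matrix m m ℂ => M.det) ∘ G := rfl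
  rw [h2, h1.fderiv]
  exact hL2 _

/-- the trace as a real continuous linear map -/
noncomputable def traceL : Matrix m m ℂ →L[ℝ] ℂ :=
  (LinearMap.toContinuousLinearMap (Matrix.traceLinearMap m ℂ ℂ)).restrictScalars ℝ

theorem traceL_apply (M : Matrix m m ℂ) : traceL M = M.trace := rfl

theorem dd_inv_one (h : DifferentiableAt ℝ G z) (h1 : G z = 1) :
    dd v (fun y => (G y)⁻¹) z = - dd v G z := by
  have h2 := hasFDerivAt_ringInverse (𝕜 := ℝ) (1 : (Matrix m m ℂ)ˣ)
  have h3 : ((1 : (Matrix m m ℂ)ˣ) : Matrix m m ℂ) = G z := by rw [h1]; rfl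
  rw [h3] at h2
  have h4 := h2.comp z h.hasFDerivAt
  have h5 : (fun y => (G y)⁻¹) = Ring.inverse ∘ G := by
    funext y
    exact Matrix.nonsing_inv_eq_ringInverse (G y)
  unfold dd
  rw [h5, h4.fderiv]
  simp
  rfl

theorem diff_inv_one (h : DifferentiableAt ℝ G z) (h1 : G z = 1) :
    DifferentiableAt ℝ (fun y => (G y)⁻¹) z := by
  have h2 := hasFDerivAt_ringInverse (𝕜 := ℝ) (1 : (Matrix m m ℂ)ˣ)
  have h3 : ((1 : (Matrix m m ℂ)ˣ) : Matrix m m ℂ) = G z := by rw [h1]; rfl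
  rw [h3] at h2
  have h4 := h2.comp z h.hasFDerivAt
  have h5 : (fun y => (G y)⁻¹) = Ring.inverse ∘ G := by
    funext y
    exact Matrix.nonsing_inv_eq_ringInverse (G y)
  rw [h5]
  exact h4.differentiableAt

theorem d2_det (h : ContDiffAt ℝ 2 G z) (h1 : G z = 1) :
    d2 v (fun y => (G y).det) z = (dd v G z).trace ^ 2 - (dd v G z * dd v G z).trace
      + (d2 v G z).trace := by
  have hu : ∀ᶠ y in 𝓝 z, IsUnit (G y) := by
    apply h.continuousAt.eventually
    rw [h1]
    exact Units.isOpen.eventually_mem isUnit_one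
  have h2 : dd v (fun y => (G y).det) =ᶠ[𝓝 z]
      fun y => (G y).det * traceL ((G y)⁻¹ * dd v G y) := by
    filter_upwards [hu, ev_diff h] with y hy1 hy2
    exact dd_det hy2 hy1
  have hz := diff_of h
  have hdetd : DifferentiableAt ℝ (fun y => (G y).det) z := by
    obtain ⟨L, hL, hL2⟩ := hasFDerivAt_det hu.self_of_nhds
    exact ((hL.restrictScalars ℝ).comp z hz.hasFDerivAt).differentiableAt
  have hinv := diff_inv_one hz h1
  have hprod : DifferentiableAt ℝ (fun y => (G y)⁻¹ * dd v G y) z := hinv.mul (diff_dd h)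
  have htr : DifferentiableAt ℝ (fun y => traceL ((G y)⁻¹ * dd v G y)) z :=
    traceL.differentiableAt.comp z hprod
  have e1 : dd v (fun y => traceL ((G y)⁻¹ * dd v G y)) z =
      traceL (dd v (fun y => (G y)⁻¹ * dd v G y) z) := dd_clm traceL hprod
  have e2 : dd v (fun y => (G y)⁻¹ * dd v G y) z =
      dd v (fun y => (G y)⁻¹) z * dd v G z + (G z)⁻¹ * dd v (dd v G) z :=
    dd_mul hinv (diff_dd h)
  unfold d2
  rw [dd_congr h2, dd_mul hdetd htr, e1, e2, dd_inv_one hz h1, dd_det hz hu.self_of_nhds, h1]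
  simp only [Matrix.det_one, inv_one, one_mul, traceL_apply, Matrix.trace_add, neg_mul,
    Matrix.trace_neg]
  ring

end Pool.Agent.H25.GW
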