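import Mathlib
import Pool.Agent.H25.GW.Calc

/-!
# Second order variation of the projections onto a holomorphic family of subspaces

Everything takes place in a `C⋆`-algebra; `c` is a self-adjoint unitary, which defines the
indefinite adjoint `dag T = c * star T * c`.
-/

open Filter Topology ComplexConjugate

namespace Pool.Agent.H25.GW

variable {𝒜 : Type*} [CStarAlgebra 𝒜]

/-- the adjoint with respect to the indefinite form given by `c` -/
def dag (c T : 𝒜) : 𝒜 := c * star T * c

section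

variable {c : 𝒜} (hc : c * c = 1) (hcs : star c = c)

include hc hcs in
theorem dag_dag (T : 𝒜) : dag c (dag c T) = T := by
  unfold dag
  rw [star_mul, star_mul, star_star, hcs]
  calc c * (c * (T * c)) * c = (c * c) * T * (c * c) := by noncomm_ring
    _ = T := by rw [hc, one_mul, mul_one]

include hc in
theorem dag_mul (A B : 𝒜) : dag c (A * B) = dag c B * dag c A := by
  unfold dag
  rw [star_mul]
  calc c * (star B * star A) * c = c * star B * 1 * star A * c := by noncomm_ring
    _ = c * star B * (c * c) * star A * c := by rw [hc]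
    _ = c * star B * c * (c * star A * c) := by noncomm_ring

theorem dag_add (A B : 𝒜) : dag c (A + B) = dag c A + dag c B := by
  unfold dag
  rw [star_add, mul_add, add_mul]

theorem dag_sub (A B : 𝒜) : dag c (A - B) = dag c A - dag c B := by
  unfold dag
  rw [star_sub, mul_sub, sub_mul]

theorem dag_smul (r : ℂ) (A : 𝒜) : dag c (r • A) = conj r • dag c A := by
  unfold dag
  rw [star_smul, mul_smul_comm, smul_mul_assoc]
  rfl

include hc in
theorem dag_one : dag c (1 : 𝒜) = 1 := by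
  unfold dag
  rw [star_one, mul_one, hc]

/-- `dag` as a real continuous linear map -/
noncomputable def dagL (c : 𝒜) : 𝒜 →L[ℝ] 𝒜 :=
  (ContinuousLinearMap.mulLeftRight ℝ 𝒜 c c).comp ((starL' ℝ : 𝒜 ≃L[ℝ] 𝒜) : 𝒜 →L[ℝ] 𝒜)

theorem dagL_apply (c T : 𝒜) : dagL c T = dag c T := rfl

/-- the compression -/
noncomputable def cm (c q T : 𝒜) : 𝒜 := q * dag c T * T * q + (1 - q)

/-- the projection onto the image of `T * q`, self-adjoint with respect to `c` -/
noncomputable def phi (c q T : 𝒜) : 𝒜 := T * q * Ring.inverse (cm c q T) * q * dag c T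

variable {q : 𝒜} (hq : q * q = q) (hqc : dag c q = q)

include hq in
theorem cm_mul_q (T : 𝒜) : cm c q T * q = q * dag c T * T * q := by
  unfold cm
  rw [add_mul, sub_mul, one_mul, hq, sub_self, add_zero, mul_assoc, hq]

include hq in
theorem q_mul_cm (T : 𝒜) : q * cm c q T = q * dag c T * T * q := by
  unfold cm
  rw [mul_add, mul_sub, mul_one, hq, sub_self, add_zero, ← mul_assoc, ← mul_assoc, ← mul_assoc, hq]

include hq in
theorem q_comm_inv (T : 𝒜) (hu : IsUnit (cm c q T)) :
    q * Ring.inverse (cm c q T) = Ring.inverse (cm c q T) * q := by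
  obtain ⟨u, hu⟩ := hu
  have h1 : q * (u : 𝒜) = u * q := by rw [hu, q_mul_cm hq, cm_mul_q hq]
  rw [← hu, Ring.inverse_unit]
  calc q * ↑u⁻¹ = (↑u⁻¹ * ↑u) * q * ↑u⁻¹ := by rw [Units.inv_mul, one_mul]
    _ = ↑u⁻¹ * (q * ↑u) * ↑u⁻¹ := by rw [h1]; noncomm_ring
    _ = ↑u⁻¹ * q * (↑u * ↑u⁻¹) := by noncomm_ring
    _ = ↑u⁻¹ * q := by rw [Units.mul_inv, mul_one]

include hq in
theorem phi_mul (T : 𝒜) (hu : IsUnit (cm c q T)) : phi c q T * (T * q) = T * q := by
  unfold phi
  calc T * q * Ring.inverse (cm c q T) * q * dag c T * (T * q)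
      = T * (q * Ring.inverse (cm c q T)) * (q * dag c T * T * q) := by noncomm_ring
    _ = T * (Ring.inverse (cm c q T) * q) * (q * cm c q T) := by
        rw [q_comm_inv hq T hu, q_mul_cm hq]
    _ = T * (Ring.inverse (cm c q T) * (q * q * cm c q T)) := by noncomm_ring
    _ = T * (Ring.inverse (cm c q T) * (cm c q T * q)) := by
        rw [hq, q_mul_cm hq, cm_mul_q hq]
    _ = T * ((Ring.inverse (cm c q T) * cm c q T) * q) := by noncomm_ring
    _ = T * q := by rw [Ring.inverse_mul_cancel _ hu, one_mul]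

include hq in
theorem phi_idem (T : 𝒜) (hu : IsUnit (cm c q T)) : phi c q T * phi c q T = phi c q T := by
  nth_rewrite 2 [phi]
  calc phi c q T * (T * q * Ring.inverse (cm c q T) * q * dag c T)
      = phi c q T * (T * q) * (Ring.inverse (cm c q T) * q * dag c T) := by noncomm_ring
    _ = T * q * (Ring.inverse (cm c q T) * q * dag c T) := by rw [phi_mul hq T hu]
    _ = phi c q T := by
        unfold phi
        simp only [mul_assoc]

include hc hcs hqc in
theorem dag_cm (T : 𝒜) : dag c (cm c q T) = cm c q T := by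
  unfold cm
  rw [dag_add, dag_sub, dag_one hc, hqc, dag_mul hc, dag_mul hc, dag_mul hc, dag_dag hc hcs, hqc]
  noncomm_ring

include hc hcs hqc in
theorem dag_inv (T : 𝒜) (hu : IsUnit (cm c q T)) :
    dag c (Ring.inverse (cm c q T)) = Ring.inverse (cm c q T) := by
  have h1 : dag c (Ring.inverse (cm c q T)) * cm c q T = 1 := by
    nth_rewrite 2 [← dag_cm hc hcs hqc T]
    rw [← dag_mul hc, Ring.mul_inverse_cancel _ hu, dag_one hc]
  calc dag c (Ring.inverse (cm c q T))
      = dag c (Ring.inverse (cm c q T)) * (cm c q T * Ring.inverse (cm c q T)) := by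
        rw [Ring.mul_inverse_cancel _ hu, mul_one]
    _ = Ring.inverse (cm c q T) := by rw [← mul_assoc, h1, one_mul]

include hc hcs hqc in
theorem dag_phi (T : 𝒜) (hu : IsUnit (cm c q T)) : dag c (phi c q T) = phi c q T := by
  unfold phi
  rw [dag_mul hc, dag_mul hc, dag_mul hc, dag_mul hc, dag_dag hc hcs, hqc, dag_inv hc hcs hqc T hu]
  noncomm_ring

include hc hq in
theorem cm_one : cm c q (1 : 𝒜) = 1 := by
  unfold cm
  rw [dag_one hc, mul_one, mul_one, hq, add_sub_cancel]

include hc hq in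
theorem phi_one : phi c q (1 : 𝒜) = q := by
  unfold phi
  rw [cm_one hc hq, Ring.inverse_one, dag_one hc, one_mul, mul_one, mul_one, hq]

end

section Deriv

theorem I_smul_aux (θ δ : 𝒜) :
    Complex.I • θ + conj Complex.I • δ = Complex.I • (θ - δ) := by
  rw [Complex.conj_I, neg_smul, smul_sub, sub_eq_add_neg]

theorem one_smul_aux (θ δ : 𝒜) : (1 : ℂ) • θ + conj (1 : ℂ) • δ = θ + δ := by
  rw [map_one, one_smul, one_smul]

theorem calc_aux1 (θ δ x : 𝒜) : ((1 : ℂ) • θ + conj (1 : ℂ) • δ) * ((1 : ℂ) • x) +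
      (Complex.I • θ + conj Complex.I • δ) * (Complex.I • x) = (2 : ℝ) • (δ * x) := by
  rw [I_smul_aux, one_smul_aux, smul_mul_smul_comm, Complex.I_mul_I, neg_one_smul, one_smul,
    two_smul, add_mul, sub_mul]
  abel

theorem calc_aux2 (θ δ : 𝒜) : ((1 : ℂ) • θ + conj (1 : ℂ) • δ) * ((1 : ℂ) • θ + conj (1 : ℂ) • δ) +
      (Complex.I • θ + conj Complex.I • δ) * (Complex.I • θ + conj Complex.I • δ) =
      (2 : ℝ) • (θ * δ + δ * θ) := by
  rw [I_smul_aux, one_smul_aux, smul_mul_smul_comm, Complex.I_mul_I, neg_one_smul, two_smul,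
    add_mul, sub_mul, mul_add, mul_sub, mul_add, mul_sub]
  abel

theorem four_smul_aux (x : 𝒜) : (4 : ℝ) • x = (2 : ℝ) • ((2 : ℝ) • x) := by
  rw [smul_smul]; norm_num

variable {c q : 𝒜} (hc : c * c = 1) (hcs : star c = c) (hq : q * q = q) (hqc : dag c q = q)
  {g : ℂ → 𝒜} {z₀ : ℂ}

include hc hq in
theorem contDiffAt_phi {D : Type*} [NormedAddCommGroup D] [NormedSpace ℝ D] {g : D → 𝒜} {z₀ : D}
    {n : WithTop ℕ∞} (hg : ContDiffAt ℝ n g z₀) (h1 : g z₀ = 1) :
    ContDiffAt ℝ n (fun z => phi c q (g z)) z₀ := by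
  have hd : ContDiffAt ℝ n (fun z => dag c (g z)) z₀ := (dagL c).contDiff.contDiffAt.comp z₀ hg
  have hm : ContDiffAt ℝ n (fun z => cm c q (g z)) z₀ := by
    unfold cm
    exact (((contDiffAt_const.mul hd).mul hg).mul contDiffAt_const).add contDiffAt_const
  have hi : ContDiffAt ℝ n (fun z => Ring.inverse (cm c q (g z))) z₀ := by
    have h2 : cm c q (g z₀) = ((1 : 𝒜ˣ) : 𝒜) := by rw [h1, cm_one hc hq]; rfl
    have h3 := contDiffAt_ringInverse ℝ (n := n) (1 : 𝒜ˣ)
    rw [← h2] at h3
    exact h3.comp z₀ hm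
  unfold phi
  exact (((hg.mul contDiffAt_const).mul hi).mul contDiffAt_const).mul hd

include hc hq in
theorem ev_unit {D : Type*} [TopologicalSpace D] {g : D → 𝒜} {z₀ : D}
    (hg : ContinuousAt g z₀) (h1 : g z₀ = 1) :
    ∀ᶠ z in 𝓝 z₀, IsUnit (cm c q (g z)) := by
  have hd : ContinuousAt (fun z => dag c (g z)) z₀ := (dagL c).continuous.continuousAt.comp hg
  have hm : ContinuousAt (fun z => cm c q (g z)) z₀ := by
    unfold cm
    exact (((continuousAt_const.mul hd).mul hg).mul continuousAt_const).add continuousAt_const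
  have h2 : IsUnit (cm c q (g z₀)) := by rw [h1, cm_one hc hq]; exact isUnit_one
  exact hm.eventually (Units.isOpen.eventually_mem h2)

include hc hcs hq hqc in
/-- first and second variation -/
theorem phi_variation (hg : ∀ᶠ z in 𝓝 z₀, DifferentiableAt ℂ g z) (h1 : g z₀ = 1) :
    (∀ v : ℂ, dd v (fun z => phi c q (g z)) z₀ =
      v • ((1 - q) * deriv g z₀ * q) + conj v • dag c ((1 - q) * deriv g z₀ * q)) ∧
    lap (fun z => phi c q (g z)) z₀ =
      (4 : ℝ) • (((1 - q) * deriv g z₀ * q) * dag c ((1 - q) * deriv g z₀ * q) -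
        dag c ((1 - q) * deriv g z₀ * q) * ((1 - q) * deriv g z₀ * q)) := by
  have hg2 : ContDiffAt ℝ 2 g z₀ := contDiffAt_holo hg (by norm_cast)
  have hP : ContDiffAt ℝ 2 (fun z => phi c q (g z)) z₀ := contDiffAt_phi hc hq hg2 h1
  have hu := ev_unit hc hq hg2.continuousAt h1
  set P : ℂ → 𝒜 := fun z => phi c q (g z) with hPdef
  set θ : 𝒜 := (1 - q) * deriv g z₀ * q with hθ
  set δ : 𝒜 := dag c θ with hδ
  have hP0 : P z₀ = q := by simp only [hPdef]; rw [h1, phi_one hc hq]
  -- relations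
  have r1 : (fun z => P z * (g z * q)) =ᶠ[𝓝 z₀] fun z => g z * q :=
    hu.mono fun z hz => phi_mul hq (g z) hz
  have r2 : (fun z => P z * P z) =ᶠ[𝓝 z₀] P := hu.mono fun z hz => phi_idem hq (g z) hz
  have r3 : (fun z => dagL c (P z)) =ᶠ[𝓝 z₀] P := hu.mono fun z hz => dag_phi hc hcs hqc (g z) hz
  have hgq : ContDiffAt ℝ 2 (fun z => g z * q) z₀ := hg2.mul contDiffAt_const
  have dgq : ∀ v : ℂ, dd v (fun z => g z * q) z₀ = v • (deriv g z₀ * q) := by
    intro v
    rw [dd_mul (diff_of hg2) (differentiableAt_const q), dd_const, mul_zero, add_zero,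
      dd_holo hg.self_of_nhds, smul_mul_assoc]
  have lgq : lap (fun z => g z * q) z₀ = 0 := by
    have : lap (fun z => g z * q) z₀ = lap g z₀ * q := by
      unfold lap
      rw [d2_mul hg2 contDiffAt_const, d2_mul hg2 contDiffAt_const, d2_const, d2_const, dd_const,
        dd_const]
      simp [add_mul]
    rw [this, lap_holo hg, zero_mul]
  have hδq : δ * q = 0 := by
    rw [hδ, hθ, dag_mul hc, dag_mul hc, dag_sub, dag_one hc, hqc]
    have : (1 - q) * q = 0 := by rw [sub_mul, one_mul, hq, sub_self]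
    calc q * (dag c (deriv g z₀) * (1 - q)) * q = q * dag c (deriv g z₀) * ((1 - q) * q) := by
          noncomm_ring
      _ = 0 := by rw [this, mul_zero]
  have hδg : δ * (deriv g z₀ * q) = δ * θ := by
    have : δ * θ = δ * (deriv g z₀ * q) - δ * q * (deriv g z₀ * q) := by
      rw [hθ]; noncomm_ring
    rw [this, hδq, zero_mul, sub_zero]
  have hdd : dag c δ = θ := by rw [hδ, dag_dag hc hcs]
  -- first derivative
  have d1 : ∀ v : ℂ, dd v P z₀ * q = v • θ := by
    intro v
    have h2 := dd_congr (v := v) r1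
    rw [dd_mul (diff_of hP) (diff_of hgq), dgq, hP0, h1, one_mul] at h2
    have h3 : dd v P z₀ * q = v • (deriv g z₀ * q) - q * (v • (deriv g z₀ * q)) :=
      eq_sub_of_add_eq h2
    rw [h3, hθ, mul_smul_comm, ← smul_sub]
    congr 1
    noncomm_ring
  have d1' : ∀ v : ℂ, dag c (dd v P z₀) = dd v P z₀ := by
    intro v
    have h2 := dd_congr (v := v) r3
    rw [dd_clm (dagL c) (diff_of hP)] at h2
    exact h2
  have d1'' : ∀ v : ℂ, q * dd v P z₀ = conj v • δ := by
    intro v
    have h2 : q * dd v P z₀ = dag c (dd v P z₀ * q) := by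
      rw [dag_mul hc, hqc, d1']
    rw [h2, d1, dag_smul]
  have D : ∀ v : ℂ, dd v P z₀ = v • θ + conj v • δ := by
    intro v
    have h2 := dd_congr (v := v) r2
    rw [dd_mul (diff_of hP) (diff_of hP), hP0, d1, d1''] at h2
    exact h2.symm
  refine ⟨D, ?_⟩
  -- second derivative
  have l1 : lap P z₀ * q = -((4 : ℝ) • (δ * θ)) := by
    have h2 := lap_congr r1
    rw [lgq] at h2
    have h3 : lap (fun z => P z * (g z * q)) z₀ = lap P z₀ * q + q * lap (fun z => g z * q) z₀
        + (4 : ℝ) • (δ * θ) := by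
      unfold lap
      rw [d2_mul hP hgq, d2_mul hP hgq, hP0, h1, one_mul, D, D, dgq, dgq,
        four_smul_aux, ← hδg, ← calc_aux1 θ δ (deriv g z₀ * q)]
      generalize ((1 : ℂ) • θ + conj (1 : ℂ) • δ) * ((1 : ℂ) • (deriv g z₀ * q)) = A₁
      generalize (Complex.I • θ + conj Complex.I • δ) * (Complex.I • (deriv g z₀ * q)) = A₂
      rw [smul_add, mul_add, add_mul]
      abel
    rw [h3, lgq, mul_zero, add_zero] at h2
    exact eq_neg_of_add_eq_zero_left h2
  have l1' : dag c (lap P z₀) = lap P z₀ := by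
    have h2 := lap_congr r3
    unfold lap at h2 ⊢
    rw [d2_clm (dagL c) hP, d2_clm (dagL c) hP, ← map_add] at h2
    exact h2
  have l1'' : q * lap P z₀ = -((4 : ℝ) • (δ * θ)) := by
    have h2 : q * lap P z₀ = dag c (lap P z₀ * q) := by
      rw [dag_mul hc, hqc, l1']
    rw [h2, l1]
    have h3 : dag c (-((4 : ℝ) • (δ * θ))) = -((4 : ℝ) • dag c (δ * θ)) := by
      rw [← dagL_apply, map_neg, map_smul, dagL_apply]
    rw [h3, dag_mul hc, hdd, ← hδ]
  have h2 := lap_congr r2
  have h3 : lap (fun z => P z * P z) z₀ = lap P z₀ * q + q * lap P z₀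
      + (4 : ℝ) • (θ * δ + δ * θ) := by
    unfold lap
    rw [d2_mul hP hP, d2_mul hP hP, hP0, D, D, four_smul_aux, ← calc_aux2 θ δ]
    generalize ((1 : ℂ) • θ + conj (1 : ℂ) • δ) * ((1 : ℂ) • θ + conj (1 : ℂ) • δ) = A₁
    generalize (Complex.I • θ + conj Complex.I • δ) * (Complex.I • θ + conj Complex.I • δ) = A₂
    rw [smul_add, mul_add, add_mul]
    abel
  rw [← h2, h3, l1, l1'', smul_sub, smul_add]
  abel

end Deriv

end Pool.Agent.H25.GW
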