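import Mathlib
import Pool.Agent.H25.GW.Local

/-!
# Second order variation of the Hodge metric
-/

open Filter Topology ComplexConjugate

namespace Pool.Agent.H25.GW

theorem sum_Ico_telescope {M : Type*} [AddCommGroup M] (B : ℤ → M) {a b : ℤ} (h : a ≤ b) :
    ∑ p ∈ Finset.Ico a b, (B p - B (p + 1)) = B a - B b := by
  induction b, h using Int.leInduction with
  | base => simp
  | succ n hn ih =>
    rw [← Finset.insert_Ico_right_eq_Ico_add_one hn, Finset.sum_insert (by simp), ih]
    abel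

variable {𝒜 : Type*} [CStarAlgebra 𝒜]

/-- the sign -/
noncomputable def sg (p : ℤ) : ℂ := (-1 : ℂ) ^ p

theorem sg_mul_self (p : ℤ) : sg p * sg p = 1 := by
  unfold sg
  rw [← mul_zpow]
  norm_num

theorem sg_succ (p : ℤ) : sg (p + 1) = - sg p := by
  unfold sg
  rw [zpow_add_one₀ (by norm_num)]
  ring

theorem sg_pred (p : ℤ) : sg (p - 1) = - sg p := by
  have := sg_succ (p - 1)
  rw [sub_add_cancel] at this
  rw [this, neg_neg]

theorem sg_conj (p : ℤ) : conj (sg p) = sg p := by
  unfold sg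
  rw [map_zpow₀]
  simp

/-- A decreasing family of projections. -/
structure PFam (a b : ℤ) (q : ℤ → 𝒜) : Prop where
  hab : a ≤ b
  mul : ∀ p r, q p * q r = q (max p r)
  star : ∀ p, star (q p) = q p
  top : q a = 1
  bot : q b = 0

namespace PFam

/-- graded pieces -/
def e (q : ℤ → 𝒜) (p : ℤ) : 𝒜 := q p - q (p + 1)

/-- the Weil operator -/
noncomputable def c (a b : ℤ) (q : ℤ → 𝒜) : 𝒜 := ∑ p ∈ Finset.Ico a b, sg p • e q p

/-- the grading operator -/
noncomputable def Y (a b : ℤ) (q : ℤ → 𝒜) : 𝒜 :=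
  ∑ p ∈ Finset.Ico a b, ((p - a : ℤ) : ℂ) • e q p

variable {a b : ℤ} {q : ℤ → 𝒜} (h : PFam a b q)

include h

theorem q_le {p : ℤ} (hp : p ≤ a) : q p = 1 := by
  have := h.mul p a
  rw [h.top, mul_one, max_eq_right hp, h.top] at this
  exact this

theorem q_ge {p : ℤ} (hp : b ≤ p) : q p = 0 := by
  have := h.mul p b
  rw [h.bot, mul_zero, max_eq_left hp] at this
  exact this.symm

theorem idem (p : ℤ) : q p * q p = q p := by rw [h.mul, max_self]

theorem e_out {p : ℤ} (hp : p ∉ Finset.Ico a b) : e q p = 0 := by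
  rw [Finset.mem_Ico, not_and_or, not_le, not_lt] at hp
  unfold e
  rcases hp with hp | hp
  · rw [h.q_le hp.le, h.q_le (by omega), sub_self]
  · rw [h.q_ge hp, h.q_ge (by omega), sub_self]

theorem e_mul_e (p r : ℤ) : e q p * e q r = if p = r then e q p else 0 := by
  unfold e
  rw [sub_mul, mul_sub, mul_sub, h.mul, h.mul, h.mul, h.mul]
  split_ifs with hpr
  · subst hpr
    rw [max_self, max_self, max_eq_right (by omega : p ≤ p + 1),
      max_eq_left (by omega : p ≤ p + 1)]
    abel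
  · rcases lt_or_gt_of_ne hpr with h1 | h1
    · rw [max_eq_right (by omega : p ≤ r), max_eq_right (by omega : p ≤ r + 1),
        max_eq_right (by omega : p + 1 ≤ r), max_eq_right (by omega : p + 1 ≤ r + 1)]
      abel
    · rw [max_eq_left (by omega : r ≤ p), max_eq_left (by omega : r + 1 ≤ p),
        max_eq_left (by omega : r ≤ p + 1), max_eq_left (by omega : r + 1 ≤ p + 1)]
      abel

theorem star_e (p : ℤ) : Star.star (e q p) = e q p := by
  unfold e
  rw [star_sub, h.star, h.star]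

theorem sum_e : ∑ p ∈ Finset.Ico a b, e q p = 1 := by
  unfold e
  rw [sum_Ico_telescope _ h.hab, h.top, h.bot, sub_zero]

/-- a diagonal operator times a graded piece -/
theorem diag_mul_e (f : ℤ → ℂ) (p : ℤ) :
    (∑ r ∈ Finset.Ico a b, f r • e q r) * e q p = f p • e q p := by
  rw [Finset.sum_mul]
  by_cases hp : p ∈ Finset.Ico a b
  · rw [Finset.sum_eq_single p]
    · rw [smul_mul_assoc, h.e_mul_e, if_pos rfl]
    · intro r _ hr
      rw [smul_mul_assoc, h.e_mul_e, if_neg hr, smul_zero]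
    · intro h1
      exact absurd hp h1
  · rw [h.e_out hp, smul_zero]
    simp

theorem e_mul_diag (f : ℤ → ℂ) (p : ℤ) :
    e q p * (∑ r ∈ Finset.Ico a b, f r • e q r) = f p • e q p := by
  rw [Finset.mul_sum]
  by_cases hp : p ∈ Finset.Ico a b
  · rw [Finset.sum_eq_single p]
    · rw [mul_smul_comm, h.e_mul_e, if_pos rfl]
    · intro r _ hr
      rw [mul_smul_comm, h.e_mul_e, if_neg (Ne.symm hr), smul_zero]
    · intro h1
      exact absurd hp h1
  · rw [h.e_out hp, smul_zero]
    simp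

theorem c_mul_e (p : ℤ) : c a b q * e q p = sg p • e q p := h.diag_mul_e sg p

theorem e_mul_c (p : ℤ) : e q p * c a b q = sg p • e q p := h.e_mul_diag sg p

theorem Y_mul_e (p : ℤ) : Y a b q * e q p = ((p - a : ℤ) : ℂ) • e q p :=
  h.diag_mul_e (fun p => ((p - a : ℤ) : ℂ)) p

theorem e_mul_Y (p : ℤ) : e q p * Y a b q = ((p - a : ℤ) : ℂ) • e q p :=
  h.e_mul_diag (fun p => ((p - a : ℤ) : ℂ)) p

theorem c_mul_c : c a b q * c a b q = 1 := by
  nth_rewrite 2 [c]
  rw [Finset.mul_sum, ← h.sum_e]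
  refine Finset.sum_congr rfl fun p _ => ?_
  rw [mul_smul_comm, h.c_mul_e, smul_smul, sg_mul_self, one_smul]

theorem star_c : Star.star (c a b q) = c a b q := by
  unfold c
  rw [star_sum]
  refine Finset.sum_congr rfl fun p _ => ?_
  rw [star_smul, h.star_e]
  congr 1
  exact sg_conj p

theorem star_Y : Star.star (Y a b q) = Y a b q := by
  unfold Y
  rw [star_sum]
  refine Finset.sum_congr rfl fun p _ => ?_
  rw [star_smul, h.star_e]
  congr 1
  simp

theorem e_mul_q (p r : ℤ) : e q p * q r = q r * e q p := by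
  unfold e
  rw [sub_mul, mul_sub, h.mul, h.mul, h.mul, h.mul, max_comm r p, max_comm r (p + 1)]

theorem c_comm_q (p : ℤ) : c a b q * q p = q p * c a b q := by
  unfold c
  rw [Finset.sum_mul, Finset.mul_sum]
  refine Finset.sum_congr rfl fun r _ => ?_
  rw [smul_mul_assoc, mul_smul_comm, h.e_mul_q]

theorem dag_q (p : ℤ) : dag (c a b q) (q p) = q p := by
  unfold dag
  rw [h.star, h.c_comm_q, mul_assoc, h.c_mul_c, mul_one]

end PFam

/-- the Hodge metric operator along a holomorphic family -/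
noncomputable def hodgeOp (a b : ℤ) (q : ℤ → 𝒜) (T : 𝒜) : 𝒜 :=
  PFam.c a b q * ∑ p ∈ Finset.Ico a b,
    sg p • (phi (PFam.c a b q) (q p) T - phi (PFam.c a b q) (q (p + 1)) T)

/-- the Higgs field -/
noncomputable def higgs (a b : ℤ) (q : ℤ → 𝒜) (g' : 𝒜) : 𝒜 :=
  ∑ p ∈ Finset.Ico a b, PFam.e q (p - 1) * g' * PFam.e q p

section

variable {a b : ℤ} {q : ℤ → 𝒜} (h : PFam a b q) {g' : 𝒜}
  (hgr : ∀ p, (1 - q (p - 1)) * g' * q p = 0)

include h hgr in
theorem theta_eq (p : ℤ) : (1 - q p) * g' * q p = PFam.e q (p - 1) * g' * PFam.e q p := by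
  have h1 : PFam.e q (p - 1) * q p = 0 := by
    unfold PFam.e
    rw [sub_mul, h.mul, h.mul, sub_add_cancel, max_self, max_eq_right (by omega), sub_self]
  have h2 : PFam.e q (p - 1) * g' * q (p + 1) = 0 := by
    have h3 : PFam.e q (p - 1) * g' * q (p + 1) =
        PFam.e q (p - 1) * ((1 - q (p + 1 - 1)) * g' * q (p + 1)) +
          PFam.e q (p - 1) * q p * g' * q (p + 1) := by
      rw [add_sub_cancel_right]
      noncomm_ring
    rw [h3, hgr, h1]
    simp
  have h4 : (1 - q p) * g' * q p = (1 - q (p - 1)) * g' * q p + PFam.e q (p - 1) * g' * q p := by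
    unfold PFam.e
    rw [sub_add_cancel]
    noncomm_ring
  rw [h4, hgr, zero_add]
  show _ = PFam.e q (p - 1) * g' * (q p - q (p + 1))
  rw [mul_sub, h2, sub_zero]

include h in
theorem dag_theta (p : ℤ) : dag (PFam.c a b q) (PFam.e q (p - 1) * g' * PFam.e q p) =
    - star (PFam.e q (p - 1) * g' * PFam.e q p) := by
  unfold dag
  rw [star_mul, star_mul, h.star_e, h.star_e]
  have : PFam.c a b q * (PFam.e q p * (star g' * PFam.e q (p - 1))) * PFam.c a b q =
      (PFam.c a b q * PFam.e q p) * star g' * (PFam.e q (p - 1) * PFam.c a b q) := by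
    simp only [mul_assoc]
  rw [this, h.c_mul_e, h.e_mul_c, sg_pred]
  simp only [smul_mul_assoc, mul_smul_comm, neg_smul, mul_neg, mul_assoc]
  rw [smul_smul, sg_mul_self, one_smul]

include h in
/-- the alternating sum -/
theorem alt_sum {A : ℤ → 𝒜} (ha : A a = 0) (hb : A b = 0) :
    ∑ p ∈ Finset.Ico a b, sg p • (A p - A (p + 1)) =
      (2 : ℝ) • ∑ p ∈ Finset.Ico a b, sg p • A p := by
  have h1 := sum_Ico_telescope (fun p => sg p • A p) h.hab
  simp only [ha, hb, smul_zero, sub_zero, sg_succ, neg_smul, sub_neg_eq_add] at h1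
  rw [Finset.sum_add_distrib] at h1
  have h2 : ∑ p ∈ Finset.Ico a b, sg p • A (p + 1) = - ∑ p ∈ Finset.Ico a b, sg p • A p :=
    eq_neg_of_add_eq_zero_right h1
  simp only [smul_sub]
  rw [Finset.sum_sub_distrib, h2, sub_neg_eq_add, two_smul]

variable {g : ℂ → 𝒜} {z₀ : ℂ}

include h in
theorem contDiffAt_hodgeOp {D : Type*} [NormedAddCommGroup D] [NormedSpace ℝ D] {g : D → 𝒜}
    {z₀ : D} {n : WithTop ℕ∞} (hg : ContDiffAt ℝ n g z₀) (h1 : g z₀ = 1) :
    ContDiffAt ℝ n (fun z => hodgeOp a b q (g z)) z₀ := by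
  unfold hodgeOp
  refine contDiffAt_const.mul (ContDiffAt.sum fun p _ => ContDiffAt.const_smul _ ?_)
  exact (contDiffAt_phi h.c_mul_c (h.idem p) hg h1).sub
    (contDiffAt_phi h.c_mul_c (h.idem (p + 1)) hg h1)

include h in
theorem hodgeOp_one : hodgeOp a b q 1 = 1 := by
  unfold hodgeOp
  simp only [phi_one h.c_mul_c (h.idem _)]
  exact h.c_mul_c

include h in
theorem e_aux (p : ℤ) (x y : 𝒜) :
    (x * PFam.e q p) * (PFam.e q p * y) = x * PFam.e q p * y := by
  have h2 := h.e_mul_e p p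
  rw [if_pos rfl] at h2
  calc (x * PFam.e q p) * (PFam.e q p * y) = x * (PFam.e q p * PFam.e q p) * y := by noncomm_ring
    _ = _ := by rw [h2]

include h in
theorem higgs_mul_star : higgs a b q g' * star (higgs a b q g') =
    ∑ p ∈ Finset.Ico a b, (PFam.e q (p - 1) * g' * PFam.e q p) *
      star (PFam.e q (p - 1) * g' * PFam.e q p) := by
  unfold higgs
  rw [star_sum, Finset.sum_mul]
  refine Finset.sum_congr rfl fun p hp => ?_
  rw [Finset.mul_sum, Finset.sum_eq_single p]
  · intro r _ hr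
    rw [star_mul, h.star_e]
    have : PFam.e q (p - 1) * g' * PFam.e q p * (PFam.e q r * star (PFam.e q (r - 1) * g')) =
      PFam.e q (p - 1) * g' * (PFam.e q p * PFam.e q r) * star (PFam.e q (r - 1) * g') := by
      noncomm_ring
    rw [this, h.e_mul_e, if_neg (Ne.symm hr)]
    simp
  · intro h1
    exact absurd hp h1

include h in
theorem star_mul_higgs : star (higgs a b q g') * higgs a b q g' =
    ∑ p ∈ Finset.Ico a b, star (PFam.e q (p - 1) * g' * PFam.e q p) *
      (PFam.e q (p - 1) * g' * PFam.e q p) := by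
  unfold higgs
  rw [star_sum, Finset.sum_mul]
  refine Finset.sum_congr rfl fun p hp => ?_
  rw [Finset.mul_sum, Finset.sum_eq_single p]
  · intro r _ hr
    rw [mul_assoc (PFam.e q (p - 1)), star_mul, h.star_e]
    have : star (g' * PFam.e q p) * PFam.e q (p - 1) * (PFam.e q (r - 1) * g' * PFam.e q r) =
      star (g' * PFam.e q p) * (PFam.e q (p - 1) * PFam.e q (r - 1)) * (g' * PFam.e q r) := by
      noncomm_ring
    rw [this, h.e_mul_e, if_neg (by omega)]
    simp
  · intro h1
    exact absurd hp h1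

include h in
/-- first and second variation of the Hodge metric -/
theorem hodgeOp_variation (hg : ∀ᶠ z in 𝓝 z₀, DifferentiableAt ℂ g z) (h1 : g z₀ = 1)
    (hgr : ∀ p, (1 - q (p - 1)) * deriv g z₀ * q p = 0) :
    (∀ v : ℂ, dd v (fun z => hodgeOp a b q (g z)) z₀ =
      -((2 : ℝ) • (v • higgs a b q (deriv g z₀) + conj v • star (higgs a b q (deriv g z₀))))) ∧
    lap (fun z => hodgeOp a b q (g z)) z₀ =
      (8 : ℝ) • (higgs a b q (deriv g z₀) * star (higgs a b q (deriv g z₀)) +
        star (higgs a b q (deriv g z₀)) * higgs a b q (deriv g z₀)) := by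
  set g' := deriv g z₀ with hg'
  set c := PFam.c a b q with hc
  set θ : ℤ → 𝒜 := fun p => PFam.e q (p - 1) * g' * PFam.e q p with hθ
  have hg2 : ContDiffAt ℝ 2 g z₀ := contDiffAt_holo hg (by norm_cast)
  have hP : ∀ p, ContDiffAt ℝ 2 (fun z => phi c (q p) (g z)) z₀ := fun p =>
    contDiffAt_phi h.c_mul_c (h.idem p) hg2 h1
  have hvar := fun p => phi_variation h.c_mul_c h.star_c (h.idem p) (h.dag_q p) hg h1
  rw [← hg', ← hc] at hvar
  have hθ2 : ∀ p, (1 - q p) * g' * q p = θ p := fun p => theta_eq h hgr p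
  have hδ2 : ∀ p, dag c (θ p) = - star (θ p) := fun p => dag_theta h p
  simp only [hθ2, hδ2] at hvar
  have hθa : θ a = 0 := by
    simp only [hθ]
    rw [h.e_out (by simp), zero_mul, zero_mul]
  have hθb : θ b = 0 := by
    simp only [hθ]
    rw [h.e_out (by simp : b ∉ Finset.Ico a b), mul_zero]
  have hcθ : ∀ p (x : 𝒜), c * (sg p • (θ p * x)) = -(θ p * x) := by
    intro p x
    rw [mul_smul_comm, ← mul_assoc]
    simp only [hθ]
    rw [← mul_assoc, ← mul_assoc, h.c_mul_e, sg_pred]
    simp only [smul_mul_assoc, neg_smul, smul_neg, smul_smul, sg_mul_self, one_smul, neg_mul]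
  have hcδ : ∀ p (x : 𝒜), c * (sg p • (star (θ p) * x)) = star (θ p) * x := by
    intro p x
    rw [mul_smul_comm, ← mul_assoc]
    simp only [hθ]
    rw [star_mul, h.star_e, ← mul_assoc, h.c_mul_e]
    simp only [smul_mul_assoc, smul_smul, sg_mul_self, one_smul]
  have hS : ∀ p, ContDiffAt ℝ 2 (fun z => sg p • (phi c (q p) (g z) - phi c (q (p + 1)) (g z))) z₀ :=
    fun p => ((hP p).sub (hP (p + 1))).const_smul _
  have hS2 : ContDiffAt ℝ 2 (fun z => ∑ p ∈ Finset.Ico a b,
      sg p • (phi c (q p) (g z) - phi c (q (p + 1)) (g z))) z₀ := ContDiffAt.sum fun p _ => hS p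
  have hsm : ∀ (r : ℂ) (v : ℂ) {T : ℂ → 𝒜}, ContDiffAt ℝ 2 T z₀ →
      dd v (fun z => r • T z) z₀ = r • dd v T z₀ ∧ d2 v (fun z => r • T z) z₀ = r • d2 v T z₀ := by
    intro r v T hT
    set L : 𝒜 →L[ℝ] 𝒜 := (r • ContinuousLinearMap.id ℂ 𝒜).restrictScalars ℝ with hL
    have hL2 : ∀ x, L x = r • x := fun x => rfl
    constructor
    · have := dd_clm (v := v) L (diff_of hT)
      simpa only [hL2] using this
    · have := d2_clm (v := v) L hT
      simpa only [hL2] using this
  have hcm : ∀ (v : ℂ) {T : ℂ → 𝒜}, ContDiffAt ℝ 2 T z₀ →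
      dd v (fun z => c * T z) z₀ = c * dd v T z₀ ∧ d2 v (fun z => c * T z) z₀ = c * d2 v T z₀ := by
    intro v T hT
    constructor
    · rw [dd_mul (differentiableAt_const c) (diff_of hT), dd_const, zero_mul, zero_add]
    · rw [d2_mul contDiffAt_const hT, dd_const, d2_const]
      simp
  constructor
  · intro v
    have e1 : dd v (fun z => hodgeOp a b q (g z)) z₀ = c * ∑ p ∈ Finset.Ico a b,
        sg p • (dd v (fun z => phi c (q p) (g z)) z₀ - dd v (fun z => phi c (q (p + 1)) (g z)) z₀)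
        := by
      unfold hodgeOp
      rw [← hc, (hcm v hS2).1, dd_sum _ fun p _ => diff_of (hS p)]
      congr 1
      refine Finset.sum_congr rfl fun p _ => ?_
      rw [(hsm _ v ((hP p).sub (hP (p + 1)))).1, dd_sub (diff_of (hP p)) (diff_of (hP (p + 1)))]
    rw [e1]
    have e2 := alt_sum h (A := fun p => dd v (fun z => phi c (q p) (g z)) z₀)
      (by rw [(hvar a).1, hθa]; simp) (by rw [(hvar b).1, hθb]; simp)
    rw [e2, mul_smul_comm, ← smul_neg]
    congr 1
    rw [Finset.mul_sum]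
    unfold higgs
    rw [star_sum, Finset.smul_sum, Finset.smul_sum, ← Finset.sum_add_distrib,
      ← Finset.sum_neg_distrib]
    refine Finset.sum_congr rfl fun p _ => ?_
    rw [(hvar p).1]
    have e3 := hcθ p 1
    have e4 := hcδ p 1
    rw [mul_one] at e3 e4
    show c * (sg p • (v • θ p + conj v • -star (θ p))) = -(v • θ p + conj v • star (θ p))
    have e7 : c * (sg p • (v • θ p + conj v • -star (θ p))) =
        v • (c * (sg p • θ p)) - conj v • (c * (sg p • star (θ p))) := by
      simp only [smul_add, smul_comm (sg p) v, smul_comm (sg p) (conj v), mul_add, mul_smul_comm,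
        smul_neg, mul_neg, sub_eq_add_neg]
    rw [e7, e3, e4, smul_neg]
    abel
  · have e1 : lap (fun z => hodgeOp a b q (g z)) z₀ = c * ∑ p ∈ Finset.Ico a b,
        sg p • (lap (fun z => phi c (q p) (g z)) z₀ - lap (fun z => phi c (q (p + 1)) (g z)) z₀)
        := by
      have e0 : ∀ v, d2 v (fun z => hodgeOp a b q (g z)) z₀ = c * ∑ p ∈ Finset.Ico a b,
        sg p • (d2 v (fun z => phi c (q p) (g z)) z₀ - d2 v (fun z => phi c (q (p + 1)) (g z)) z₀)
        := by
        intro v
        unfold hodgeOp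
        rw [← hc, (hcm v hS2).2, d2_sum _ fun p _ => hS p]
        congr 1
        refine Finset.sum_congr rfl fun p _ => ?_
        rw [(hsm _ v ((hP p).sub (hP (p + 1)))).2, d2_sub (hP p) (hP (p + 1))]
      unfold lap
      rw [e0, e0, ← mul_add, ← Finset.sum_add_distrib]
      congr 1
      refine Finset.sum_congr rfl fun p _ => ?_
      rw [← smul_add]
      congr 1
      abel
    rw [e1]
    have e2 := alt_sum h (A := fun p => lap (fun z => phi c (q p) (g z)) z₀)
      (by rw [(hvar a).2, hθa]; simp) (by rw [(hvar b).2, hθb]; simp)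
    rw [e2, higgs_mul_star h, star_mul_higgs h, ← Finset.sum_add_distrib, mul_smul_comm,
      Finset.mul_sum]
    have e5 : ∀ x : 𝒜, (8 : ℝ) • x = (2 : ℝ) • ((4 : ℝ) • x) := by
      intro x
      rw [smul_smul]
      norm_num
    rw [e5]
    congr 1
    rw [Finset.smul_sum]
    refine Finset.sum_congr rfl fun p _ => ?_
    rw [(hvar p).2]
    show c * (sg p • ((4 : ℝ) • (θ p * -star (θ p) - -star (θ p) * θ p))) =
      (4 : ℝ) • (θ p * star (θ p) + star (θ p) * θ p)
    rw [smul_comm (sg p) (4 : ℝ), mul_smul_comm]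
    congr 1
    have e6 : θ p * -star (θ p) - -star (θ p) * θ p = star (θ p) * θ p - θ p * star (θ p) := by
      noncomm_ring
    rw [e6, smul_sub, mul_sub, hcθ, hcδ]
    abel

include h in
theorem Y_higgs : PFam.Y a b q * higgs a b q g' - higgs a b q g' * PFam.Y a b q =
    - higgs a b q g' := by
  unfold higgs
  rw [Finset.mul_sum, Finset.sum_mul, ← Finset.sum_sub_distrib, ← Finset.sum_neg_distrib]
  refine Finset.sum_congr rfl fun p _ => ?_
  rw [← mul_assoc, ← mul_assoc, h.Y_mul_e, mul_assoc (PFam.e q (p - 1) * g'), h.e_mul_Y,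
    smul_mul_assoc, smul_mul_assoc, mul_smul_comm, ← sub_smul]
  have : ((p - 1 - a : ℤ) : ℂ) - ((p - a : ℤ) : ℂ) = -1 := by push_cast; ring
  rw [this, neg_one_smul]

end

end Pool.Agent.H25.GW
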