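import Mathlib
import Pool.Agent.H25.GW.Det

/-!
# Gram determinants with respect to the Hodge metric

The Laplacian of a negative power of the Gram determinant of a flat subspace.
-/

open Filter Topology ComplexConjugate
open scoped Matrix.Norms.Operator InnerProductSpace

namespace Pool.Agent.H25.GW

section Proj

variable {𝔼 : Type*} [NormedAddCommGroup 𝔼] [InnerProductSpace ℂ 𝔼] {m : Type*} [Fintype m]
  {w : m → 𝔼}

/-- the part orthogonal to `w` -/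
noncomputable def qq (w : m → 𝔼) (x : 𝔼) : 𝔼 := x - ∑ j, ⟪w j, x⟫_ℂ • w j

theorem inner_qq (hw : Orthonormal ℂ w) (x : 𝔼) (j : m) : ⟪w j, qq w x⟫_ℂ = 0 := by
  classical
  unfold qq
  rw [inner_sub_right, hw.inner_right_fintype, sub_self]

theorem inner_expand (hw : Orthonormal ℂ w) (x y : 𝔼) :
    ⟪x, y⟫_ℂ = ∑ j, ⟪x, w j⟫_ℂ * ⟪w j, y⟫_ℂ + ⟪qq w x, qq w y⟫_ℂ := by
  have h1 : y = ∑ j, ⟪w j, y⟫_ℂ • w j + qq w y := by unfold qq; abel
  have h2 : x = ∑ j, ⟪w j, x⟫_ℂ • w j + qq w x := by unfold qq; abel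
  have h3 : ⟪x, qq w y⟫_ℂ = ⟪qq w x, qq w y⟫_ℂ := by
    nth_rewrite 1 [h2]
    rw [inner_add_left, sum_inner]
    have : ∑ i, ⟪⟪w i, x⟫_ℂ • w i, qq w y⟫_ℂ = 0 := by
      refine Finset.sum_eq_zero fun i _ => ?_
      rw [inner_smul_left, inner_qq hw, mul_zero]
    rw [this, zero_add]
  nth_rewrite 1 [h1]
  rw [inner_add_right, inner_sum, h3]
  congr 1
  refine Finset.sum_congr rfl fun i _ => ?_
  rw [inner_smul_right, mul_comm]

theorem norm_expand (hw : Orthonormal ℂ w) (x : 𝔼) :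
    ‖x‖ ^ 2 = ∑ j, ‖⟪x, w j⟫_ℂ‖ ^ 2 + ‖qq w x‖ ^ 2 := by
  have h := congrArg Complex.re (inner_expand hw x x)
  rw [Complex.add_re, Complex.re_sum] at h
  have h1 : ∀ y : 𝔼, (⟪y, y⟫_ℂ).re = ‖y‖ ^ 2 := fun y => (norm_sq_eq_re_inner (𝕜 := ℂ) y).symm
  rw [h1, h1] at h
  rw [h]
  congr 1
  refine Finset.sum_congr rfl fun j _ => ?_
  rw [← inner_conj_symm (w j) x, Complex.mul_conj']
  norm_cast

theorem qq_norm_le (hw : Orthonormal ℂ w) (x : 𝔼) : ‖qq w x‖ ≤ ‖x‖ := by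
  have h := norm_expand hw x
  have h2 : 0 ≤ ∑ j, ‖⟪x, w j⟫_ℂ‖ ^ 2 := Finset.sum_nonneg fun j _ => by positivity
  exact abs_le_of_sq_le_sq' (by linarith) (norm_nonneg x) |>.2

theorem mem_of_qq_eq_zero {x : 𝔼} (h : qq w x = 0) : x ∈ Submodule.span ℂ (Set.range w) := by
  have h1 : x = ∑ j, ⟪w j, x⟫_ℂ • w j := by
    unfold qq at h
    exact eq_of_sub_eq_zero h
  rw [h1]
  exact Submodule.sum_mem _ fun j _ => Submodule.smul_mem _ _ (Submodule.subset_span ⟨j, rfl⟩)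

variable [FiniteDimensional ℂ 𝔼]

theorem star_inner_left (T : 𝔼 →L[ℂ] 𝔼) (x y : 𝔼) : ⟪star T x, y⟫_ℂ = ⟪x, T y⟫_ℂ :=
  ContinuousLinearMap.adjoint_inner_left T y x

theorem star_inner_right (T : 𝔼 →L[ℂ] 𝔼) (x y : 𝔼) : ⟪x, star T y⟫_ℂ = ⟪T x, y⟫_ℂ :=
  ContinuousLinearMap.adjoint_inner_right T x y

/-- the trace of a compression of the Higgs field is controlled by the second fundamental
forms -/
theorem trace_bound (hw : Orthonormal ℂ w) {Θ Y : 𝔼 →L[ℂ] 𝔼} (hY : star Y = Y)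
    (hYΘ : Y * Θ - Θ * Y = -Θ) :
    ‖∑ i, ⟪Θ (w i), w i⟫_ℂ‖ ^ 2 ≤ 2 * Fintype.card m * ‖Y‖ ^ 2 *
      ∑ i, (‖qq w (Θ (w i))‖ ^ 2 + ‖qq w (star Θ (w i))‖ ^ 2) := by
  have h1 : ∀ x, Θ x = Θ (Y x) - Y (Θ x) := by
    intro x
    have := congrArg (fun T : 𝔼 →L[ℂ] 𝔼 => T x) hYΘ
    simp only [sub_apply, mul_apply_eq_comp, neg_apply] at this
    rw [← neg_sub, this, neg_neg]
  have hYs : ∀ x y, ⟪Y x, y⟫_ℂ = ⟪x, Y y⟫_ℂ := by
    intro x y
    rw [← star_inner_left, hY]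
  have h2 : ∀ i, ⟪Θ (w i), w i⟫_ℂ = ⟪Y (w i), star Θ (w i)⟫_ℂ - ⟪Θ (w i), Y (w i)⟫_ℂ := by
    intro i
    nth_rewrite 1 [h1]
    rw [inner_sub_left, star_inner_right, hYs]
  have h3 : ∑ i, ⟪Θ (w i), w i⟫_ℂ = ∑ i, (⟪qq w (Y (w i)), qq w (star Θ (w i))⟫_ℂ -
      ⟪qq w (Θ (w i)), qq w (Y (w i))⟫_ℂ) := by
    rw [Finset.sum_congr rfl fun i _ => h2 i, Finset.sum_sub_distrib, Finset.sum_sub_distrib,
      Finset.sum_congr rfl fun i _ => inner_expand hw (Y (w i)) (star Θ (w i)),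
      Finset.sum_congr rfl fun i _ => inner_expand hw (Θ (w i)) (Y (w i)),
      Finset.sum_add_distrib, Finset.sum_add_distrib]
    have h4 : ∑ i, ∑ j, ⟪Y (w i), w j⟫_ℂ * ⟪w j, star Θ (w i)⟫_ℂ =
        ∑ i, ∑ j, ⟪Θ (w i), w j⟫_ℂ * ⟪w j, Y (w i)⟫_ℂ := by
      rw [Finset.sum_comm]
      refine Finset.sum_congr rfl fun j _ => Finset.sum_congr rfl fun i _ => ?_
      rw [star_inner_right, hYs]
      ring
    rw [h4]
    ring
  have h5 : ‖∑ i, ⟪Θ (w i), w i⟫_ℂ‖ ≤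
      ∑ i, ‖Y‖ * (‖qq w (Θ (w i))‖ + ‖qq w (star Θ (w i))‖) := by
    rw [h3]
    refine (norm_sum_le _ _).trans (Finset.sum_le_sum fun i _ => ?_)
    have hy : ‖qq w (Y (w i))‖ ≤ ‖Y‖ := by
      refine (qq_norm_le hw _).trans ?_
      have := Y.le_opNorm (w i)
      rwa [hw.norm_eq_one, mul_one] at this
    refine (norm_sub_le _ _).trans ?_
    have e1 := norm_inner_le_norm (𝕜 := ℂ) (qq w (Y (w i))) (qq w (star Θ (w i)))
    have e2 := norm_inner_le_norm (𝕜 := ℂ) (qq w (Θ (w i))) (qq w (Y (w i)))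
    have e3 := norm_nonneg (qq w (Θ (w i)))
    have e4 := norm_nonneg (qq w (star Θ (w i)))
    nlinarith [mul_le_mul_of_nonneg_right hy e3, mul_le_mul_of_nonneg_right hy e4]
  have h6 : ‖∑ i, ⟪Θ (w i), w i⟫_ℂ‖ ^ 2 ≤
      (∑ i, ‖Y‖ * (‖qq w (Θ (w i))‖ + ‖qq w (star Θ (w i))‖)) ^ 2 :=
    pow_le_pow_left₀ (norm_nonneg _) h5 2
  refine h6.trans ?_
  rw [← Finset.mul_sum, mul_pow]
  have h7 := sq_sum_le_card_mul_sum_sq (s := (Finset.univ : Finset m))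
    (f := fun i => ‖qq w (Θ (w i))‖ + ‖qq w (star Θ (w i))‖)
  have h8 : ∑ i, (‖qq w (Θ (w i))‖ + ‖qq w (star Θ (w i))‖) ^ 2 ≤
      2 * ∑ i, (‖qq w (Θ (w i))‖ ^ 2 + ‖qq w (star Θ (w i))‖ ^ 2) := by
    rw [Finset.mul_sum]
    refine Finset.sum_le_sum fun i _ => ?_
    nlinarith [sq_nonneg (‖qq w (Θ (w i))‖ - ‖qq w (star Θ (w i))‖)]
  rw [Finset.card_univ] at h7
  have h9 : (0 : ℝ) ≤ Fintype.card m := by positivity
  calc ‖Y‖ ^ 2 * (∑ i, (‖qq w (Θ (w i))‖ + ‖qq w (star Θ (w i))‖)) ^ 2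
      ≤ ‖Y‖ ^ 2 * (Fintype.card m *
        (2 * ∑ i, (‖qq w (Θ (w i))‖ ^ 2 + ‖qq w (star Θ (w i))‖ ^ 2))) := by
        apply mul_le_mul_of_nonneg_left _ (by positivity)
        exact h7.trans (mul_le_mul_of_nonneg_left h8 h9)
    _ = _ := by ring

end Proj

section Main

variable {𝔼 : Type*} [NormedAddCommGroup 𝔼] [InnerProductSpace ℂ 𝔼] [FiniteDimensional ℂ 𝔼]
  {m : Type*} [Fintype m] [DecidableEq m] (w : m → 𝔼)

/-- the Gram matrix of `w` with respect to the form `⟪T x, y⟫` -/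
noncomputable def gramM (T : 𝔼 →L[ℂ] 𝔼) : Matrix m m ℂ := Matrix.of fun i j => ⟪T (w i), w j⟫_ℂ

/-- the Gram matrix as a real continuous linear map -/
noncomputable def gramL : (𝔼 →L[ℂ] 𝔼) →L[ℝ] Matrix m m ℂ :=
  LinearMap.toContinuousLinearMap
    { toFun := gramM w
      map_add' := by
        intro A B
        ext i j
        simp [gramM]
      map_smul' := by
        intro r A
        ext i j
        simp [gramM, inner_smul_left_eq_smul] }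

omit [DecidableEq m] in
theorem gramL_apply (T : 𝔼 →L[ℂ] 𝔼) : gramL w T = gramM w T := rfl

theorem d2_rpow {d : ℂ → ℝ} {z v : ℂ} (hd : ContDiffAt ℝ 2 d z) (h1 : d z = 1) (p : ℝ) :
    dd v (fun y => d y ^ p) z = p * dd v d z ∧
    d2 v (fun y => d y ^ p) z = p * (p - 1) * dd v d z ^ 2 + p * d2 v d z := by
  have hne : ∀ᶠ y in 𝓝 z, d y ≠ 0 := by
    apply hd.continuousAt.eventually_ne
    rw [h1]
    exact one_ne_zero
  have h2 : ∀ (r : ℝ), ∀ᶠ y in 𝓝 z, dd v (fun y => d y ^ r) y = r * d y ^ (r - 1) * dd v d y := by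
    intro r
    filter_upwards [hne, ev_diff hd] with y hy1 hy2
    have := hy2.hasFDerivAt.rpow_const (p := r) (Or.inl hy1)
    unfold dd
    rw [this.fderiv]
    simp
  have h3 : dd v (fun y => d y ^ p) z = p * dd v d z := by
    rw [(h2 p).self_of_nhds, h1]
    simp
  refine ⟨h3, ?_⟩
  have h4 : dd v (fun y => d y ^ p) =ᶠ[𝓝 z] fun y => (p * d y ^ (p - 1)) * dd v d y := h2 p
  unfold d2
  rw [dd_congr h4]
  have h5 : DifferentiableAt ℝ (fun y => d y ^ (p - 1)) z :=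
    ((diff_of hd).hasFDerivAt.rpow_const (p := p - 1) (Or.inl hne.self_of_nhds)).differentiableAt
  have h6 : DifferentiableAt ℝ (fun y => p * d y ^ (p - 1)) z := h5.const_mul p
  rw [dd_mul h6 (diff_dd hd), dd_mul (differentiableAt_const p) h5, dd_const,
    (h2 (p - 1)).self_of_nhds, h1]
  simp only [Real.one_rpow]
  ring

theorem lap_rpow {d : ℂ → ℝ} {z : ℂ} (hd : ContDiffAt ℝ 2 d z) (h1 : d z = 1) (p : ℝ) :
    lap (fun y => d y ^ p) z =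
      p * (p - 1) * (dd 1 d z ^ 2 + dd Complex.I d z ^ 2) + p * lap d z := by
  unfold lap
  rw [(d2_rpow hd h1 p).2, (d2_rpow hd h1 p).2]
  ring

variable {w} {N : ℂ → 𝔼 →L[ℂ] 𝔼} {Θ Y : 𝔼 →L[ℂ] 𝔼} {z₀ : ℂ}

theorem gramM_one (hw : Orthonormal ℂ w) : gramM w (1 : 𝔼 →L[ℂ] 𝔼) = 1 := by
  ext i j
  simp only [gramM, Matrix.of_apply, one_apply_eq_self]
  rw [orthonormal_iff_ite.1 hw i j, Matrix.one_apply]

omit [DecidableEq m] in
theorem trace_gramM (T : 𝔼 →L[ℂ] 𝔼) : (gramM w T).trace = ∑ i, ⟪T (w i), w i⟫_ℂ := rfl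

/-- the two numerical identities -/
theorem num1 (τ : ℂ) : ((-((2 : ℝ) * (τ + conj τ)) : ℂ)).re ^ 2 +
    ((-((2 : ℝ) * (conj Complex.I * τ + Complex.I * conj τ)) : ℂ)).re ^ 2 = 16 * ‖τ‖ ^ 2 := by
  rw [← Complex.normSq_eq_norm_sq, Complex.normSq_apply]
  simp
  ring

theorem num2 (x y : ℂ) :
    ‖x + y‖ ^ 2 + ‖conj Complex.I * x + Complex.I * y‖ ^ 2 = 2 * (‖x‖ ^ 2 + ‖y‖ ^ 2) := by
  rw [← Complex.normSq_eq_norm_sq, ← Complex.normSq_eq_norm_sq, ← Complex.normSq_eq_norm_sq,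
    ← Complex.normSq_eq_norm_sq, Complex.normSq_apply, Complex.normSq_apply, Complex.normSq_apply,
    Complex.normSq_apply]
  simp
  ring

theorem trace_sq_herm {M : Matrix m m ℂ} (hM : ∀ i j, M j i = conj (M i j)) :
    (M * M).trace.re = ∑ i, ∑ j, ‖M i j‖ ^ 2 ∧ M.trace.im = 0 := by
  constructor
  · have : (M * M).trace = ∑ i, ∑ j, ((‖M i j‖ ^ 2 : ℝ) : ℂ) := by
      rw [Matrix.trace]
      refine Finset.sum_congr rfl fun i _ => ?_
      rw [Matrix.diag_apply, Matrix.mul_apply]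
      refine Finset.sum_congr rfl fun j _ => ?_
      rw [hM i j, Complex.mul_conj']
      norm_cast
    rw [this, Complex.re_sum]
    refine Finset.sum_congr rfl fun i _ => ?_
    rw [Complex.re_sum]
    exact Finset.sum_congr rfl fun j _ => Complex.ofReal_re _
  · rw [Matrix.trace, Complex.im_sum]
    refine Finset.sum_eq_zero fun i _ => ?_
    have h1 := hM i i
    rw [Matrix.diag_apply]
    exact Complex.conj_eq_iff_im.1 h1.symm

omit [FiniteDimensional ℂ 𝔼] in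
theorem inner_rsmul_left (r : ℝ) (x y : 𝔼) : ⟪r • x, y⟫_ℂ = (r : ℂ) * ⟪x, y⟫_ℂ := by
  rw [← Complex.coe_smul, inner_smul_left, Complex.conj_ofReal]

omit [FiniteDimensional ℂ 𝔼] in
theorem inner_rsmul_right (r : ℝ) (x y : 𝔼) : ⟪x, r • y⟫_ℂ = (r : ℂ) * ⟪x, y⟫_ℂ := by
  rw [← Complex.coe_smul, inner_smul_right]

theorem gram_lap (hw : Orthonormal ℂ w) (hN : ContDiffAt ℝ 2 N z₀) (h1 : N z₀ = 1)
    (hd : ∀ v : ℂ, dd v N z₀ = -((2 : ℝ) • (v • Θ + conj v • star Θ)))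
    (hl : lap N z₀ = (8 : ℝ) • (Θ * star Θ + star Θ * Θ))
    (hY : star Y = Y) (hYΘ : Y * Θ - Θ * Y = -Θ) {c : ℝ} (hc : 0 < c)
    (hcK : 8 * c * Fintype.card m * ‖Y‖ ^ 2 ≤ 1) :
    lap (fun z => (gramM w (N z)).det.re ^ (-c)) z₀ ≤
      -(4 * c * ∑ i, (‖qq w (Θ (w i))‖ ^ 2 + ‖qq w (star Θ (w i))‖ ^ 2)) := by
  set G : ℂ → Matrix m m ℂ := fun z => gramL w (N z) with hG
  have hGd : ContDiffAt ℝ 2 G z₀ := (gramL w).contDiff.contDiffAt.comp z₀ hN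
  have hG1 : G z₀ = 1 := by
    simp only [hG]
    rw [h1, gramL_apply, gramM_one hw]
  have dG : ∀ v, dd v G z₀ = gramM w (dd v N z₀) := fun v => dd_clm (gramL w) (diff_of hN)
  have d2G : ∀ v, d2 v G z₀ = gramM w (d2 v N z₀) := fun v => d2_clm (gramL w) hN
  set D : ℂ → ℂ := fun z => (G z).det with hD
  have hDd : ContDiffAt ℝ 2 D z₀ :=
    ((contDiff_det (n := 2)).restrict_scalars ℝ).contDiffAt.comp z₀ hGd
  have dD : ∀ v, dd v D z₀ = (dd v G z₀).trace := by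
    intro v
    rw [hD, dd_det (diff_of hGd) (by rw [hG1]; exact isUnit_one), hG1]
    simp
  have d2D : ∀ v, d2 v D z₀ = (dd v G z₀).trace ^ 2 - (dd v G z₀ * dd v G z₀).trace
      + (d2 v G z₀).trace := fun v => d2_det hGd hG1
  set d : ℂ → ℝ := fun z => (D z).re with hdd
  have hdC : ContDiffAt ℝ 2 d z₀ := Complex.reCLM.contDiff.contDiffAt.comp z₀ hDd
  have dd' : ∀ v, dd v d z₀ = (dd v D z₀).re := fun v => dd_clm Complex.reCLM (diff_of hDd)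
  have d2' : ∀ v, d2 v d z₀ = (d2 v D z₀).re := fun v => d2_clm Complex.reCLM hDd
  have hd1 : d z₀ = 1 := by
    simp only [hdd, hD, hG1, Matrix.det_one, Complex.one_re]
  -- the first derivative is Hermitian
  have hsa : ∀ v x y, ⟪dd v N z₀ x, y⟫_ℂ = ⟪x, dd v N z₀ y⟫_ℂ := by
    intro v x y
    rw [hd]
    simp only [neg_apply, smul_apply, add_apply, inner_neg_left, inner_neg_right,
      inner_rsmul_left, inner_rsmul_right, inner_add_left, inner_add_right, inner_smul_left,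
      inner_smul_right, Complex.conj_conj, star_inner_left, star_inner_right]
    rw [add_comm]
  have hherm : ∀ v i j, (dd v G z₀) j i = conj ((dd v G z₀) i j) := by
    intro v i j
    rw [dG]
    simp only [gramM, Matrix.of_apply]
    rw [hsa, inner_conj_symm]
  set τ : ℂ := ∑ i, ⟪Θ (w i), w i⟫_ℂ with hτ
  set R : ℝ := ∑ i, (‖qq w (Θ (w i))‖ ^ 2 + ‖qq w (star Θ (w i))‖ ^ 2) with hR
  have hentry : ∀ v i j, (dd v G z₀) i j =
      -((2 : ℝ) * (conj v * ⟪Θ (w i), w j⟫_ℂ + v * ⟪star Θ (w i), w j⟫_ℂ) : ℂ) := by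
    intro v i j
    rw [dG, hd]
    simp only [gramM, Matrix.of_apply, neg_apply, smul_apply, add_apply, inner_neg_left,
      inner_add_left, inner_smul_left, inner_rsmul_left, Complex.conj_conj]
  have htrace : ∀ v, (dd v G z₀).trace = -((2 : ℝ) * (conj v * τ + v * conj τ) : ℂ) := by
    intro v
    rw [Matrix.trace, Finset.sum_congr rfl fun i _ => (Matrix.diag_apply _ i).trans (hentry v i i),
      Finset.sum_neg_distrib, ← Finset.mul_sum, Finset.sum_add_distrib, ← Finset.mul_sum,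
      ← Finset.mul_sum, hτ, map_sum]
    congr 4
    refine Finset.sum_congr rfl fun i _ => ?_
    rw [star_inner_left, inner_conj_symm]
  have hS1 : (dd 1 G z₀).trace.re ^ 2 + (dd Complex.I G z₀).trace.re ^ 2 = 16 * ‖τ‖ ^ 2 := by
    rw [htrace, htrace, ← num1 τ, map_one, one_mul, one_mul]
  have hS2 : (dd 1 G z₀ * dd 1 G z₀).trace.re + (dd Complex.I G z₀ * dd Complex.I G z₀).trace.re =
      8 * ∑ i, ∑ j, (‖⟪Θ (w i), w j⟫_ℂ‖ ^ 2 + ‖⟪star Θ (w i), w j⟫_ℂ‖ ^ 2) := by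
    rw [(trace_sq_herm (hherm 1)).1, (trace_sq_herm (hherm Complex.I)).1, ← Finset.sum_add_distrib,
      Finset.mul_sum]
    refine Finset.sum_congr rfl fun i _ => ?_
    rw [← Finset.sum_add_distrib, Finset.mul_sum]
    refine Finset.sum_congr rfl fun j _ => ?_
    rw [hentry, hentry, norm_neg, norm_neg, norm_mul, norm_mul, mul_pow, mul_pow, ← mul_add,
      map_one, one_mul, one_mul, num2]
    have : ‖((2 : ℝ) : ℂ)‖ = 2 := by simp
    rw [this]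
    ring
  have hS3 : (d2 1 G z₀).trace.re + (d2 Complex.I G z₀).trace.re =
      8 * ∑ i, (‖Θ (w i)‖ ^ 2 + ‖star Θ (w i)‖ ^ 2) := by
    have e1 : (d2 1 G z₀).trace + (d2 Complex.I G z₀).trace = (gramM w (lap N z₀)).trace := by
      rw [d2G, d2G, ← Matrix.trace_add, ← gramL_apply, ← gramL_apply, ← map_add]
      rfl
    rw [← Complex.add_re, e1, hl, trace_gramM, Complex.re_sum, Finset.mul_sum]
    refine Finset.sum_congr rfl fun i _ => ?_
    simp only [smul_apply, add_apply, mul_apply_eq_comp, inner_rsmul_left, inner_add_left,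
      star_inner_left]
    rw [← star_inner_right Θ]
    have h5 : ∀ y : 𝔼, (⟪y, y⟫_ℂ).re = ‖y‖ ^ 2 := fun y => (norm_sq_eq_re_inner (𝕜 := ℂ) y).symm
    rw [Complex.re_ofReal_mul, Complex.add_re, h5, h5]
    ring
  have hlapd : lap d z₀ = 16 * ‖τ‖ ^ 2 -
      8 * ∑ i, ∑ j, (‖⟪Θ (w i), w j⟫_ℂ‖ ^ 2 + ‖⟪star Θ (w i), w j⟫_ℂ‖ ^ 2) +
      8 * ∑ i, (‖Θ (w i)‖ ^ 2 + ‖star Θ (w i)‖ ^ 2) := by
    unfold lap
    rw [d2', d2', d2D, d2D, Complex.add_re, Complex.add_re, Complex.sub_re, Complex.sub_re]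
    have e1 : ∀ v, ((dd v G z₀).trace ^ 2).re = (dd v G z₀).trace.re ^ 2 := by
      intro v
      rw [pow_two, Complex.mul_re, (trace_sq_herm (hherm v)).2]
      ring
    rw [e1, e1, ← hS1, ← hS2, ← hS3]
    ring
  have hRR : ∑ i, (‖Θ (w i)‖ ^ 2 + ‖star Θ (w i)‖ ^ 2) =
      ∑ i, ∑ j, (‖⟪Θ (w i), w j⟫_ℂ‖ ^ 2 + ‖⟪star Θ (w i), w j⟫_ℂ‖ ^ 2) + R := by
    rw [hR, ← Finset.sum_add_distrib]
    refine Finset.sum_congr rfl fun i _ => ?_
    rw [norm_expand hw (Θ (w i)), norm_expand hw (star Θ (w i)), Finset.sum_add_distrib]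
    ring
  have hfin : lap (fun z => (gramM w (N z)).det.re ^ (-c)) z₀ = 16 * c ^ 2 * ‖τ‖ ^ 2 - 8 * c * R := by
    have e1 : (fun z => (gramM w (N z)).det.re ^ (-c)) = fun z => d z ^ (-c) := rfl
    rw [e1, lap_rpow hdC hd1, dd', dd', dD, dD, hS1, hlapd, hRR]
    ring
  rw [hfin]
  have hb := trace_bound hw hY hYΘ
  rw [← hτ, ← hR] at hb
  have hR0 : 0 ≤ R := Finset.sum_nonneg fun i _ => by positivity
  have h7 : 16 * c ^ 2 * ‖τ‖ ^ 2 ≤ 16 * c ^ 2 * (2 * Fintype.card m * ‖Y‖ ^ 2 * R) :=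
    mul_le_mul_of_nonneg_left hb (by positivity)
  have h8 : 16 * c ^ 2 * (2 * Fintype.card m * ‖Y‖ ^ 2 * R) =
      4 * c * R * (8 * c * Fintype.card m * ‖Y‖ ^ 2) := by ring
  have h9 : 4 * c * R * (8 * c * Fintype.card m * ‖Y‖ ^ 2) ≤ 4 * c * R * 1 :=
    mul_le_mul_of_nonneg_left hcK (by positivity)
  linarith

end Main

end Pool.Agent.H25.GW
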