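import Mathlib
import Pool.Agent.H25.GW.Family

/-!
# The Hodge metric of a polarized filtration
-/

open Filter Topology ComplexConjugate
open scoped InnerProductSpace

namespace Pool.Agent.H25.GW

section Pr

variable {E : Type*} [NormedAddCommGroup E] [NormedSpace ℂ E] [FiniteDimensional ℂ E]
  {h : E →L⋆[ℂ] E →L[ℂ] ℂ} {U : Submodule ℂ E}

/-- `P` is the projection onto `U` along its `h`-orthogonal complement. -/
def IsPr (h : E →L⋆[ℂ] E →L[ℂ] ℂ) (U : Submodule ℂ E) (P : E →L[ℂ] E) : Prop :=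
  (∀ x, P x ∈ U) ∧ ∀ x, ∀ y ∈ U, h y (x - P x) = 0

open Classical in
/-- the `h`-orthogonal projection -/
noncomputable def pr (h : E →L⋆[ℂ] E →L[ℂ] ℂ) (U : Submodule ℂ E) : E →L[ℂ] E :=
  if H : ∃ P, IsPr h U P then H.choose else 0

/-- nondegeneracy -/
def Nondeg (h : E →L⋆[ℂ] E →L[ℂ] ℂ) (U : Submodule ℂ E) : Prop :=
  ∀ y ∈ U, (∀ z ∈ U, h z y = 0) → y = 0

theorem exists_isPr (hU : Nondeg h U) : ∃ P, IsPr h U P := by
  set b := Module.finBasis ℂ U with hb
  set Φ : E →ₗ[ℂ] (Fin (Module.finrank ℂ U) → ℂ) :=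
    LinearMap.pi fun i => ((h (b i : E) : E →L[ℂ] ℂ) : E →ₗ[ℂ] ℂ) with hΦ
  have hker : ∀ x, x ∈ LinearMap.ker Φ → ∀ z ∈ U, h z x = 0 := by
    intro x hx z hz
    have h1 : ∀ i, h (b i : E) x = 0 := fun i => congrFun (LinearMap.mem_ker.1 hx) i
    have h2 : z = ∑ i, (b.repr ⟨z, hz⟩ i) • (b i : E) := by
      have := congrArg (U.subtype) (b.sum_repr ⟨z, hz⟩)
      rw [map_sum] at this
      exact this.symm
    rw [h2, map_sum]
    simp only [map_smulₛₗ, sum_apply, smul_apply, h1, smul_zero, Finset.sum_const_zero]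
  have hdisj : Disjoint U (LinearMap.ker Φ) := by
    rw [Submodule.disjoint_def]
    intro x hx hx2
    exact hU x hx (hker x hx2)
  have hdim : Module.finrank ℂ U + Module.finrank ℂ (LinearMap.ker Φ) = Module.finrank ℂ E := by
    apply le_antisymm
    · have h1 := Submodule.finrank_sup_add_finrank_inf_eq U (LinearMap.ker Φ)
      rw [disjoint_iff.1 hdisj, finrank_bot, add_zero] at h1
      rw [← h1]
      exact Submodule.finrank_le _
    · have h1 := LinearMap.finrank_range_add_finrank_ker Φ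
      have h2 : Module.finrank ℂ (LinearMap.range Φ) ≤ Module.finrank ℂ U := by
        refine (Submodule.finrank_le _).trans ?_
        simp
      omega
  have hcompl : IsCompl U (LinearMap.ker Φ) :=
    ⟨hdisj, codisjoint_iff.2 (Submodule.eq_top_of_disjoint _ _ hdim.ge hdisj)⟩
  refine ⟨LinearMap.toContinuousLinearMap (U.projection (LinearMap.ker Φ) hcompl),
    fun x => Submodule.projection_apply_mem hcompl x, fun x y hy => hker _ ?_ y hy⟩
  have h3 : U.projection (LinearMap.ker Φ) hcompl (x - U.projection (LinearMap.ker Φ) hcompl x)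
      = 0 := by
    rw [map_sub, Submodule.projection_apply_of_mem_left hcompl
      (Submodule.projection_apply_mem hcompl x), sub_self]
  exact (Submodule.projection_apply_eq_zero_iff hcompl).1 h3

theorem isPr_pr (hU : Nondeg h U) : IsPr h U (pr h U) := by
  unfold pr
  rw [dif_pos (exists_isPr hU)]
  exact (exists_isPr hU).choose_spec

omit [FiniteDimensional ℂ E] in
theorem IsPr.unique (hU : Nondeg h U) {P P' : E →L[ℂ] E} (hP : IsPr h U P) (hP' : IsPr h U P') :
    P = P' := by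
  ext x
  refine eq_of_sub_eq_zero (hU _ (Submodule.sub_mem _ (hP.1 x) (hP'.1 x)) fun z hz => ?_)
  have : P x - P' x = (x - P' x) - (x - P x) := by abel
  rw [this, map_sub, hP.2 x z hz, hP'.2 x z hz, sub_zero]

omit [FiniteDimensional ℂ E] in
theorem IsPr.fix (hU : Nondeg h U) {P : E →L[ℂ] E} (hP : IsPr h U P) {x : E} (hx : x ∈ U) :
    P x = x := by
  refine (eq_of_sub_eq_zero (hU _ (Submodule.sub_mem _ hx (hP.1 x)) fun z hz => ?_)).symm
  exact hP.2 x z hz

omit [FiniteDimensional ℂ E] in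
theorem IsPr.self_adj (hh : ∀ u v, h u v = conj (h v u)) {P : E →L[ℂ] E} (hP : IsPr h U P)
    (x y : E) : h (P x) y = h x (P y) := by
  have h1 : h (P x) y = h (P x) (P y) := by
    have := hP.2 y (P x) (hP.1 x)
    rw [map_sub, sub_eq_zero] at this
    exact this
  have h2 : h (P y) x = h (P y) (P x) := by
    have := hP.2 x (P y) (hP.1 y)
    rw [map_sub, sub_eq_zero] at this
    exact this
  rw [h1, hh (P x), hh x, h2]

end Pr

/-- A polarized filtration. -/
structure Fil {E : Type*} [NormedAddCommGroup E] [NormedSpace ℂ E]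
    (h : E →L⋆[ℂ] E →L[ℂ] ℂ) (a b : ℤ) (F : ℤ → Submodule ℂ E) : Prop where
  hab : a ≤ b
  herm : ∀ u v, h u v = conj (h v u)
  anti : Antitone F
  top : F a = ⊤
  bot : F b = ⊥
  hr : ∀ p, ∀ u ∈ F p, (∀ v ∈ F (p + 1), h u v = 0) → u ≠ 0 → 0 < (-1 : ℝ) ^ p * (h u u).re

namespace Fil

variable {E : Type*} [NormedAddCommGroup E] [NormedSpace ℂ E] [FiniteDimensional ℂ E]
  {h : E →L⋆[ℂ] E →L[ℂ] ℂ} {a b : ℤ} {F : ℤ → Submodule ℂ E} (X : Fil h a b F)

include X

omit [FiniteDimensional ℂ E] in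
theorem nondeg (p : ℤ) : Nondeg h (F p) := by
  intro y hy hz
  by_contra hne
  have h1 := X.hr p y hy (fun v hv => by
    rw [X.herm, hz v (X.anti (by omega) hv), map_zero]) hne
  rw [hz y hy] at h1
  simp at h1

theorem isPr (p : ℤ) : IsPr h (F p) (pr h (F p)) := isPr_pr (X.nondeg p)

theorem mem (p : ℤ) (x : E) : pr h (F p) x ∈ F p := (X.isPr p).1 x

theorem fix {p : ℤ} {x : E} (hx : x ∈ F p) : pr h (F p) x = x := (X.isPr p).fix (X.nondeg p) hx

theorem self_adj (p : ℤ) (x y : E) : h (pr h (F p) x) y = h x (pr h (F p) y) :=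
  (X.isPr p).self_adj X.herm x y

omit [FiniteDimensional ℂ E] in
theorem nondeg_top {y : E} (hy : ∀ z, h z y = 0) : y = 0 :=
  X.nondeg a y (by rw [X.top]; trivial) fun z _ => hy z

omit [FiniteDimensional ℂ E] in
theorem ext_right {x y : E} (hy : ∀ z, h z x = h z y) : x = y := by
  refine eq_of_sub_eq_zero (X.nondeg_top fun z => ?_)
  rw [map_sub, hy, sub_self]

theorem pr_mul_le {p r : ℤ} (hpr : p ≤ r) : pr h (F p) * pr h (F r) = pr h (F r) := by
  ext x
  exact X.fix (X.anti hpr (X.mem r x))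

theorem pr_mul_ge {p r : ℤ} (hpr : p ≤ r) : pr h (F r) * pr h (F p) = pr h (F r) := by
  ext x
  apply X.ext_right
  intro z
  show h z (pr h (F r) (pr h (F p) x)) = h z (pr h (F r) x)
  rw [← X.self_adj r, ← X.self_adj p, X.fix (X.anti hpr (X.mem r z)), X.self_adj r]

theorem pr_mul (p r : ℤ) : pr h (F p) * pr h (F r) = pr h (F (max p r)) := by
  rcases le_total p r with hpr | hpr
  · rw [max_eq_right hpr, X.pr_mul_le hpr]
  · rw [max_eq_left hpr, X.pr_mul_ge hpr]

theorem pr_top : pr h (F a) = 1 := by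
  ext x
  exact X.fix (by rw [X.top]; trivial)

theorem pr_bot : pr h (F b) = 0 := by
  ext x
  have h1 : pr h (F b) x ∈ (⊥ : Submodule ℂ E) := by
    rw [← X.bot]
    exact X.mem b x
  exact (Submodule.mem_bot ℂ).1 h1

end Fil

section Hodge

variable {E : Type*} [NormedAddCommGroup E] [NormedSpace ℂ E]

/-- the Weil operator -/
noncomputable def weil (h : E →L⋆[ℂ] E →L[ℂ] ℂ) (a b : ℤ) (F : ℤ → Submodule ℂ E) : E →L[ℂ] E :=
  ∑ p ∈ Finset.Ico a b, sg p • (pr h (F p) - pr h (F (p + 1)))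

/-- the Hodge metric -/
noncomputable def hodge (h : E →L⋆[ℂ] E →L[ℂ] ℂ) (a b : ℤ) (F : ℤ → Submodule ℂ E) (u v : E) : ℂ :=
  h (weil h a b F u) v

theorem sg_re_mul (p : ℤ) (z : ℂ) : (sg p * z).re = (-1 : ℝ) ^ p * z.re := by
  have : sg p = (((-1 : ℝ) ^ p : ℝ) : ℂ) := by
    unfold sg
    push_cast
    rfl
  rw [this, Complex.re_ofReal_mul]

end Hodge

namespace Fil

variable {E : Type*} [NormedAddCommGroup E] [NormedSpace ℂ E] [FiniteDimensional ℂ E]
  {h : E →L⋆[ℂ] E →L[ℂ] ℂ} {a b : ℤ} {F : ℤ → Submodule ℂ E} (X : Fil h a b F)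

include X

theorem pi_self_adj (p : ℤ) (x y : E) :
    h ((pr h (F p) - pr h (F (p + 1))) x) y = h x ((pr h (F p) - pr h (F (p + 1))) y) := by
  simp only [sub_apply, map_sub, X.self_adj]

theorem pi_idem (p : ℤ) (x : E) :
    (pr h (F p) - pr h (F (p + 1))) ((pr h (F p) - pr h (F (p + 1))) x) =
      (pr h (F p) - pr h (F (p + 1))) x := by
  have h1 : (pr h (F p) - pr h (F (p + 1))) * (pr h (F p) - pr h (F (p + 1))) =
      pr h (F p) - pr h (F (p + 1)) := by
    rw [sub_mul, mul_sub, mul_sub, X.pr_mul, X.pr_mul, X.pr_mul, X.pr_mul, max_self, max_self,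
      max_eq_right (by omega : p ≤ p + 1), max_eq_left (by omega : p ≤ p + 1)]
    abel
  exact congrArg (fun T : E →L[ℂ] E => T x) h1

theorem pi_mem (p : ℤ) (x : E) : (pr h (F p) - pr h (F (p + 1))) x ∈ F p :=
  Submodule.sub_mem _ (X.mem p x) (X.anti (by omega) (X.mem (p + 1) x))

theorem pi_orth (p : ℤ) (x : E) : ∀ v ∈ F (p + 1),
    h ((pr h (F p) - pr h (F (p + 1))) x) v = 0 := by
  intro v hv
  rw [X.pi_self_adj, sub_apply, X.fix hv, X.fix (X.anti (by omega : p ≤ p + 1) hv), sub_self,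
    map_zero]

theorem sum_pi (x : E) :
    ∑ p ∈ Finset.Ico a b, (pr h (F p) - pr h (F (p + 1))) x = x := by
  have h1 := sum_Ico_telescope (fun p => pr h (F p)) X.hab
  rw [X.pr_top, X.pr_bot, sub_zero] at h1
  have h2 := congrArg (fun T : E →L[ℂ] E => T x) h1
  simp only [sum_apply] at h2
  exact h2

theorem hodge_self_re (u : E) : (hodge h a b F u u).re =
    ∑ p ∈ Finset.Ico a b, (-1 : ℝ) ^ p *
      (h ((pr h (F p) - pr h (F (p + 1))) u) ((pr h (F p) - pr h (F (p + 1))) u)).re := by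
  unfold hodge weil
  simp only [sum_apply, map_sum, smul_apply, map_smulₛₗ, Complex.re_sum]
  refine Finset.sum_congr rfl fun p _ => ?_
  rw [smul_eq_mul, sg_conj, sg_re_mul, ← X.pi_self_adj, X.pi_idem]

theorem term_nonneg (p : ℤ) (u : E) : 0 ≤ (-1 : ℝ) ^ p *
      (h ((pr h (F p) - pr h (F (p + 1))) u) ((pr h (F p) - pr h (F (p + 1))) u)).re := by
  by_cases h0 : (pr h (F p) - pr h (F (p + 1))) u = 0
  · rw [h0]
    simp
  · exact (X.hr p _ (X.pi_mem p u) (X.pi_orth p u) h0).le

theorem hodge_pos {u : E} (hu : u ≠ 0) : 0 < (hodge h a b F u u).re := by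
  rw [X.hodge_self_re]
  have h1 : ∃ p ∈ Finset.Ico a b, (pr h (F p) - pr h (F (p + 1))) u ≠ 0 := by
    by_contra hcon
    push Not at hcon
    apply hu
    rw [← X.sum_pi u]
    exact Finset.sum_eq_zero hcon
  obtain ⟨p, hp, hp2⟩ := h1
  exact Finset.sum_pos' (fun p _ => X.term_nonneg p u)
    ⟨p, hp, X.hr p _ (X.pi_mem p u) (X.pi_orth p u) hp2⟩

theorem weil_self_adj (u v : E) : h (weil h a b F u) v = h u (weil h a b F v) := by
  unfold weil
  simp only [sum_apply, map_sum, smul_apply, map_smulₛₗ]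
  refine Finset.sum_congr rfl fun p _ => ?_
  rw [X.pi_self_adj, sg_conj]
  simp

theorem hodge_conj (u v : E) : conj (hodge h a b F v u) = hodge h a b F u v := by
  unfold hodge
  rw [← X.herm, ← X.weil_self_adj]

/-- the inner product space structure given by the Hodge metric -/
@[instance_reducible]
noncomputable def core : InnerProductSpace.Core ℂ E where
  inner := hodge h a b F
  conj_inner_symm u v := X.hodge_conj u v
  re_inner_nonneg u := by
    by_cases hu : u = 0
    · rw [hu]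
      unfold hodge
      simp
    · exact (X.hodge_pos hu).le
  add_left u v w := by
    show hodge h a b F (u + v) w = hodge h a b F u w + hodge h a b F v w
    unfold hodge
    simp
  smul_left u v r := by
    show hodge h a b F (r • u) v = conj r * hodge h a b F u v
    unfold hodge
    simp
  definite u hu := by
    by_contra hne
    have h1 := X.hodge_pos hne
    have h2 : hodge h a b F u u = 0 := hu
    rw [h2] at h1
    simp at h1

end Fil

theorem exists_isometry {V : Type*} [AddCommGroup V] [Module ℂ V] [FiniteDimensional ℂ V]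
    (core : InnerProductSpace.Core ℂ V) :
    ∃ e : V ≃ₗ[ℂ] EuclideanSpace ℂ (Fin (Module.finrank ℂ V)),
      ∀ u v, ⟪e u, e v⟫_ℂ = core.inner u v := by
  let _ := core.toNormedAddCommGroup
  let _ := InnerProductSpace.ofCore core.toCore
  exact ⟨(stdOrthonormalBasis ℂ V).repr.toLinearEquiv,
    fun u v => (stdOrthonormalBasis ℂ V).repr.inner_map_map u v⟩

end Pool.Agent.H25.GW
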