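import Mathlib
import Pool.Agent.H25.GW.Hodge

/-!
# The Hodge metric of a nearby filtration in terms of the operator `hodgeOp`
-/

open Filter Topology ComplexConjugate
open scoped InnerProductSpace

namespace Pool.Agent.H25.GW

variable {E : Type*} [NormedAddCommGroup E] [NormedSpace ℂ E] [FiniteDimensional ℂ E]
  {𝔼 : Type*} [NormedAddCommGroup 𝔼] [InnerProductSpace ℂ 𝔼] [FiniteDimensional ℂ 𝔼]

/-- conjugation of operators -/
noncomputable def cj (e : E ≃L[ℂ] 𝔼) (T : E →L[ℂ] E) : 𝔼 →L[ℂ] 𝔼 :=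
  (e : E →L[ℂ] 𝔼) ∘L T ∘L (e.symm : 𝔼 →L[ℂ] E)

omit [FiniteDimensional ℂ E] [FiniteDimensional ℂ 𝔼] in
theorem cj_apply (e : E ≃L[ℂ] 𝔼) (T : E →L[ℂ] E) (x : 𝔼) : cj e T x = e (T (e.symm x)) := rfl

omit [FiniteDimensional ℂ E] [FiniteDimensional ℂ 𝔼] in
theorem cj_mul (e : E ≃L[ℂ] 𝔼) (A B : E →L[ℂ] E) : cj e (A * B) = cj e A * cj e B := by
  ext x
  simp [cj_apply]

omit [FiniteDimensional ℂ E] [FiniteDimensional ℂ 𝔼] in
theorem cj_one (e : E ≃L[ℂ] 𝔼) : cj e 1 = 1 := by
  ext x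
  simp [cj_apply]

/-- conjugation as a continuous linear map -/
noncomputable def cjL (e : E ≃L[ℂ] 𝔼) : (E →L[ℂ] E) →L[ℂ] (𝔼 →L[ℂ] 𝔼) :=
  LinearMap.toContinuousLinearMap
    { toFun := cj e
      map_add' := by
        intro A B
        ext x
        simp [cj_apply]
      map_smul' := by
        intro r A
        ext x
        simp [cj_apply] }

omit [FiniteDimensional ℂ 𝔼] in
theorem cjL_apply (e : E ≃L[ℂ] 𝔼) (T : E →L[ℂ] E) : cjL e T = cj e T := rfl

omit [FiniteDimensional ℂ E] [FiniteDimensional ℂ 𝔼] in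
theorem cj_injective (e : E ≃L[ℂ] 𝔼) {A B : E →L[ℂ] E} (h : cj e A = cj e B) : A = B := by
  ext x
  have := congrArg (fun T : 𝔼 →L[ℂ] 𝔼 => T (e x)) h
  simp only [cj_apply, ContinuousLinearEquiv.symm_apply_apply] at this
  exact e.injective this

namespace Fil

variable {h : E →L⋆[ℂ] E →L[ℂ] ℂ} {a b : ℤ} {F : ℤ → Submodule ℂ E} (X : Fil h a b F)
  {e : E ≃L[ℂ] 𝔼} (he : ∀ u v, ⟪e u, e v⟫_ℂ = hodge h a b F u v)

/-- the family of projections -/
noncomputable def fam (h : E →L⋆[ℂ] E →L[ℂ] ℂ) (F : ℤ → Submodule ℂ E) (e : E ≃L[ℂ] 𝔼) (p : ℤ) :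
    𝔼 →L[ℂ] 𝔼 := cj e (pr h (F p))

include X

theorem weil_comm (p : ℤ) : weil h a b F * pr h (F p) = pr h (F p) * weil h a b F := by
  unfold weil
  rw [Finset.sum_mul, Finset.mul_sum]
  refine Finset.sum_congr rfl fun r _ => ?_
  rw [smul_mul_assoc, mul_smul_comm, sub_mul, mul_sub, X.pr_mul, X.pr_mul, X.pr_mul, X.pr_mul,
    max_comm r p, max_comm (r + 1) p]

theorem hodge_pr (p : ℤ) (u v : E) :
    hodge h a b F (pr h (F p) u) v = hodge h a b F u (pr h (F p) v) := by
  unfold hodge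
  have h1 : weil h a b F (pr h (F p) u) = pr h (F p) (weil h a b F u) :=
    congrArg (fun T : E →L[ℂ] E => T u) (X.weil_comm p)
  rw [h1, X.self_adj]

include he in
theorem pfam : PFam a b (fam h F e) where
  hab := X.hab
  mul p r := by
    unfold fam
    rw [← cj_mul, X.pr_mul]
  star p := by
    refine (ContinuousLinearMap.eq_adjoint_iff _ _).2 ?_ |>.symm
    intro x y
    obtain ⟨x, rfl⟩ := e.surjective x
    obtain ⟨y, rfl⟩ := e.surjective y
    unfold fam
    rw [cj_apply, cj_apply, e.symm_apply_apply, e.symm_apply_apply, he, he, X.hodge_pr]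
  top := by
    unfold fam
    rw [X.pr_top, cj_one]
  bot := by
    unfold fam
    rw [X.pr_bot]
    ext x
    simp [cj_apply]

omit X in
theorem cj_weil (e : E ≃L[ℂ] 𝔼) : cj e (weil h a b F) = PFam.c a b (fam h F e) := by
  unfold weil PFam.c PFam.e fam
  simp only [← cjL_apply, map_sum, map_smul, map_sub]

include he in
theorem weil_sq : weil h a b F * weil h a b F = 1 := by
  apply cj_injective e
  rw [cj_mul, cj_weil, (X.pfam he).c_mul_c, cj_one]

include he in
theorem h_eq (u v : E) : h u v = ⟪PFam.c a b (fam h F e) (e u), e v⟫_ℂ := by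
  rw [← cj_weil, cj_apply, e.symm_apply_apply, he]
  unfold hodge
  have h1 : weil h a b F (weil h a b F u) = u :=
    congrArg (fun T : E →L[ℂ] E => T u) (X.weil_sq he)
  rw [h1]

include he in
theorem h_dag (T : 𝔼 →L[ℂ] 𝔼) (u v : E) :
    h u (e.symm (T (e v))) = h (e.symm (dag (PFam.c a b (fam h F e)) T (e u))) v := by
  set c := PFam.c a b (fam h F e) with hc
  rw [X.h_eq he, X.h_eq he, e.apply_symm_apply, e.apply_symm_apply, ← hc]
  have h1 : c (dag c T (e u)) = star T (c (e u)) := by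
    have h2 : c * dag c T = star T * c := by
      unfold dag
      rw [← mul_assoc, ← mul_assoc, hc, (X.pfam he).c_mul_c, one_mul]
    exact congrArg (fun T : 𝔼 →L[ℂ] 𝔼 => T (e u)) h2
  rw [h1]
  exact (ContinuousLinearMap.adjoint_inner_left T (e v) (c (e u))).symm

include he in
/-- The projection onto a nearby subspace. -/
theorem isPr_phi {p : ℤ} {g : E →L[ℂ] E}
    (hu : IsUnit (cm (PFam.c a b (fam h F e)) (fam h F e p) (cj e g))) :
    IsPr h ((F p).map (g : E →ₗ[ℂ] E))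
      ((e.symm : 𝔼 →L[ℂ] E) ∘L phi (PFam.c a b (fam h F e)) (fam h F e p) (cj e g) ∘L
        (e : E →L[ℂ] 𝔼)) := by
  have PF := X.pfam he
  set c := PFam.c a b (fam h F e) with hc
  set q := fam h F e p with hq
  set T := cj e g with hT
  have hphi := phi_mul (c := c) (PF.idem p) T hu
  have hdag := dag_phi PF.c_mul_c PF.star_c (PF.dag_q p) T hu
  constructor
  · intro x
    refine ⟨pr h (F p) (e.symm ((Ring.inverse (cm c q T) * q * dag c T) (e x))), X.mem p _, ?_⟩
    show g _ = e.symm (phi c q T (e x))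
    have h1 : phi c q T = T * q * (Ring.inverse (cm c q T) * q * dag c T) := by
      unfold phi
      simp only [mul_assoc]
    rw [h1]
    show _ = e.symm (T (q ((Ring.inverse (cm c q T) * q * dag c T) (e x))))
    rw [hT, hq, cj_apply, e.symm_apply_apply]
    unfold fam
    rw [cj_apply, e.symm_apply_apply]
  · intro x y hy
    obtain ⟨y₀, hy₀, rfl⟩ := hy
    rw [map_sub, sub_eq_zero]
    show h (g y₀) x = h (g y₀) (e.symm (phi c q T (e x)))
    rw [X.h_dag he, ← hc, hdag]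
    have h1 : e (g y₀) = (T * q) (e y₀) := by
      show _ = T (q (e y₀))
      rw [hT, hq]
      unfold fam
      rw [cj_apply, cj_apply, e.symm_apply_apply, e.symm_apply_apply, X.fix hy₀]
    have h2 : phi c q T (e (g y₀)) = e (g y₀) := by
      rw [h1]
      exact congrArg (fun T : 𝔼 →L[ℂ] 𝔼 => T (e y₀)) hphi
    rw [h2, e.symm_apply_apply]

include he in
/-- The Hodge metric of a nearby filtration. -/
theorem hodge_near {F' : ℤ → Submodule ℂ E} (X' : Fil h a b F') {g : E →L[ℂ] E}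
    (hg : ∀ p, F' p = (F p).map (g : E →ₗ[ℂ] E))
    (hu : ∀ p ∈ Finset.Icc a b,
      IsUnit (cm (PFam.c a b (fam h F e)) (fam h F e p) (cj e g))) (u v : E) :
    hodge h a b F' u v = ⟪hodgeOp a b (fam h F e) (cj e g) (e u), e v⟫_ℂ := by
  set c := PFam.c a b (fam h F e) with hc
  have h1 : ∀ p ∈ Finset.Icc a b, cj e (pr h (F' p)) = phi c (fam h F e p) (cj e g) := by
    intro p hp
    have h2 := X.isPr_phi he (hu p hp)
    rw [← hg] at h2
    rw [← h2.unique (X'.nondeg p) (X'.isPr p)]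
    ext x
    rw [cj_apply]
    simp [hc]
  have h3 : cj e (weil h a b F') = ∑ p ∈ Finset.Ico a b,
      sg p • (phi c (fam h F e p) (cj e g) - phi c (fam h F e (p + 1)) (cj e g)) := by
    unfold weil
    simp only [← cjL_apply, map_sum, map_smul, map_sub]
    refine Finset.sum_congr rfl fun p hp => ?_
    rw [Finset.mem_Ico] at hp
    rw [cjL_apply, cjL_apply, cjL_apply, h1 p (by rw [Finset.mem_Icc]; omega),
      h1 (p + 1) (by rw [Finset.mem_Icc]; omega)]
  unfold hodge hodgeOp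
  rw [X.h_eq he, ← hc, ← h3]
  show _ = ⟪c (cj e (weil h a b F') (e u)), e v⟫_ℂ
  rw [cj_apply, e.symm_apply_apply]

end Fil

end Pool.Agent.H25.GW
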