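import Mathlib
import Pool.Agent.H25.GW.Transport
import Pool.Agent.H25.GW.Gram
import Pool.Agent.H25.GW.Base
import Pool.Agent.H64.GW.Core

/-!
# Flat subbundles of a polarized variation are stable under the Higgs field and its adjoint
-/

open scoped Manifold ContDiff Topology InnerProductSpace Matrix.Norms.Operator
open Laplacian ComplexConjugate Filter

namespace Pool.Agent.H25.GW

open Pool.Agent.H64.GW

section Norm

variable {𝒜 : Type*} [CStarAlgebra 𝒜] {a b : ℤ} {q : ℤ → 𝒜}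

/-- a bound for the grading operator -/
noncomputable def kap (a b : ℤ) : ℝ := ∑ p ∈ Finset.Ico a b, |((p - a : ℤ) : ℝ)| * 2

theorem kap_nonneg (a b : ℤ) : 0 ≤ kap a b := Finset.sum_nonneg fun _ _ => by positivity

theorem PFam.norm_q_le (h : PFam a b q) (p : ℤ) : ‖q p‖ ≤ 1 := by
  have h1 : ‖q p‖ * ‖q p‖ = ‖q p‖ := by
    rw [← CStarRing.norm_star_mul_self, h.star, h.idem]
  by_contra hcon
  push Not at hcon
  nlinarith

theorem PFam.norm_Y_le (h : PFam a b q) : ‖PFam.Y a b q‖ ≤ kap a b := by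
  unfold PFam.Y kap
  refine (norm_sum_le _ _).trans (Finset.sum_le_sum fun p _ => ?_)
  rw [norm_smul, Complex.norm_intCast]
  refine mul_le_mul_of_nonneg_left ?_ (abs_nonneg _)
  unfold PFam.e
  refine (norm_sub_le _ _).trans ?_
  have := h.norm_q_le p
  have := h.norm_q_le (p + 1)
  linarith

end Norm

section LinAlg

variable {E : Type*} [NormedAddCommGroup E] [NormedSpace ℂ E] [FiniteDimensional ℂ E]
  {𝔼 : Type*} [NormedAddCommGroup 𝔼] [InnerProductSpace ℂ 𝔼] [FiniteDimensional ℂ 𝔼]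

theorem exists_onb {m : ℕ} (W : Submodule ℂ E) (w : Module.Basis (Fin m) ℂ W) (e : E ≃L[ℂ] 𝔼) :
    ∃ (x : Fin m → 𝔼) (A : Matrix (Fin m) (Fin m) ℂ), Orthonormal ℂ x ∧
      Submodule.span ℂ (Set.range x) = W.map ((e : E →L[ℂ] 𝔼) : E →ₗ[ℂ] 𝔼) ∧ A.det ≠ 0 ∧
      ∀ i, e (w i) = ∑ k, A i k • x k := by
  set W' : Submodule ℂ 𝔼 := W.map (e.toLinearEquiv : E →ₗ[ℂ] 𝔼) with hW'
  set w' : Module.Basis (Fin m) ℂ W' := w.map (e.toLinearEquiv.submoduleMap W) with hw'
  have hfin : Module.finrank ℂ W' = m := by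
    rw [Module.finrank_eq_card_basis w', Fintype.card_fin]
  set onb : OrthonormalBasis (Fin m) ℂ W' := (stdOrthonormalBasis ℂ W').reindex (finCongr hfin)
    with honb
  refine ⟨fun k => (onb k : 𝔼), (onb.toBasis.toMatrix w').transpose, ?_, ?_, ?_, ?_⟩
  · exact onb.orthonormal.comp_linearIsometry W'.subtypeₗᵢ
  · have h1 : Set.range (fun k => (onb k : 𝔼)) = W'.subtype '' Set.range onb := by
      rw [← Set.range_comp]
      rfl
    have h2 : Submodule.span ℂ (Set.range onb) = ⊤ := by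
      have := onb.toBasis.span_eq
      rwa [OrthonormalBasis.coe_toBasis] at this
    rw [h1, Submodule.span_image, h2, Submodule.map_top, Submodule.range_subtype]
    rfl
  · rw [Matrix.det_transpose]
    have h2 := onb.toBasis.isUnit_det w'
    rw [Module.Basis.det_apply] at h2
    exact h2.ne_zero
  · intro i
    have h3 := onb.toBasis.sum_repr (w' i)
    have h4 := congrArg (W'.subtype) h3
    rw [map_sum] at h4
    have h5 : W'.subtype (w' i) = e (w i) := by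
      rw [hw', Module.Basis.map_apply]
      rfl
    rw [← h5, ← h4]
    refine Finset.sum_congr rfl fun k _ => ?_
    rw [map_smul, Matrix.transpose_apply, Module.Basis.toMatrix_apply]
    rw [OrthonormalBasis.coe_toBasis]
    rfl

omit [FiniteDimensional ℂ E] [FiniteDimensional ℂ 𝔼] in
theorem det_gram_change {m : ℕ} {u x : Fin m → 𝔼} {A : Matrix (Fin m) (Fin m) ℂ}
    (hA : ∀ i, u i = ∑ k, A i k • x k) (T : 𝔼 →L[ℂ] 𝔼) :
    (Matrix.of fun i j => ⟪T (u i), u j⟫_ℂ).det = ((‖A.det‖ ^ 2 : ℝ) : ℂ) * (gramM x T).det := by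
  have h1 : (Matrix.of fun i j => ⟪T (u i), u j⟫_ℂ) =
      (A.map conj) * gramM x T * A.transpose := by
    ext i j
    rw [Matrix.of_apply, hA i, hA j, Matrix.mul_apply, map_sum, sum_inner]
    simp only [inner_sum, map_smul, inner_smul_left, inner_smul_right, Matrix.mul_apply,
      Matrix.map_apply, Matrix.transpose_apply, gramM, Matrix.of_apply, Finset.sum_mul]
    rw [Finset.sum_comm]
    refine Finset.sum_congr rfl fun k _ => Finset.sum_congr rfl fun l _ => ?_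
    ring
  rw [h1, Matrix.det_mul, Matrix.det_mul, Matrix.det_transpose]
  have h2 : (A.map conj).det = conj A.det := (RingHom.map_det (starRingEnd ℂ) A).symm
  rw [h2]
  have h3 : conj A.det * A.det = ((‖A.det‖ ^ 2 : ℝ) : ℂ) := by
    rw [Complex.conj_mul']
    norm_cast
  rw [← h3]
  ring

end LinAlg

theorem lap_eq_laplacian {f : ℂ → ℝ} {z : ℂ} (hf : ContDiffAt ℝ 2 f z) : Δ f z = lap f z := by
  rw [laplacian_eq_fderiv, second_fderiv_apply hf, second_fderiv_apply hf]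
  rfl

theorem Fil.exists_iso {E : Type*} [NormedAddCommGroup E] [NormedSpace ℂ E]
    [FiniteDimensional ℂ E] {h : E →L⋆[ℂ] E →L[ℂ] ℂ} {a b : ℤ} {F : ℤ → Submodule ℂ E}
    (X : Fil h a b F) : ∃ e : E ≃L[ℂ] EuclideanSpace ℂ (Fin (Module.finrank ℂ E)),
      ∀ u v, ⟪e u, e v⟫_ℂ = hodge h a b F u v := by
  obtain ⟨e, he⟩ := exists_isometry X.core
  exact ⟨e.toContinuousLinearEquiv, he⟩

section Main

variable {𝕄 : Type} [NormedAddCommGroup 𝕄] [NormedSpace ℂ 𝕄]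
  {S : Type} [TopologicalSpace S] [ChartedSpace 𝕄 S]
  {Γ : Type} [Group Γ] [MulAction Γ S]
  {E : Type} [NormedAddCommGroup E] [NormedSpace ℂ E]

/-- uniform bounds for the Hodge filtration -/
structure Bounds (X : PolarizedVariation 𝕄 S Γ E) (a b : ℤ) : Prop where
  hab : a ≤ b
  top : ∀ s, X.F a s = ⊤
  bot : ∀ s, X.F b s = ⊥

variable {X : PolarizedVariation 𝕄 S Γ E} {a b : ℤ}

theorem Bounds.fil (hB : Bounds X a b) (s : S) : Fil X.h a b (fun p => X.F p s) where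
  hab := hB.hab
  herm := X.hermitian
  anti := X.antitone s
  top := hB.top s
  bot := hB.bot s
  hr := X.hodge_riemann s

variable [FiniteDimensional ℂ E]

theorem exists_bounds (X : PolarizedVariation 𝕄 S Γ E) [PreconnectedSpace S] [Nonempty S] :
    ∃ a b, Bounds X a b := by
  have : CompleteSpace E := FiniteDimensional.complete ℂ E
  obtain ⟨s₀⟩ := ‹Nonempty S›
  obtain ⟨a, ha⟩ := X.exists_eq_top s₀
  obtain ⟨b, hb⟩ := X.exists_eq_bot s₀
  refine ⟨min a b, b, min_le_right a b, fun s => ?_, fun s => ?_⟩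
  · have h1 : X.F (min a b) s₀ = ⊤ := by
      rw [eq_top_iff, ← ha]
      exact X.antitone s₀ (min_le_left a b)
    apply Submodule.eq_top_of_finrank_eq
    rw [X.finrank_const (min a b) s s₀, h1, finrank_top]
  · rw [← Submodule.finrank_eq_zero (R := ℂ), X.finrank_const b s s₀, hb, finrank_bot]

/-- a local frame of the variation -/
def IsFrame (X : PolarizedVariation 𝕄 S Γ E) (s₀ : S) (g : S → (E →L[ℂ] E)) : Prop :=
  g s₀ = ContinuousLinearMap.id ℂ E ∧
    ∀ᶠ s in 𝓝 s₀, MDifferentiableAt 𝓘(ℂ, 𝕄) 𝓘(ℂ, E →L[ℂ] E) g s ∧ IsUnit (g s) ∧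
      ∀ p, X.F p s = (X.F p s₀).map (g s : E →ₗ[ℂ] E)

variable {𝔼 : Type*} [NormedAddCommGroup 𝔼] [InnerProductSpace ℂ 𝔼] [FiniteDimensional ℂ 𝔼]
  {e : E ≃L[ℂ] 𝔼} {s₀ : S} {g : S → (E →L[ℂ] E)}

theorem hodge_local (hB : Bounds X a b)
    (he : ∀ u v, ⟪e u, e v⟫_ℂ = hodge X.h a b (fun p => X.F p s₀) u v) (hg : IsFrame X s₀ g) :
    ∀ᶠ s in 𝓝 s₀, ∀ u v, hodge X.h a b (fun p => X.F p s) u v =
      ⟪hodgeOp a b (Fil.fam X.h (fun p => X.F p s₀) e) (cj e (g s)) (e u), e v⟫_ℂ := by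
  have X₀ := hB.fil s₀
  have PF := X₀.pfam he
  have hcont : ContinuousAt (fun s => cj e (g s)) s₀ :=
    (cjL e).continuous.continuousAt.comp hg.2.self_of_nhds.1.continuousAt
  have hone : cj e (g s₀) = 1 := by
    rw [hg.1]
    exact cj_one e
  have hun : ∀ᶠ s in 𝓝 s₀, ∀ p ∈ Finset.Icc a b,
      IsUnit (cm (PFam.c a b (Fil.fam X.h (fun p => X.F p s₀) e))
        (Fil.fam X.h (fun p => X.F p s₀) e p) (cj e (g s))) := by
    rw [Filter.eventually_all_finset]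
    intro p _
    exact ev_unit PF.c_mul_c (PF.idem p) hcont hone
  filter_upwards [hg.2, hun] with s h1 h2 u v
  exact X₀.hodge_near he (hB.fil s) h1.2.2 h2 u v

/-- the Gram determinant of `w` for the Hodge metric -/
noncomputable def gd (X : PolarizedVariation 𝕄 S Γ E) (a b : ℤ) {m : ℕ} (w : Fin m → E) (s : S) :
    ℝ := (Matrix.of fun i j => hodge X.h a b (fun p => X.F p s) (w i) (w j)).det.re

theorem gd_local (hB : Bounds X a b)
    (he : ∀ u v, ⟪e u, e v⟫_ℂ = hodge X.h a b (fun p => X.F p s₀) u v) (hg : IsFrame X s₀ g)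
    {m : ℕ} {w : Fin m → E} {x : Fin m → 𝔼} {A : Matrix (Fin m) (Fin m) ℂ}
    (hA : ∀ i, e (w i) = ∑ k, A i k • x k) :
    ∀ᶠ s in 𝓝 s₀, gd X a b w s = ‖A.det‖ ^ 2 *
      (gramM x (hodgeOp a b (Fil.fam X.h (fun p => X.F p s₀) e) (cj e (g s)))).det.re := by
  filter_upwards [hodge_local hB he hg] with s hs
  unfold gd
  have h1 : (Matrix.of fun i j => hodge X.h a b (fun p => X.F p s) (w i) (w j)) =
      Matrix.of fun i j => ⟪hodgeOp a b (Fil.fam X.h (fun p => X.F p s₀) e) (cj e (g s)) (e (w i)),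
        e (w j)⟫_ℂ := by
    ext i j
    exact hs (w i) (w j)
  rw [h1, det_gram_change hA, Complex.re_ofReal_mul]

theorem gd_pos (hB : Bounds X a b)
    (he : ∀ u v, ⟪e u, e v⟫_ℂ = hodge X.h a b (fun p => X.F p s₀) u v) (hg : IsFrame X s₀ g)
    {m : ℕ} {w : Fin m → E} {x : Fin m → 𝔼} {A : Matrix (Fin m) (Fin m) ℂ}
    (hx : Orthonormal ℂ x) (hAd : A.det ≠ 0)
    (hA : ∀ i, e (w i) = ∑ k, A i k • x k) : 0 < gd X a b w s₀ := by
  rw [(gd_local hB he hg hA).self_of_nhds]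
  have hone : cj e (g s₀) = 1 := by
    rw [hg.1]
    exact cj_one e
  rw [hone, hodgeOp_one ((hB.fil s₀).pfam he), gramM_one hx, Matrix.det_one, Complex.one_re,
    mul_one]
  have := norm_pos_iff.2 hAd
  positivity

/-- the potential -/
noncomputable def pt (X : PolarizedVariation 𝕄 S Γ E) (a b : ℤ) {m : ℕ} (w : Fin m → E) (c : ℝ)
    (s : S) : ℝ := -(gd X a b w s) ^ (-c)

theorem pt_local (hB : Bounds X a b)
    (he : ∀ u v, ⟪e u, e v⟫_ℂ = hodge X.h a b (fun p => X.F p s₀) u v) (hg : IsFrame X s₀ g)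
    {m : ℕ} {w : Fin m → E} {x : Fin m → 𝔼} {A : Matrix (Fin m) (Fin m) ℂ}
    (hx : Orthonormal ℂ x) (hA : ∀ i, e (w i) = ∑ k, A i k • x k) (c : ℝ) :
    (∀ᶠ s in 𝓝 s₀, 0 <
      (gramM x (hodgeOp a b (Fil.fam X.h (fun p => X.F p s₀) e) (cj e (g s)))).det.re) ∧
    ContinuousAt (fun s =>
      (gramM x (hodgeOp a b (Fil.fam X.h (fun p => X.F p s₀) e) (cj e (g s)))).det.re) s₀ ∧
    ∀ᶠ s in 𝓝 s₀, pt X a b w c s = -(((‖A.det‖ ^ 2 : ℝ) ^ (-c)) *
      ((gramM x (hodgeOp a b (Fil.fam X.h (fun p => X.F p s₀) e) (cj e (g s)))).det.re ^ (-c)))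
      := by
  have PF := (hB.fil s₀).pfam he
  have hone : cj e (g s₀) = 1 := by
    rw [hg.1]
    exact cj_one e
  have hcont : ContinuousAt (fun s => cj e (g s)) s₀ :=
    (cjL e).continuous.continuousAt.comp hg.2.self_of_nhds.1.continuousAt
  have h1 : ContinuousAt (fun T : 𝔼 →L[ℂ] 𝔼 =>
      (gramM x (hodgeOp a b (Fil.fam X.h (fun p => X.F p s₀) e) T)).det.re) 1 := by
    have h2 : ContDiffAt ℝ 0 (fun T : 𝔼 →L[ℂ] 𝔼 =>
      hodgeOp a b (Fil.fam X.h (fun p => X.F p s₀) e) T) 1 :=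
      contDiffAt_hodgeOp PF contDiffAt_id rfl
    have h3 : Continuous (fun T : 𝔼 →L[ℂ] 𝔼 => (gramM x T).det.re) := by
      have h4 : Continuous (fun M : Matrix (Fin m) (Fin m) ℂ => M.det) := continuous_id.matrix_det
      exact Complex.continuous_re.comp (h4.comp (gramL x).continuous)
    exact h3.continuousAt.comp h2.continuousAt
  have h5 : ContinuousAt (fun s =>
      (gramM x (hodgeOp a b (Fil.fam X.h (fun p => X.F p s₀) e) (cj e (g s)))).det.re) s₀ := by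
    rw [← hone] at h1
    exact ContinuousAt.comp (f := fun s => cj e (g s)) h1 hcont
  have h6 : ∀ᶠ s in 𝓝 s₀, 0 <
      (gramM x (hodgeOp a b (Fil.fam X.h (fun p => X.F p s₀) e) (cj e (g s)))).det.re := by
    apply h5.eventually_const_lt
    beta_reduce
    rw [hone, hodgeOp_one PF, gramM_one hx, Matrix.det_one, Complex.one_re]
    exact one_pos
  refine ⟨h6, h5, ?_⟩
  filter_upwards [h6, gd_local hB he hg hA] with s h7 h8
  unfold pt
  rw [h8, Real.mul_rpow (by positivity) h7.le]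

theorem pt_continuous (hB : Bounds X a b) {m : ℕ} (W : Submodule ℂ E)
    (w : Module.Basis (Fin m) ℂ W) (c : ℝ) :
    Continuous (pt X a b (fun i => (w i : E)) c) := by
  have : CompleteSpace E := FiniteDimensional.complete ℂ E
  rw [continuous_iff_continuousAt]
  intro s₀
  obtain ⟨e, he⟩ := (hB.fil s₀).exists_iso
  obtain ⟨g, hg⟩ := X.exists_local s₀
  obtain ⟨x, A, hx, -, hAd, hA⟩ := exists_onb W w e
  obtain ⟨h1, h2, h3⟩ := pt_local hB he hg hx hA c
  refine ContinuousAt.congr ?_ (EventuallyEq.symm h3)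
  exact (continuousAt_const.mul (h2.rpow_const (Or.inl h1.self_of_nhds.ne'))).neg

theorem pt_neg (hB : Bounds X a b) {m : ℕ} (W : Submodule ℂ E)
    (w : Module.Basis (Fin m) ℂ W) (c : ℝ) (s : S) : pt X a b (fun i => (w i : E)) c s < 0 := by
  have : CompleteSpace E := FiniteDimensional.complete ℂ E
  obtain ⟨e, he⟩ := (hB.fil s).exists_iso
  obtain ⟨g, hg⟩ := X.exists_local s
  obtain ⟨x, A, hx, -, hAd, hA⟩ := exists_onb W w e
  have h1 := gd_pos hB he hg hx hAd hA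
  unfold pt
  have h2 := Real.rpow_pos_of_pos h1 (-c)
  linarith

/-- Griffiths transversality for a frame -/
theorem frame_griffiths (hB : Bounds X a b)
    (he : ∀ u v, ⟪e u, e v⟫_ℂ = hodge X.h a b (fun p => X.F p s₀) u v) (hg : IsFrame X s₀ g)
    {φ : ℂ → S} {z₀ : ℂ} (hφ : ∀ᶠ z in 𝓝 z₀, MDifferentiableAt 𝓘(ℂ) 𝓘(ℂ, 𝕄) φ z)
    (hφ0 : φ z₀ = s₀) :
    (∀ᶠ z in 𝓝 z₀, DifferentiableAt ℂ (fun z => cj e (g (φ z))) z) ∧
    ∀ p, (1 - Fil.fam X.h (fun p => X.F p s₀) e (p - 1)) *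
      deriv (fun z => cj e (g (φ z))) z₀ * Fil.fam X.h (fun p => X.F p s₀) e p = 0 := by
  subst hφ0
  have : CompleteSpace E := FiniteDimensional.complete ℂ E
  have hcont : ContinuousAt φ z₀ := hφ.self_of_nhds.continuousAt
  have hev : ∀ᶠ z in 𝓝 z₀, MDifferentiableAt 𝓘(ℂ) 𝓘(ℂ, 𝕄) φ z ∧
      DifferentiableAt ℂ (fun z => g (φ z)) z ∧
      ∀ p, X.F p (φ z) = (X.F p (φ z₀)).map (g (φ z) : E →ₗ[ℂ] E) := by
    have h1 := hcont.eventually hg.2
    filter_upwards [hφ, h1] with z h2 h3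
    refine ⟨h2, ?_, h3.2.2⟩
    have h6 : MDifferentiableAt 𝓘(ℂ) 𝓘(ℂ, E →L[ℂ] E) (g ∘ φ) z := h3.1.comp z h2
    exact mdifferentiableAt_iff_differentiableAt.1 h6
  have hd : ∀ᶠ z in 𝓝 z₀, DifferentiableAt ℂ (fun z => cj e (g (φ z))) z := by
    filter_upwards [hev] with z hz
    exact (cjL e).differentiableAt.comp z hz.2.1
  refine ⟨hd, fun p => ?_⟩
  have X₀ := hB.fil (φ z₀)
  have h1 : deriv (fun z => cj e (g (φ z))) z₀ = cj e (deriv (fun z => g (φ z)) z₀) := by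
    have h2 := (cjL e).hasFDerivAt.comp_hasDerivAt z₀ hev.self_of_nhds.2.1.hasDerivAt
    exact h2.deriv
  ext y
  obtain ⟨y, rfl⟩ := e.surjective y
  set y₀ := pr X.h (X.F p (φ z₀)) y with hy₀
  have hy₀m : y₀ ∈ X.F p (φ z₀) := X₀.mem p y
  have h3 : deriv (fun z => g (φ z)) z₀ y₀ ∈ X.F (p - 1) (φ z₀) := by
    have h4 := X.griffiths p φ (fun z => g (φ z) y₀) z₀ (by
      filter_upwards [hev] with z hz
      refine ⟨hz.1, hz.2.1.clm_apply (differentiableAt_const y₀), ?_⟩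
      rw [hz.2.2]
      exact Submodule.mem_map_of_mem hy₀m)
    have h5 : deriv (fun z => g (φ z) y₀) z₀ = deriv (fun z => g (φ z)) z₀ y₀ := by
      have h6 := hev.self_of_nhds.2.1.hasDerivAt.clm_apply (hasDerivAt_const z₀ y₀)
      rw [h6.deriv]
      simp
    rwa [h5] at h4
  rw [h1]
  show (1 - Fil.fam X.h (fun p => X.F p (φ z₀)) e (p - 1)) (cj e (deriv (fun z => g (φ z)) z₀)
    (Fil.fam X.h (fun p => X.F p (φ z₀)) e p (e y))) = 0
  unfold Fil.fam
  rw [cj_apply e (pr X.h (X.F p (φ z₀))), e.symm_apply_apply, cj_apply, e.symm_apply_apply, sub_apply,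
    cj_apply, e.symm_apply_apply, ← hy₀, X₀.fix h3]
  simp

theorem pt_disc (hB : Bounds X a b)
    (he : ∀ u v, ⟪e u, e v⟫_ℂ = hodge X.h a b (fun p => X.F p s₀) u v) (hg : IsFrame X s₀ g)
    {m : ℕ} {w : Fin m → E} {x : Fin m → 𝔼} {A : Matrix (Fin m) (Fin m) ℂ}
    (hx : Orthonormal ℂ x) (hAd : A.det ≠ 0) (hA : ∀ i, e (w i) = ∑ k, A i k • x k)
    {c : ℝ} (hc : 0 < c) (hcK : 8 * c * m * (kap a b) ^ 2 ≤ 1)
    {φ : ℂ → S} {z₀ : ℂ} (hφ : ∀ᶠ z in 𝓝 z₀, MDifferentiableAt 𝓘(ℂ) 𝓘(ℂ, 𝕄) φ z)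
    (hφ0 : φ z₀ = s₀) :
    ContDiffAt ℝ ∞ (fun z => pt X a b w c (φ z)) z₀ ∧
    ∃ κ : ℝ, 0 < κ ∧ κ * ∑ i,
      (‖qq x (higgs a b (Fil.fam X.h (fun p => X.F p s₀) e)
        (deriv (fun z => cj e (g (φ z))) z₀) (x i))‖ ^ 2 +
      ‖qq x (star (higgs a b (Fil.fam X.h (fun p => X.F p s₀) e)
        (deriv (fun z => cj e (g (φ z))) z₀)) (x i))‖ ^ 2) ≤
      lap (fun z => pt X a b w c (φ z)) z₀ := by
  subst hφ0
  obtain ⟨hd, hgr⟩ := frame_griffiths hB he hg hφ rfl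
  set q := Fil.fam X.h (fun p => X.F p (φ z₀)) e with hq
  set T : ℂ → 𝔼 →L[ℂ] 𝔼 := fun z => cj e (g (φ z)) with hT
  have PF : PFam a b q := (hB.fil (φ z₀)).pfam he
  have hT1 : T z₀ = 1 := by
    simp only [hT]
    rw [hg.1]
    exact cj_one e
  set N : ℂ → 𝔼 →L[ℂ] 𝔼 := fun z => hodgeOp a b q (T z) with hN
  have hNC : ∀ {n : WithTop ℕ∞}, n ≤ ((⊤ : ℕ∞) : WithTop ℕ∞) → ContDiffAt ℝ n N z₀ :=
    fun hn => contDiffAt_hodgeOp PF (contDiffAt_holo hd hn) hT1
  have hN1 : N z₀ = 1 := by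
    simp only [hN]
    rw [hT1, hodgeOp_one PF]
  obtain ⟨v1, v2⟩ := hodgeOp_variation PF hd hT1 hgr
  obtain ⟨h1, h2, h3⟩ := pt_local hB he hg hx hA c
  have hcont : ContinuousAt φ z₀ := hφ.self_of_nhds.continuousAt
  have h4 : (fun z => pt X a b w c (φ z)) =ᶠ[𝓝 z₀] fun z =>
      -(((‖A.det‖ ^ 2 : ℝ) ^ (-c)) * ((gramM x (N z)).det.re ^ (-c))) :=
    hcont.eventually h3
  have hdC : ∀ {n : WithTop ℕ∞}, n ≤ ((⊤ : ℕ∞) : WithTop ℕ∞) →
      ContDiffAt ℝ n (fun z => (gramM x (N z)).det.re) z₀ := by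
    intro n hn
    have h5 : ContDiffAt ℝ n (fun z => gramL x (N z)) z₀ :=
      (gramL x).contDiff.contDiffAt.comp z₀ (hNC hn)
    have h6 : ContDiffAt ℝ n (fun z => (gramL x (N z)).det) z₀ :=
      ((contDiff_det (n := n)).restrict_scalars ℝ).contDiffAt.comp z₀ h5
    exact Complex.reCLM.contDiff.contDiffAt.comp z₀ h6
  have hd1 : (gramM x (N z₀)).det.re = 1 := by
    rw [hN1, gramM_one hx, Matrix.det_one, Complex.one_re]
  have hfC : ∀ {n : WithTop ℕ∞}, n ≤ ((⊤ : ℕ∞) : WithTop ℕ∞) →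
      ContDiffAt ℝ n (fun z => (gramM x (N z)).det.re ^ (-c)) z₀ := by
    intro n hn
    exact (hdC hn).rpow_const_of_ne (by rw [hd1]; exact one_ne_zero)
  set κ₀ : ℝ := (‖A.det‖ ^ 2 : ℝ) ^ (-c) with hκ₀
  have hκ₀p : 0 < κ₀ := Real.rpow_pos_of_pos (by have := norm_pos_iff.2 hAd; positivity) _
  have hcK' : 8 * c * Fintype.card (Fin m) * ‖PFam.Y a b q‖ ^ 2 ≤ 1 := by
    refine le_trans ?_ hcK
    rw [Fintype.card_fin]
    have h7 := PF.norm_Y_le
    have h8 : ‖PFam.Y a b q‖ ^ 2 ≤ kap a b ^ 2 := pow_le_pow_left₀ (norm_nonneg _) h7 2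
    exact mul_le_mul_of_nonneg_left h8 (by positivity)
  have hlap := gram_lap hx (hNC (by norm_cast)) hN1 v1 v2 PF.star_Y (Y_higgs PF) hc hcK'
  constructor
  · exact ((contDiffAt_const.mul (hfC le_rfl)).neg).congr_of_eventuallyEq h4
  · refine ⟨4 * c * κ₀, by positivity, ?_⟩
    rw [lap_congr h4]
    have h9 : lap (fun z => -(κ₀ * ((gramM x (N z)).det.re ^ (-c)))) z₀ =
        -(κ₀ * lap (fun z => (gramM x (N z)).det.re ^ (-c)) z₀) := by
      have hL : ∀ y : ℝ, ((-κ₀) • ContinuousLinearMap.id ℝ ℝ) y = -(κ₀ * y) := by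
        intro y
        simp
      have h10 : ∀ v, d2 v (fun z => -(κ₀ * ((gramM x (N z)).det.re ^ (-c)))) z₀ =
          -(κ₀ * d2 v (fun z => (gramM x (N z)).det.re ^ (-c)) z₀) := by
        intro v
        have := d2_clm (v := v) ((-κ₀) • ContinuousLinearMap.id ℝ ℝ)
          (hfC (n := 2) (by norm_cast))
        simpa only [hL] using this
      unfold lap
      rw [h10, h10]
      ring
    rw [h9]
    have h11 := mul_le_mul_of_nonneg_left hlap hκ₀p.le
    have h12 := neg_le_neg h11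
    refine le_trans (le_of_eq ?_) h12
    ring

theorem hodge_equiv (hB : Bounds X a b) (γ : Γ) (s : S) (u v : E) :
    hodge X.h a b (fun p => X.F p (γ • s)) (X.ρ γ u) (X.ρ γ v) =
      hodge X.h a b (fun p => X.F p s) u v := by
  set R : E ≃L[ℂ] E := (X.ρ γ).toContinuousLinearEquiv with hR
  have hRa : ∀ x, R x = X.ρ γ x := fun x => rfl
  have hinv : ∀ x y, X.h (R x) (R y) = X.h x y := fun x y => X.invariant γ x y
  have h1 : ∀ p, pr X.h (X.F p (γ • s)) =
      (R : E →L[ℂ] E) ∘L pr X.h (X.F p s) ∘L (R.symm : E →L[ℂ] E) := by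
    intro p
    refine IsPr.unique ((hB.fil (γ • s)).nondeg p) ((hB.fil (γ • s)).isPr p) ?_
    have h2 := (hB.fil s).isPr p
    constructor
    · intro x
      show R (pr X.h (X.F p s) (R.symm x)) ∈ X.F p (γ • s)
      rw [X.equivariant]
      exact Submodule.mem_map_of_mem (h2.1 _)
    · intro x y hy
      have hy' : y ∈ X.F p (γ • s) := hy
      rw [X.equivariant] at hy'
      obtain ⟨y₀, hy₀, rfl⟩ := hy'
      have h3 : x - ((R : E →L[ℂ] E) ∘L pr X.h (X.F p s) ∘L (R.symm : E →L[ℂ] E)) x =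
          R (R.symm x - pr X.h (X.F p s) (R.symm x)) := by
        rw [map_sub, R.apply_symm_apply]
        rfl
      rw [h3]
      exact (hinv _ _).trans (h2.2 _ _ hy₀)
  have h4 : ∀ x, weil X.h a b (fun p => X.F p (γ • s)) (R x) =
      R (weil X.h a b (fun p => X.F p s) x) := by
    intro x
    unfold weil
    simp only [sum_apply, smul_apply, sub_apply, map_sum, map_smul, map_sub, h1,
      ContinuousLinearMap.comp_apply, ContinuousLinearEquiv.coe_coe,
      ContinuousLinearEquiv.symm_apply_apply]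
  unfold hodge
  rw [← hRa, ← hRa, h4, hinv]

theorem pt_aut (hB : Bounds X a b) {m : ℕ} (W : Submodule ℂ E)
    (w : Module.Basis (Fin m) ℂ W) (c : ℝ) (γ : Γ) (hW : ∀ x ∈ W, X.ρ γ x ∈ W) :
    ∃ r : ℝ, ∀ s, pt X a b (fun i => (w i : E)) c (γ • s) =
      r * pt X a b (fun i => (w i : E)) c s := by
  set M : Matrix (Fin m) (Fin m) ℂ :=
    Matrix.of fun i k => w.repr ⟨X.ρ γ (w i), hW _ (w i).2⟩ k with hM
  have hM2 : ∀ i, X.ρ γ (w i) = ∑ k, M i k • (w k : E) := by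
    intro i
    have h1 := congrArg (W.subtype) (w.sum_repr ⟨X.ρ γ (w i), hW _ (w i).2⟩)
    rw [map_sum] at h1
    exact h1.symm
  have hgd : ∀ s, gd X a b (fun i => (w i : E)) s =
      ‖M.det‖ ^ 2 * gd X a b (fun i => (w i : E)) (γ • s) := by
    intro s
    obtain ⟨e, he⟩ := (hB.fil (γ • s)).exists_iso
    unfold gd
    have h1 : (Matrix.of fun i j => hodge X.h a b (fun p => X.F p s) (w i : E) (w j : E)) =
        Matrix.of fun i j => ⟪(1 : _ →L[ℂ] _) (e (X.ρ γ (w i))), e (X.ρ γ (w j))⟫_ℂ := by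
      ext i j
      simp only [Matrix.of_apply, one_apply_eq_self]
      rw [he, hodge_equiv hB]
    have h2 : (Matrix.of fun i j => hodge X.h a b (fun p => X.F p (γ • s)) (w i : E) (w j : E)) =
        gramM (fun k => e (w k : E)) 1 := by
      ext i j
      simp only [gramM, Matrix.of_apply, one_apply_eq_self]
      rw [he]
    rw [h1, h2, det_gram_change (x := fun k => e (w k : E)) (A := M) (fun i => by
      rw [hM2, map_sum]
      simp), Complex.re_ofReal_mul]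
  have hpos : ∀ s, 0 < gd X a b (fun i => (w i : E)) s := by
    intro s
    have h3 := pt_neg hB W w 1 s
    have : CompleteSpace E := FiniteDimensional.complete ℂ E
    obtain ⟨e, he⟩ := (hB.fil s).exists_iso
    obtain ⟨g, hg⟩ := X.exists_local s
    obtain ⟨x, A, hx, -, hAd, hA⟩ := exists_onb W w e
    exact gd_pos hB he hg hx hAd hA
  refine ⟨(‖M.det‖ ^ 2) ^ c, fun s => ?_⟩
  have h4 := hpos s
  have h5 := hpos (γ • s)
  have h6 : 0 < ‖M.det‖ ^ 2 := by
    rw [hgd s] at h4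
    exact (mul_pos_iff_of_pos_right h5).1 h4
  unfold pt
  rw [hgd s, Real.mul_rpow h6.le h5.le, Real.rpow_neg h6.le]
  have h7 : (‖M.det‖ ^ 2) ^ c ≠ 0 := (Real.rpow_pos_of_pos h6 c).ne'
  field_simp

theorem pt_psh (hB : Bounds X a b) {m : ℕ} (W : Submodule ℂ E)
    (w : Module.Basis (Fin m) ℂ W) {c : ℝ} (hc : 0 < c) (hcK : 8 * c * m * (kap a b) ^ 2 ≤ 1) :
    IsPSH 𝕄 (pt X a b (fun i => (w i : E)) c) := by
  have : CompleteSpace E := FiniteDimensional.complete ℂ E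
  have key : ∀ f : ℂ → S, IsDisc 𝕄 f → ∀ z ∈ Metric.ball (0 : ℂ) 1,
      ContDiffAt ℝ ∞ (pt X a b (fun i => (w i : E)) c ∘ f) z ∧
      0 ≤ lap (pt X a b (fun i => (w i : E)) c ∘ f) z := by
    intro f hf z hz
    obtain ⟨e, he⟩ := (hB.fil (f z)).exists_iso
    obtain ⟨g, hg⟩ := X.exists_local (f z)
    obtain ⟨x, A, hx, -, hAd, hA⟩ := exists_onb W w e
    have hf' : ∀ᶠ z' in 𝓝 z, MDifferentiableAt 𝓘(ℂ) 𝓘(ℂ, 𝕄) f z' := by
      filter_upwards [Metric.isOpen_ball.mem_nhds hz] with z' hz'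
      exact hf z' hz'
    obtain ⟨h1, κ, hκ, h2⟩ := pt_disc hB he hg hx hAd hA hc hcK hf' rfl
    exact ⟨h1, le_trans (mul_nonneg hκ.le (Finset.sum_nonneg fun _ _ => by positivity)) h2⟩
  refine ⟨pt_continuous hB W w c, fun f hf z hz => (key f hf z hz).1.contDiffWithinAt,
    fun f hf z hz => ?_⟩
  rw [lap_eq_laplacian ((key f hf z hz).1.of_le two_le_smooth)]
  exact (key f hf z hz).2

/-- **Stability theorem.** Over a base with the Liouville property, a flat subbundle which is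
stable under the monodromy is stable under the Higgs field and its adjoint for the Hodge
metric. -/
theorem stable (hB : Bounds X a b) (hL : IsLiouville 𝕄 S Γ) (W : Submodule ℂ E)
    (hW : ∀ γ : Γ, ∀ x ∈ W, X.ρ γ x ∈ W)
    (he : ∀ u v, ⟪e u, e v⟫_ℂ = hodge X.h a b (fun p => X.F p s₀) u v) (hg : IsFrame X s₀ g)
    {φ : ℂ → S} {z₀ : ℂ} (hφ : ∀ᶠ z in 𝓝 z₀, MDifferentiableAt 𝓘(ℂ) 𝓘(ℂ, 𝕄) φ z)
    (hφ0 : φ z₀ = s₀) :
    ∀ y ∈ W.map ((e : E →L[ℂ] 𝔼) : E →ₗ[ℂ] 𝔼),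
      higgs a b (Fil.fam X.h (fun p => X.F p s₀) e) (deriv (fun z => cj e (g (φ z))) z₀) y ∈
        W.map ((e : E →L[ℂ] 𝔼) : E →ₗ[ℂ] 𝔼) ∧
      star (higgs a b (Fil.fam X.h (fun p => X.F p s₀) e)
        (deriv (fun z => cj e (g (φ z))) z₀)) y ∈ W.map ((e : E →L[ℂ] 𝔼) : E →ₗ[ℂ] 𝔼) := by
  set m := Module.finrank ℂ W with hm
  set w : Module.Basis (Fin m) ℂ W := Module.finBasis ℂ W with hw
  set c : ℝ := 1 / (8 * (m + 1) * (kap a b ^ 2 + 1)) with hc
  have hcp : 0 < c := by positivity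
  have hcK : 8 * c * m * (kap a b) ^ 2 ≤ 1 := by
    have h1 : 8 * c * m * (kap a b) ^ 2 = (m * kap a b ^ 2) / ((m + 1) * (kap a b ^ 2 + 1)) := by
      rw [hc]
      field_simp
    rw [h1, div_le_one (by positivity)]
    have : (0 : ℝ) ≤ m := by positivity
    nlinarith [sq_nonneg (kap a b)]
  have hconst := hL _ (pt_psh hB W w hcp hcK) (pt_neg hB W w c)
    (fun γ => pt_aut hB W w c γ (hW γ))
  obtain ⟨x, A, hx, hspan, hAd, hA⟩ := exists_onb W w e
  obtain ⟨h1, κ, hκ, h2⟩ := pt_disc hB he hg hx hAd hA hcp hcK hφ hφ0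
  have h3 : lap (fun z => pt X a b (fun i => (w i : E)) c (φ z)) z₀ = 0 := by
    have h4 : (fun z => pt X a b (fun i => (w i : E)) c (φ z)) =
        fun _ => pt X a b (fun i => (w i : E)) c (φ z₀) := by
      funext z
      exact hconst _ _
    rw [h4]
    unfold lap
    rw [d2_const, d2_const, add_zero]
  rw [h3] at h2
  set Θ := higgs a b (Fil.fam X.h (fun p => X.F p s₀) e) (deriv (fun z => cj e (g (φ z))) z₀)
    with hΘ
  have h5 : ∑ i, (‖qq x (Θ (x i))‖ ^ 2 + ‖qq x (star Θ (x i))‖ ^ 2) = 0 := by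
    apply le_antisymm
    · by_contra hcon
      push Not at hcon
      have := mul_pos hκ hcon
      linarith
    · exact Finset.sum_nonneg fun _ _ => by positivity
  have h6 := (Finset.sum_eq_zero_iff_of_nonneg fun _ _ => by positivity).1 h5
  have h7 : ∀ i, Θ (x i) ∈ Submodule.span ℂ (Set.range x) ∧
      star Θ (x i) ∈ Submodule.span ℂ (Set.range x) := by
    intro i
    have h8 := h6 i (Finset.mem_univ i)
    have h9 : ‖qq x (Θ (x i))‖ ^ 2 = 0 := by
      have := sq_nonneg ‖qq x (Θ (x i))‖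
      have := sq_nonneg ‖qq x (star Θ (x i))‖
      linarith
    have h10 : ‖qq x (star Θ (x i))‖ ^ 2 = 0 := by
      have := sq_nonneg ‖qq x (Θ (x i))‖
      have := sq_nonneg ‖qq x (star Θ (x i))‖
      linarith
    exact ⟨mem_of_qq_eq_zero (norm_eq_zero.1 (pow_eq_zero_iff two_ne_zero |>.1 h9)),
      mem_of_qq_eq_zero (norm_eq_zero.1 (pow_eq_zero_iff two_ne_zero |>.1 h10))⟩
  intro y hy
  rw [← hspan] at hy ⊢
  constructor
  · induction hy using Submodule.span_induction with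
    | mem y hy =>
      obtain ⟨i, rfl⟩ := hy
      exact (h7 i).1
    | zero => rw [map_zero]; exact Submodule.zero_mem _
    | add u v _ _ hu hv => rw [map_add]; exact Submodule.add_mem _ hu hv
    | smul r u _ hu => rw [map_smul]; exact Submodule.smul_mem _ r hu
  · induction hy using Submodule.span_induction with
    | mem y hy =>
      obtain ⟨i, rfl⟩ := hy
      exact (h7 i).2
    | zero => rw [map_zero]; exact Submodule.zero_mem _
    | add u v _ _ hu hv => rw [map_add]; exact Submodule.add_mem _ hu hv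
    | smul r u _ hu => rw [map_smul]; exact Submodule.smul_mem _ r hu

end Main

end Pool.Agent.H25.GW
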