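import Mathlib
import Pool.Agent.H25.GW.Stable

/-!
# Linear algebra: the final contradiction at one point
-/

open scoped InnerProductSpace
open ComplexConjugate

namespace Pool.Agent.H25.GW

section Alg

variable {𝒜 : Type*} [CStarAlgebra 𝒜] {a b : ℤ} {q : ℤ → 𝒜} (h : PFam a b q) {g' : 𝒜}

include h

theorem higgs_mul_e (p : ℤ) : higgs a b q g' * PFam.e q p = PFam.e q (p - 1) * g' * PFam.e q p := by
  unfold higgs
  rw [Finset.sum_mul]
  by_cases hp : p ∈ Finset.Ico a b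
  · rw [Finset.sum_eq_single p]
    · rw [mul_assoc, h.e_mul_e, if_pos rfl]
    · intro r _ hr
      rw [mul_assoc, h.e_mul_e, if_neg hr, mul_zero]
    · intro h1
      exact absurd hp h1
  · rw [h.e_out hp]
    simp

theorem e_mul_higgs (p : ℤ) : PFam.e q (p - 1) * higgs a b q g' =
    PFam.e q (p - 1) * g' * PFam.e q p := by
  unfold higgs
  rw [Finset.mul_sum]
  by_cases hp : p ∈ Finset.Ico a b
  · rw [Finset.sum_eq_single p]
    · rw [← mul_assoc, ← mul_assoc, h.e_mul_e, if_pos rfl]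
    · intro r _ hr
      rw [← mul_assoc, ← mul_assoc, h.e_mul_e, if_neg (by omega)]
      simp
    · intro h1
      exact absurd hp h1
  · rw [h.e_out hp, mul_zero]
    refine Finset.sum_eq_zero fun r hr => ?_
    have : p ≠ r := by
      rintro rfl
      exact hp hr
    rw [← mul_assoc, ← mul_assoc, h.e_mul_e, if_neg (by omega)]
    simp

theorem higgs_e (p : ℤ) : higgs a b q g' * PFam.e q p = PFam.e q (p - 1) * higgs a b q g' := by
  rw [higgs_mul_e h, e_mul_higgs h]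

theorem higgs_q (k : ℤ) : higgs a b q g' * q k = q (k - 1) * higgs a b q g' := by
  have h1 : ∀ n : ℕ, higgs a b q g' * q (b + 1 - n) = q (b + 1 - n - 1) * higgs a b q g' := by
    intro n
    induction n with
    | zero =>
      rw [h.q_ge (by simp), h.q_ge (by simp)]
      simp
    | succ n ih =>
      have h2 := higgs_e h (g' := g') (b + 1 - ((n + 1 : ℕ) : ℤ))
      unfold PFam.e at h2
      have h3 : (b + 1 - ((n + 1 : ℕ) : ℤ) + 1) = b + 1 - (n : ℤ) := by push_cast; ring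
      have h4 : (b + 1 - ((n + 1 : ℕ) : ℤ) - 1 + 1) = b + 1 - (n : ℤ) - 1 := by push_cast; ring
      rw [h3, h4, mul_sub, sub_mul, ih] at h2
      exact sub_left_injective h2
  rcases le_or_gt k (b + 1) with hk | hk
  · have h2 := h1 (b + 1 - k).toNat
    have h3 : b + 1 - (((b + 1 - k).toNat : ℕ) : ℤ) = k := by
      rw [Int.toNat_of_nonneg (by omega)]
      ring
    rwa [h3] at h2
  · rw [h.q_ge (by omega), h.q_ge (by omega)]
    simp

theorem star_higgs_q (k : ℤ) : q k * star (higgs a b q g') = star (higgs a b q g') * q (k - 1) := by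
  have := congrArg star (higgs_q h (g' := g') k)
  rw [star_mul, star_mul, h.star, h.star] at this
  exact this

theorem star_higgs_e (k : ℤ) : PFam.e q k * star (higgs a b q g') =
    star (higgs a b q g') * PFam.e q (k - 1) := by
  have := congrArg star (higgs_e h (g' := g') k)
  rw [star_mul, star_mul, h.star_e, h.star_e] at this
  exact this

end Alg

section

variable {𝔼 : Type*} [NormedAddCommGroup 𝔼] [InnerProductSpace ℂ 𝔼] [FiniteDimensional ℂ 𝔼]
  {a b : ℤ} {q : ℤ → (𝔼 →L[ℂ] 𝔼)} (h : PFam a b q) {g' : 𝔼 →L[ℂ] 𝔼}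

include h in
/-- The final step: a vector `u` in degree `k - 1`, whose leading part is in the image of the
Higgs field and which lies in a submodule `R` stable under the adjoint of the Higgs field and
having nothing new in degree `k`, is trivial. -/
theorem finish (k : ℤ) (K R : Submodule ℂ 𝔼) (hKR : K ≤ R)
    (hΘK : ∀ x ∈ K, higgs a b q g' x ∈ K) (hΘR : ∀ x ∈ R, star (higgs a b q g') x ∈ R)
    (hRK : ∀ x ∈ R, q k x = x → x ∈ K) {u l : 𝔼} (hu : u ∈ R) (huq : q (k - 1) u = u)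
    (hul : u - q k u = higgs a b q g' l) : u ∈ K := by
  set Θ := higgs a b q g' with hΘ
  have c1 : ∀ x, Θ (q k x) = q (k - 1) (Θ x) := fun x =>
    congrArg (fun T : 𝔼 →L[ℂ] 𝔼 => T x) (higgs_q h (g' := g') k)
  have c2 : ∀ x, q k (star Θ x) = star Θ (q (k - 1) x) := fun x =>
    congrArg (fun T : 𝔼 →L[ℂ] 𝔼 => T x) (star_higgs_q h (g' := g') k)
  have c3 : ∀ x, Θ (q (k + 1) x) = q k (Θ x) := by
    intro x
    have := congrArg (fun T : 𝔼 →L[ℂ] 𝔼 => T x) (higgs_q h (g' := g') (k + 1))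
    rw [add_sub_cancel_right] at this
    exact this
  have c4 : ∀ x, star Θ (PFam.e q (k - 1) x) = PFam.e q k (star Θ x) := fun x =>
    (congrArg (fun T : 𝔼 →L[ℂ] 𝔼 => T x) (star_higgs_e h (g' := g') k)).symm
  have hqs : ∀ p x y, ⟪q p x, y⟫_ℂ = ⟪x, q p y⟫_ℂ := by
    intro p x y
    rw [← star_inner_left, h.star]
  -- the space of leading parts of `K`
  set M : Submodule ℂ 𝔼 := K ⊓ LinearMap.ker (((1 - q (k - 1) : 𝔼 →L[ℂ] 𝔼)) : 𝔼 →ₗ[ℂ] 𝔼) with hM
  set 𝓛 : Submodule ℂ 𝔼 := M.map (((1 - q k : 𝔼 →L[ℂ] 𝔼)) : 𝔼 →ₗ[ℂ] 𝔼) with h𝓛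
  have memM : ∀ x, x ∈ M ↔ x ∈ K ∧ q (k - 1) x = x := by
    intro x
    rw [hM, Submodule.mem_inf, LinearMap.mem_ker]
    refine and_congr_right fun _ => ?_
    show (1 - q (k - 1) : 𝔼 →L[ℂ] 𝔼) x = 0 ↔ _
    rw [sub_apply, one_apply_eq_self, sub_eq_zero]
    exact eq_comm
  have mem𝓛 : ∀ x, x ∈ K → q (k - 1) x = x → x - q k x ∈ 𝓛 := fun x hx hx2 =>
    ⟨x, (memM x).2 ⟨hx, hx2⟩, rfl⟩
  set y := u - q k u with hy
  set n := y - 𝓛.starProjection y with hn
  have hn𝓛 : ∀ x ∈ 𝓛, ⟪n, x⟫_ℂ = 0 := by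
    intro x hx
    have h1 : n ∈ 𝓛ᗮ := Submodule.sub_starProjection_mem_orthogonal y
    exact (Submodule.mem_orthogonal' 𝓛 n).1 h1 x hx
  obtain ⟨b₀, hb₀, hb₀y⟩ : 𝓛.starProjection y ∈ 𝓛 := Submodule.starProjection_apply_mem 𝓛 y
  obtain ⟨hb1, hb2⟩ := (memM b₀).1 hb₀
  have hb₀y' : b₀ - q k b₀ = 𝓛.starProjection y := hb₀y
  set v := u - b₀ with hv
  have hvR : v ∈ R := Submodule.sub_mem _ hu (hKR hb1)
  have hvq : q (k - 1) v = v := by rw [hv, map_sub, huq, hb2]
  have hnv : n = v - q k v := by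
    rw [hn, ← hb₀y', hy, hv, map_sub]
    abel
  have hne : n = PFam.e q (k - 1) v := by
    rw [hnv]
    show _ = (q (k - 1) - q (k - 1 + 1)) v
    rw [sub_apply, hvq, sub_add_cancel]
  set x := star Θ v with hx
  have hxR : x ∈ R := hΘR v hvR
  have hxq : q k x = x := by rw [hx, c2, hvq]
  have hxK : x ∈ K := hRK x hxR hxq
  have hsn : star Θ n = PFam.e q k x := by rw [hne, c4]
  have h0 : star Θ n = 0 := by
    have h1 : ⟪star Θ n, star Θ n⟫_ℂ = 0 := by
      rw [star_inner_left]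
      rw [hsn]
      have h2 : Θ (PFam.e q k x) = Θ x - q k (Θ x) := by
        show Θ ((q k - q (k + 1)) x) = _
        rw [sub_apply, map_sub, c3, hxq]
      rw [h2]
      apply hn𝓛
      apply mem𝓛 _ (hΘK x hxK)
      rw [← c1, hxq]
    exact inner_self_eq_zero.1 h1
  have hn0 : n = 0 := by
    have h1 : ⟪n, n⟫_ℂ = 0 := by
      nth_rewrite 2 [hn]
      rw [inner_sub_right, hn𝓛 _ (Submodule.starProjection_apply_mem 𝓛 y), sub_zero, hul,
        ← star_inner_left, h0, inner_zero_left]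
    exact inner_self_eq_zero.1 h1
  have hvK : v ∈ K := by
    apply hRK v hvR
    rw [hn0] at hnv
    exact (eq_of_sub_eq_zero hnv.symm).symm
  have : u = v + b₀ := by rw [hv]; abel
  rw [this]
  exact Submodule.add_mem _ hvK hb1

end

end Pool.Agent.H25.GW
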