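import Mathlib
import Pool.Agent.H25.GW.Finish
import Pool.Agent.H14.GW.KerExt
import Pool.Agent.H14.GW.Rank
import Pool.Agent.H64.GW.NotEq

/-!
# The Gromov-Witten variation is not locally equivalent to a subquotient of a polarized variation
-/

open scoped Manifold ContDiff Topology InnerProductSpace
open Laplacian ComplexConjugate Filter

namespace Pool.Agent.H25.GW

open Pool.Agent.H64.GW

theorem exists_max_nat {α : Type*} {U : Set α} (hU : U.Nonempty) (f : α → ℕ) {N : ℕ}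
    (hN : ∀ x, f x ≤ N) : ∃ x ∈ U, ∀ y ∈ U, f y ≤ f x := by
  obtain ⟨x, hx, hmin⟩ := (measure (fun x => N - f x)).wf.has_min U hU
  refine ⟨x, hx, fun y hy => ?_⟩
  have h1 : ¬ (N - f y < N - f x) := hmin y hy
  have := hN x
  have := hN y
  omega

theorem deriv_mem {E : Type*} [NormedAddCommGroup E] [NormedSpace ℂ E] [FiniteDimensional ℂ E]
    {B : Submodule ℂ E} {l : ℂ → E} {z₀ : ℂ} (hl : ∀ᶠ z in 𝓝 z₀, DifferentiableAt ℂ l z ∧ l z ∈ B) :
    deriv l z₀ ∈ B := by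
  by_contra hne
  obtain ⟨ξ, hξ1, hξ2⟩ := Submodule.exists_le_ker_of_notMem hne
  set ξ' : E →L[ℂ] ℂ := LinearMap.toContinuousLinearMap ξ with hξ'
  have h1 := ξ'.hasFDerivAt.comp_hasDerivAt z₀ hl.self_of_nhds.1.hasDerivAt
  have h2 : (ξ' ∘ l) =ᶠ[𝓝 z₀] fun _ => 0 := by
    filter_upwards [hl] with z hz
    exact hξ2 hz.2
  have h3 := h1.deriv
  rw [h2.deriv_eq, deriv_const] at h3
  exact hξ1 h3.symm

section Leading

variable {𝕄 : Type} [NormedAddCommGroup 𝕄] [NormedSpace ℂ 𝕄]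
  {S : Type} [TopologicalSpace S] [ChartedSpace 𝕄 S]
  {Γ : Type} [Group Γ] [MulAction Γ S]
  {E : Type} [NormedAddCommGroup E] [NormedSpace ℂ E] [FiniteDimensional ℂ E]
  {X : PolarizedVariation 𝕄 S Γ E} {a b : ℤ}
  {𝔼 : Type*} [NormedAddCommGroup 𝔼] [InnerProductSpace ℂ 𝔼] [FiniteDimensional ℂ 𝔼]
  {e : E ≃L[ℂ] 𝔼} {g : S → (E →L[ℂ] E)}

/-- the leading part of the derivative of a section of `F k` -/
theorem leading (hB : Bounds X a b) {φ : ℂ → S} {z₀ : ℂ}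
    (he : ∀ u v, ⟪e u, e v⟫_ℂ = hodge X.h a b (fun p => X.F p (φ z₀)) u v)
    (hg : IsFrame X (φ z₀) g) {k : ℤ} {l : ℂ → E}
    (hl : ∀ᶠ z in 𝓝 z₀, MDifferentiableAt 𝓘(ℂ) 𝓘(ℂ, 𝕄) φ z ∧ DifferentiableAt ℂ l z ∧
      l z ∈ X.F k (φ z)) :
    e (deriv l z₀) - Fil.fam X.h (fun p => X.F p (φ z₀)) e k (e (deriv l z₀)) =
      higgs a b (Fil.fam X.h (fun p => X.F p (φ z₀)) e) (deriv (fun z => cj e (g (φ z))) z₀)
        (PFam.e (Fil.fam X.h (fun p => X.F p (φ z₀)) e) k (e (l z₀))) := by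
  have : CompleteSpace E := FiniteDimensional.complete ℂ E
  have hφ : ∀ᶠ z in 𝓝 z₀, MDifferentiableAt 𝓘(ℂ) 𝓘(ℂ, 𝕄) φ z := hl.mono fun z hz => hz.1
  obtain ⟨hd, hgr⟩ := frame_griffiths hB he hg hφ rfl
  have X₀ := hB.fil (φ z₀)
  have PF := X₀.pfam he
  set q := Fil.fam X.h (fun p => X.F p (φ z₀)) e with hq
  set T : ℂ → 𝔼 →L[ℂ] 𝔼 := fun z => cj e (g (φ z)) with hT
  have hT1 : T z₀ = 1 := by
    simp only [hT]
    rw [hg.1]
    exact cj_one e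
  have hcont : ContinuousAt φ z₀ := hφ.self_of_nhds.continuousAt
  have hun : ∀ᶠ z in 𝓝 z₀, IsUnit (T z) := by
    apply hd.self_of_nhds.continuousAt.eventually
    rw [hT1]
    exact Units.isOpen.eventually_mem isUnit_one
  set μ : ℂ → 𝔼 := fun z => Ring.inverse (T z) (e (l z)) with hμ
  have hfix : ∀ᶠ z in 𝓝 z₀, q k (μ z) = μ z := by
    filter_upwards [hun, hl, hcont.eventually hg.2] with z h1 h2 h3
    have h4 := h2.2.2
    rw [h3.2.2 k] at h4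
    obtain ⟨y, hy, hyl⟩ := h4
    have h5 : e (l z) = T z (e y) := by
      simp only [hT]
      rw [cj_apply, e.symm_apply_apply, ← hyl]
      rfl
    have h6 : μ z = e y := by
      simp only [hμ]
      rw [h5]
      exact congrArg (fun T : 𝔼 →L[ℂ] 𝔼 => T (e y)) (Ring.inverse_mul_cancel _ h1)
    rw [h6, hq]
    unfold Fil.fam
    rw [cj_apply, e.symm_apply_apply, X₀.fix hy]
  have hμd : DifferentiableAt ℂ μ z₀ := by
    have h1 : DifferentiableAt ℂ (fun z => Ring.inverse (T z)) z₀ :=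
      hd.self_of_nhds.inverse hun.self_of_nhds
    exact h1.clm_apply (e.differentiableAt.comp z₀ hl.self_of_nhds.2.1)
  have hμ0 : μ z₀ = e (l z₀) := by
    simp only [hμ]
    rw [hT1, Ring.inverse_one]
    rfl
  have hprod : (fun z => e (l z)) =ᶠ[𝓝 z₀] fun z => T z (μ z) := by
    filter_upwards [hun] with z h1
    exact (congrArg (fun T : 𝔼 →L[ℂ] 𝔼 => T (e (l z))) (Ring.mul_inverse_cancel _ h1)).symm
  have hde : HasDerivAt (fun z => e (l z)) (e (deriv l z₀)) z₀ :=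
    e.hasFDerivAt.comp_hasDerivAt z₀ hl.self_of_nhds.2.1.hasDerivAt
  have hdp : HasDerivAt (fun z => T z (μ z)) (deriv T z₀ (μ z₀) + T z₀ (deriv μ z₀)) z₀ :=
    hd.self_of_nhds.hasDerivAt.clm_apply hμd.hasDerivAt
  have h1 : e (deriv l z₀) = deriv T z₀ (e (l z₀)) + deriv μ z₀ := by
    have h2 := (hdp.congr_of_eventuallyEq hprod).unique hde
    rw [← h2, hμ0, hT1]
    rfl
  have h2 : q k (deriv μ z₀) = deriv μ z₀ := by
    have h3 : HasDerivAt (fun z => q k (μ z)) (q k (deriv μ z₀)) z₀ :=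
      (q k).hasFDerivAt.comp_hasDerivAt z₀ hμd.hasDerivAt
    exact (h3.congr_of_eventuallyEq (EventuallyEq.symm hfix)).unique hμd.hasDerivAt
  have h3 : q k (e (l z₀)) = e (l z₀) := by
    have := hfix.self_of_nhds
    rwa [hμ0] at this
  have h4 := theta_eq PF hgr k
  rw [← higgs_mul_e PF] at h4
  have h5 := congrArg (fun T : 𝔼 →L[ℂ] 𝔼 => T (e (l z₀))) h4
  have h6 : ((1 - q k) * deriv T z₀ * q k) (e (l z₀)) =
      deriv T z₀ (e (l z₀)) - q k (deriv T z₀ (e (l z₀))) := by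
    show (1 - q k) (deriv T z₀ (q k (e (l z₀)))) = _
    rw [h3]
    rfl
  rw [h1, map_add, h2]
  have h7 : deriv T z₀ (e (l z₀)) + deriv μ z₀ - (q k (deriv T z₀ (e (l z₀))) + deriv μ z₀) =
      deriv T z₀ (e (l z₀)) - q k (deriv T z₀ (e (l z₀))) := by abel
  rw [h7, ← h6]
  exact h5

end Leading

section Sub

variable {𝕄 : Type} [NormedAddCommGroup 𝕄] [NormedSpace ℂ 𝕄]
  {S : Type} [TopologicalSpace S] [ChartedSpace 𝕄 S]
  {Γ : Type} [Group Γ] [MulAction Γ S]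
  {E : Type} [NormedAddCommGroup E] [NormedSpace ℂ E]
  {E' : Type} [NormedAddCommGroup E'] [NormedSpace ℂ E']
  {X : PolarizedVariation 𝕄 S Γ E} (Y : Subquotient X E')

/-- the kernel of the projection, as a subspace of `E` -/
def Ker : Submodule ℂ E := (LinearMap.ker Y.p).map Y.B.subtype

theorem mem_Ker {x : E} : x ∈ Ker Y ↔ ∃ hx : x ∈ Y.B, Y.p ⟨x, hx⟩ = 0 := by
  constructor
  · rintro ⟨y, hy, rfl⟩
    exact ⟨y.2, hy⟩
  · rintro ⟨hx, h0⟩
    exact ⟨⟨x, hx⟩, h0, rfl⟩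

theorem Ker_le : Ker Y ≤ Y.B := by
  intro x hx
  obtain ⟨h, -⟩ := (mem_Ker Y).1 hx
  exact h

theorem Ker_stable (γ : Γ) {x : E} (hx : x ∈ Ker Y) : X.ρ γ x ∈ Ker Y := by
  obtain ⟨h1, h2⟩ := (mem_Ker Y).1 hx
  exact (mem_Ker Y).2 ⟨Y.stable γ x h1, Y.ker_stable γ ⟨x, h1⟩ h2⟩

theorem mem_YF {k : ℤ} {s : S} {v : E'} :
    v ∈ Y.F k s ↔ ∃ (x : E) (hx : x ∈ Y.B), x ∈ X.F k s ∧ Y.p ⟨x, hx⟩ = v := by
  constructor
  · rintro ⟨y, hy, rfl⟩
    exact ⟨y, y.2, hy, rfl⟩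
  · rintro ⟨x, hx, h1, rfl⟩
    exact ⟨⟨x, hx⟩, h1, rfl⟩

theorem YF_anti (s : S) {k l : ℤ} (h : k ≤ l) : Y.F l s ≤ Y.F k s := by
  intro v hv
  obtain ⟨x, hx, h1, h2⟩ := (mem_YF Y).1 hv
  exact (mem_YF Y).2 ⟨x, hx, X.antitone s h h1, h2⟩

variable [FiniteDimensional ℂ E]

theorem Ker_map (γ : Γ) : (Ker Y).map (X.ρ γ : E →ₗ[ℂ] E) = Ker Y := by
  apply Submodule.eq_of_le_of_finrank_eq
  · rintro x ⟨y, hy, rfl⟩
    exact Ker_stable Y γ hy
  · exact ((Submodule.equivMapOfInjective (X.ρ γ : E →ₗ[ℂ] E) (X.ρ γ).injective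
      (Ker Y)).finrank_eq).symm

/-- the subspace of vectors of `B` lying in `F k + ker p` at all the points of `D` -/
def stab (Y : Subquotient X E') (k : ℤ) (D : Set S) : Submodule ℂ E where
  carrier := {x | x ∈ Y.B ∧ ∀ s ∈ D, x ∈ X.F k s ⊔ Ker Y}
  add_mem' := fun hx hy => ⟨Submodule.add_mem _ hx.1 hy.1,
    fun s hs => Submodule.add_mem _ (hx.2 s hs) (hy.2 s hs)⟩
  zero_mem' := ⟨Submodule.zero_mem _, fun _ _ => Submodule.zero_mem _⟩
  smul_mem' := fun c _ hx => ⟨Submodule.smul_mem _ c hx.1,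
    fun s hs => Submodule.smul_mem _ c (hx.2 s hs)⟩

theorem finrank_smul (k : ℤ) (γ : Γ) (s : S) :
    Module.finrank ℂ (X.F k (γ • s) ⊔ Ker Y : Submodule ℂ E) =
      Module.finrank ℂ (X.F k s ⊔ Ker Y : Submodule ℂ E) := by
  have h1 : (X.F k (γ • s) ⊔ Ker Y : Submodule ℂ E) =
      (X.F k s ⊔ Ker Y : Submodule ℂ E).map (X.ρ γ : E →ₗ[ℂ] E) := by
    rw [Submodule.map_sup, Ker_map, X.equivariant]
  rw [h1]
  exact ((Submodule.equivMapOfInjective (X.ρ γ : E →ₗ[ℂ] E) (X.ρ γ).injective _).finrank_eq).symm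

theorem stab_stable (k : ℤ) (ρ : ℕ) (γ : Γ) {x : E}
    (hx : x ∈ stab Y k {s | Module.finrank ℂ (X.F k s ⊔ Ker Y : Submodule ℂ E) = ρ}) :
    X.ρ γ x ∈ stab Y k {s | Module.finrank ℂ (X.F k s ⊔ Ker Y : Submodule ℂ E) = ρ} := by
  refine ⟨Y.stable γ x hx.1, fun s hs => ?_⟩
  have h1 : γ⁻¹ • s ∈ {s | Module.finrank ℂ (X.F k s ⊔ Ker Y : Submodule ℂ E) = ρ} := by
    show Module.finrank ℂ (X.F k (γ⁻¹ • s) ⊔ Ker Y : Submodule ℂ E) = ρ
    rw [finrank_smul]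
    exact hs
  have h2 := hx.2 _ h1
  have h3 : (X.F k s ⊔ Ker Y : Submodule ℂ E) =
      (X.F k (γ⁻¹ • s) ⊔ Ker Y : Submodule ℂ E).map (X.ρ γ : E →ₗ[ℂ] E) := by
    rw [Submodule.map_sup, Ker_map, ← X.equivariant, smul_inv_smul]
  rw [h3]
  exact Submodule.mem_map_of_mem h2

/-- a vector lying in `F k + ker p` over a nonempty open set lies in it at all generic points -/
theorem mem_generic [PreconnectedSpace S] [IsManifold 𝓘(ℂ, 𝕄) 1 S] (k : ℤ) {ρ : ℕ}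
    {U : Set S} (hU : IsOpen U) (hne : U.Nonempty)
    (hρ : ∀ s, Module.finrank ℂ (X.F k s ⊔ Ker Y : Submodule ℂ E) ≤ ρ) {x : E}
    (hx : ∀ s ∈ U, x ∈ X.F k s ⊔ Ker Y) {s : S}
    (hs : Module.finrank ℂ (X.F k s ⊔ Ker Y : Submodule ℂ E) = ρ) : x ∈ X.F k s ⊔ Ker Y := by
  set W : Submodule ℂ E := Ker Y ⊔ Submodule.span ℂ {x} with hW
  have h1 : ∀ s ∈ U, Module.finrank ℂ (X.F k s ⊔ W : Submodule ℂ E) ≤ ρ := by
    intro s hs
    have h2 : (X.F k s ⊔ W : Submodule ℂ E) = X.F k s ⊔ Ker Y := by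
      rw [hW, ← sup_assoc, sup_eq_left, Submodule.span_singleton_le_iff_mem]
      exact hx s hs
    rw [h2]
    exact hρ s
  have h2 := X.rank_identity k W ρ hU hne h1 s
  have h3 : (X.F k s ⊔ Ker Y : Submodule ℂ E) ≤ X.F k s ⊔ W :=
    sup_le_sup_left le_sup_left _
  have h4 := Submodule.eq_of_le_of_finrank_le h3 (by rw [hs]; exact h2)
  rw [h4]
  exact Submodule.mem_sup_right (Submodule.mem_sup_right (Submodule.mem_span_singleton_self x))

end Sub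

section Main

variable {T : Type} [NormedAddCommGroup T] [NormedSpace ℂ T]
  {C : T →ₗ[ℂ] T →ₗ[ℂ] Module.Dual ℂ T}
  {𝕄 : Type} [NormedAddCommGroup 𝕄] [NormedSpace ℂ 𝕄]
  {S : Type} [TopologicalSpace S] [ChartedSpace 𝕄 S]
  {Γ : Type} [Group Γ] [MulAction Γ S]
  {E : Type} [NormedAddCommGroup E] [NormedSpace ℂ E]
  {E' : Type} [NormedAddCommGroup E'] [NormedSpace ℂ E']

/-- **Main theorem.** Let `C` be a nonzero cubic form on `T = H² (V, ℂ)` and `r ≠ 0` a class with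
`r ∪ H² = 0`. Then the Gromov-Witten variation (without quantum corrections) is not locally
equivalent, near any point, to any subquotient of any polarized variation over any connected base
with the Liouville property. -/
theorem not_locallyEquivalent_sub [PreconnectedSpace S] [IsManifold 𝓘(ℂ, 𝕄) 1 S]
    [FiniteDimensional ℂ E]
    (hsymm : ∀ x y z, C x y z = C y x z) (hC : ∃ y, C y y ≠ 0) {r : T} (hr0 : r ≠ 0)
    (hr : C r = 0) (hL : IsLiouville 𝕄 S Γ) (X : PolarizedVariation 𝕄 S Γ E)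
    (Y : Subquotient X E') (x₀ : T) (s₀ : S) :
    ¬ LocallyEquivalent (𝕄 := 𝕄) C x₀ Y.F s₀ := by
  have hcomplete : CompleteSpace E := FiniteDimensional.complete ℂ E
  have hfd' : FiniteDimensional ℂ E' := Module.Finite.of_surjective Y.p Y.surjective
  rintro ⟨O, j, j', Ψ, hO, hx₀, hj₀, hjO, hj, hj', hΨ, hk, hp⟩
  have hsymm' : ∀ x y, C x y = C y x := fun x y => LinearMap.ext (hsymm x y)
  have hCr : ∀ y, C y r = 0 := by
    intro y
    rw [hsymm', hr]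
    rfl
  -- the index of the top step
  set P : ℤ → Prop := fun p => ∀ x ∈ O, Y.F p (j x) = (degFiltration T 0).map
    (Ψ x : HEven T →ₗ[ℂ] E') with hP
  have hone : ∀ x, Ψ x (1, 0, 0, 0) ≠ 0 := by
    intro x h
    rw [LinearEquiv.map_eq_zero_iff] at h
    have := congrArg Prod.fst h
    simp at this
  have hbdd : ∃ b : ℤ, ∀ p : ℤ, P p → p ≤ b := by
    obtain ⟨q, hq⟩ := X.exists_eq_bot s₀
    refine ⟨q, fun p hp => ?_⟩
    by_contra hlt
    have h1 := X.antitone s₀ (show q ≤ p by omega)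
    simp only [hq] at h1
    have h2 := hp x₀ hx₀
    rw [hj₀] at h2
    have h3 : Ψ x₀ (1, 0, 0, 0) ∈ Y.F p s₀ := by
      rw [h2, map_mem_iff]
      exact mem_deg_zero.2 ⟨1, rfl⟩
    obtain ⟨y, hy, hy1, hy2⟩ := (mem_YF Y).1 h3
    have h4 : y = 0 := (Submodule.mem_bot ℂ).1 (h1 hy1)
    subst h4
    exact hone x₀ (hy2.symm.trans (Y.p.map_zero))
  obtain ⟨k, hk0, hmax⟩ := Int.exists_greatest_of_bdd hbdd (hk 0)
  -- the second step
  have hle : ∀ x ∈ O, Y.F (k - 1) (j x) ≤ (degFiltration T 1).map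
      (Ψ x : HEven T →ₗ[ℂ] E') := by
    obtain ⟨p₁, hp₁⟩ := hk 1
    intro x hx
    rw [← hp₁ x hx]
    apply YF_anti
    by_contra hlt
    have h1 := YF_anti Y (j x) (show k ≤ p₁ by omega)
    rw [hp₁ x hx, hk0 x hx] at h1
    have h2 : Ψ x (0, r, 0, 0) ∈ (degFiltration T 1).map (Ψ x : HEven T →ₗ[ℂ] E') :=
      map_mem_iff.2 (mem_deg_one.2 ⟨0, r, rfl⟩)
    obtain ⟨α, hα⟩ := mem_deg_zero.1 (map_mem_iff.1 (h1 h2))
    have := congrArg (fun a : HEven T => a.2.1) hα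
    exact hr0 this
  -- holomorphic curves through points of `O`
  have hcurve : ∀ x ∈ O, ∀ y : T, ∀ᶠ z in 𝓝 (0 : ℂ), x + z • y ∈ O := by
    intro x hx y
    have h1 : Tendsto (fun z : ℂ => x + z • y) (𝓝 0) (𝓝 x) := by
      have : Continuous (fun z : ℂ => x + z • y) := by fun_prop
      simpa using this.tendsto 0
    exact h1.eventually (hO.eventually_mem hx)
  have hφ : ∀ x ∈ O, ∀ y : T, ∀ᶠ z in 𝓝 (0 : ℂ),
      MDifferentiableAt 𝓘(ℂ) 𝓘(ℂ, 𝕄) (fun z : ℂ => j (x + z • y)) z := by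
    intro x hx y
    filter_upwards [hcurve x hx y] with z hz
    have h2 : MDifferentiableAt 𝓘(ℂ) 𝓘(ℂ, T) (fun z : ℂ => x + z • y) z := by
      rw [mdifferentiableAt_iff_differentiableAt]
      fun_prop
    exact (hj _ hz).comp z h2
  -- a ball
  obtain ⟨ε, hε, hball⟩ := Metric.isOpen_iff.1 hO x₀ hx₀
  set U : Set S := j '' Metric.ball x₀ ε with hU
  have hUo : IsOpen U := by
    rw [isOpen_iff_mem_nhds]
    rintro s ⟨x, hx, rfl⟩
    have h1 : ContinuousAt j' (j x) := (hj' x (hball hx)).2.continuousAt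
    have h3 : ∀ᶠ s in 𝓝 (j x), j' s ∈ Metric.ball x₀ ε := by
      apply h1.eventually
      rw [(hj' x (hball hx)).1]
      exact Metric.isOpen_ball.mem_nhds hx
    have h4 : ∀ᶠ s in 𝓝 (j x), s ∈ j '' O := hjO.eventually_mem ⟨x, hball hx, rfl⟩
    filter_upwards [h3, h4] with s h5 h6
    obtain ⟨x', hx', rfl⟩ := h6
    rw [(hj' x' hx').1] at h5
    exact ⟨x', h5, rfl⟩
  have hUne : U.Nonempty := ⟨j x₀, x₀, Metric.mem_ball_self hε, rfl⟩
  have hSne : Nonempty S := ⟨s₀⟩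
  obtain ⟨a, b, hB⟩ := exists_bounds X
  -- the flat vector
  set rE := Ψ x₀ (0, r, 0, 0) with hrE
  have hrE0 : rE ≠ 0 := by
    intro h
    rw [hrE, LinearEquiv.map_eq_zero_iff] at h
    exact hr0 (congrArg (fun a : HEven T => a.2.1) h)
  have hrconst : ∀ x ∈ Metric.ball x₀ ε, Ψ x (0, r, 0, 0) = rE := by
    intro x hx
    have hconv := (convex_ball x₀ ε).is_const_of_fderivWithin_eq_zero (𝕜 := ℂ)
      (f := fun x => Ψ x (0, r, 0, 0))
      (fun x hx => (hΨ x (hball hx) _).1.differentiableWithinAt)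
      (fun x hx => by
        rw [fderivWithin_of_isOpen Metric.isOpen_ball hx]
        ext y
        rw [(hΨ x (hball hx) _).2 y]
        simp [cup_apply, hCr]) (Metric.mem_ball_self hε) hx
    exact hconv.symm
  -- generic points
  obtain ⟨sm, -, hsm⟩ := exists_max_nat (Set.univ_nonempty (α := S))
    (fun s => Module.finrank ℂ (X.F (k - 1) s ⊔ Ker Y : Submodule ℂ E))
    (fun s => Submodule.finrank_le _)
  set ρ := Module.finrank ℂ (X.F (k - 1) sm ⊔ Ker Y : Submodule ℂ E) with hρ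
  have hρle : ∀ s, Module.finrank ℂ (X.F (k - 1) s ⊔ Ker Y : Submodule ℂ E) ≤ ρ :=
    fun s => hsm s (Set.mem_univ s)
  set D : Set S := {s | Module.finrank ℂ (X.F (k - 1) s ⊔ Ker Y : Submodule ℂ E) = ρ} with hD
  have hDU : (D ∩ U).Nonempty := by
    by_contra hcon
    have h1 : ∀ s ∈ U, Module.finrank ℂ (X.F (k - 1) s ⊔ Ker Y : Submodule ℂ E) < ρ := by
      intro s hs
      refine lt_of_le_of_ne (hρle s) fun h2 => hcon ⟨s, h2, hs⟩
    obtain ⟨s', hs'⟩ := hUne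
    have h2 := h1 s' hs'
    have h3 := X.rank_identity (k - 1) (Ker Y) (ρ - 1) hUo ⟨s', hs'⟩
      (fun s hs => by have := h1 s hs; omega) sm
    omega
  obtain ⟨s₁, ⟨hs₁D, hs₁U⟩, hs₁max⟩ := exists_max_nat hDU
    (fun s => Module.finrank ℂ (X.F k s ⊔ Y.B : Submodule ℂ E))
    (fun s => Submodule.finrank_le _)
  have hev : ∀ᶠ s in 𝓝 s₁, s ∈ D ∧ s ∈ U := by
    filter_upwards [hUo.eventually_mem hs₁U, X.rank_lsc (k - 1) (Ker Y) s₁] with s h1 h2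
    refine ⟨le_antisymm (hρle s) ?_, h1⟩
    have h3 : Module.finrank ℂ (X.F (k - 1) s₁ ⊔ Ker Y : Submodule ℂ E) = ρ := hs₁D
    rw [← h3]
    exact h2
  obtain ⟨x₁, hx₁, hx₁s⟩ := hs₁U
  have hx₁O := hball hx₁
  -- the curve
  set φ : ℂ → S := fun z => j (x₁ + z • r) with hφdef
  have hφ0 : φ 0 = s₁ := by
    simp only [hφdef]
    rw [zero_smul, add_zero, hx₁s]
  have hφd := hφ x₁ hx₁O r
  have h1mem : Ψ x₁ (1, 0, 0, 0) ∈ Y.F k s₁ := by
    rw [← hx₁s, hk0 x₁ hx₁O, map_mem_iff]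
    exact mem_deg_zero.2 ⟨1, rfl⟩
  obtain ⟨b₁, hb₁B, hb₁F, hb₁p⟩ := (mem_YF Y).1 h1mem
  obtain ⟨l, hl0, hl⟩ := X.exists_section k Y.B (f := φ) (z₀ := 0) hφd (by
    rw [hφ0]
    filter_upwards [hev] with s hs
    exact hs₁max s hs) (by rw [hφ0]; exact hb₁F) hb₁B
  have hdB : deriv l 0 ∈ Y.B := deriv_mem (hl.mono fun z hz => ⟨hz.2.1, hz.2.2.2⟩)
  have hdF : deriv l 0 ∈ X.F (k - 1) s₁ := by
    have := X.griffiths k φ l 0 (hl.mono fun z hz => ⟨hz.1, hz.2.1, hz.2.2.1⟩)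
    rwa [hφ0] at this
  -- the projection extended to `E`
  obtain ⟨ph, hph⟩ := LinearMap.exists_extend Y.p
  have hph' : ∀ x (hx : x ∈ Y.B), ph x = Y.p ⟨x, hx⟩ := fun x hx =>
    congrArg (fun f : Y.B →ₗ[ℂ] E' => f ⟨x, hx⟩) hph
  set pc : E →L[ℂ] E' := LinearMap.toContinuousLinearMap ph with hpc
  have hpc' : ∀ x (hx : x ∈ Y.B), pc x = Y.p ⟨x, hx⟩ := hph'
  -- the derivative of the projected section
  obtain ⟨c, hc⟩ : ∃ c : ℂ, pc (deriv l 0) = c • Ψ x₁ (1, 0, 0, 0) + Ψ x₁ (0, r, 0, 0) := by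
    have hw : HasDerivAt (fun z => pc (l z)) (pc (deriv l 0)) 0 :=
      pc.hasFDerivAt.comp_hasDerivAt 0 hl.self_of_nhds.2.1.hasDerivAt
    have hψ : HasDerivAt (fun z : ℂ => Ψ (x₁ + z • r) (1, 0, 0, 0)) (Ψ x₁ (0, r, 0, 0)) 0 := by
      have := hasDerivAt_line' hΨ x₁ r (1, 0, 0, 0) 0 (by simpa using hx₁O)
      refine this.congr_deriv ?_
      rw [zero_smul, add_zero, cup_apply]
      simp
    obtain ⟨ξ, hξ⟩ : ∃ ξ : E' →L[ℂ] ℂ, ξ (Ψ x₁ (1, 0, 0, 0)) = 1 :=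
      SeparatingDual.exists_eq_one (hone x₁)
    have hξψ : HasDerivAt (fun z : ℂ => ξ (Ψ (x₁ + z • r) (1, 0, 0, 0)))
        (ξ (Ψ x₁ (0, r, 0, 0))) 0 := ξ.hasFDerivAt.comp_hasDerivAt 0 hψ
    have hξw : HasDerivAt (fun z : ℂ => ξ (pc (l z))) (ξ (pc (deriv l 0))) 0 :=
      ξ.hasFDerivAt.comp_hasDerivAt 0 hw
    have hξ0 : ξ (Ψ (x₁ + (0 : ℂ) • r) (1, 0, 0, 0)) = 1 := by
      rw [zero_smul, add_zero, hξ]
    have hquot := hξw.div hξψ (by rw [hξ0]; exact one_ne_zero)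
    have hprod := hquot.smul hψ
    have hne : ∀ᶠ z in 𝓝 (0 : ℂ), ξ (Ψ (x₁ + z • r) (1, 0, 0, 0)) ≠ 0 := by
      apply hξψ.continuousAt.eventually_ne
      rw [hξ0]
      exact one_ne_zero
    have heq : (fun z => pc (l z)) =ᶠ[𝓝 0] (((fun z => ξ (pc (l z))) /
        fun z => ξ (Ψ (x₁ + z • r) (1, 0, 0, 0))) • fun z => Ψ (x₁ + z • r) (1, 0, 0, 0)) := by
      filter_upwards [hl, hne, hcurve x₁ hx₁O r] with z h1 h2 h3
      have h4 : pc (l z) ∈ Y.F k (φ z) := by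
        rw [hpc' _ h1.2.2.2]
        exact (mem_YF Y).2 ⟨l z, h1.2.2.2, h1.2.2.1, rfl⟩
      rw [hk0 _ h3] at h4
      obtain ⟨u, hu, hu2⟩ := h4
      obtain ⟨α, rfl⟩ := mem_deg_zero.1 hu
      have h5 : pc (l z) = α • Ψ (x₁ + z • r) (1, 0, 0, 0) := by
        rw [← hu2, ← map_smul]
        simp
      show pc (l z) = (ξ (pc (l z)) / ξ (Ψ (x₁ + z • r) (1, 0, 0, 0))) •
        Ψ (x₁ + z • r) (1, 0, 0, 0)
      rw [h5, map_smul, smul_eq_mul, mul_div_assoc, div_self h2, mul_one]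
    have hun := (hprod.congr_of_eventuallyEq heq).unique hw
    refine ⟨(ξ (pc (deriv l 0)) * ξ (Ψ (x₁ + (0 : ℂ) • r) (1, 0, 0, 0)) -
        ξ (pc (l 0)) * ξ (Ψ x₁ (0, r, 0, 0))) / ξ (Ψ (x₁ + (0 : ℂ) • r) (1, 0, 0, 0)) ^ 2, ?_⟩
    have h6 : ξ (pc (l 0)) = 1 := by
      rw [hl0, hpc' _ hb₁B, hb₁p, hξ]
    have h7 : ((fun z : ℂ => ξ (pc (l z))) / fun z : ℂ => ξ (Ψ (x₁ + z • r) (1, 0, 0, 0)) :
        ℂ → ℂ) 0 = 1 := by
      show ξ (pc (l 0)) / ξ (Ψ (x₁ + (0 : ℂ) • r) (1, 0, 0, 0)) = 1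
      rw [h6, hξ0, div_one]
    rw [h7, one_smul, add_comm] at hun
    refine hun.symm.trans ?_
    congr 1
    congr 2
    rw [zero_smul, add_zero]
  have hb₁c : pc b₁ = Ψ x₁ (1, 0, 0, 0) := by rw [hpc' _ hb₁B, hb₁p]
  -- the second step contains the flat vector
  have hrF : ∀ x ∈ O, Ψ x (0, r, 0, 0) ∈ Y.F (k - 1) (j x) := by
    obtain ⟨i, hi⟩ := hp (k - 1)
    have h2 : pc (deriv l 0) ∈ Y.F (k - 1) (j x₁) := by
      rw [hpc' _ hdB, hx₁s]
      exact (mem_YF Y).2 ⟨_, hdB, hdF, rfl⟩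
    rw [hi x₁ hx₁O, hc, ← map_smul, ← map_add, map_mem_iff, mem_deg] at h2
    have h3 : ¬ i < 1 := by
      intro hlt
      have := h2.2.1 hlt
      simp at this
      exact hr0 this
    intro x hx
    rw [hi x hx, map_mem_iff, mem_deg]
    exact ⟨fun _ => rfl, fun h => absurd h h3, fun _ => rfl, fun _ => rfl⟩
  obtain ⟨⟨br, hbrB⟩, hbr⟩ := Y.surjective rE
  have hbrstab : br ∈ stab Y (k - 1) D := by
    refine ⟨hbrB, fun s hs => ?_⟩
    refine mem_generic Y (k - 1) hUo hUne hρle (fun t ht => ?_) hs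
    obtain ⟨x, hx, rfl⟩ := ht
    have h2 := hrF x (hball hx)
    rw [hrconst x hx] at h2
    obtain ⟨y, hyB, hyF, hyp⟩ := (mem_YF Y).1 h2
    have h3 : br = y + (br - y) := by abel
    rw [h3]
    refine Submodule.add_mem_sup hyF ((mem_Ker Y).2 ⟨Submodule.sub_mem _ hbrB hyB, ?_⟩)
    have h4 : (⟨br - y, Submodule.sub_mem _ hbrB hyB⟩ : Y.B) = ⟨br, hbrB⟩ - ⟨y, hyB⟩ := rfl
    rw [h4, map_sub, hbr, hyp, sub_self]
  -- nothing new in degree `k`
  have hnew : ∀ x ∈ stab Y (k - 1) D, x ∈ X.F k s₁ → x ∈ Ker Y := by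
    intro x hx hxF
    have h1 : pc x ∈ Y.F k (j x₁) := by
      rw [hpc' _ hx.1, hx₁s]
      exact (mem_YF Y).2 ⟨x, hx.1, hxF, rfl⟩
    rw [hk0 x₁ hx₁O] at h1
    obtain ⟨u, hu, hu2⟩ := h1
    obtain ⟨α, rfl⟩ := mem_deg_zero.1 hu
    have hu2' : Ψ x₁ (α, 0, 0, 0) = pc x := hu2
    have h2 : ∀ᶠ s in 𝓝 s₁, pc x ∈ Y.F (k - 1) s := by
      filter_upwards [hev] with s hs
      obtain ⟨f, hf, κ, hκ, hfk⟩ := Submodule.mem_sup.1 (hx.2 s hs.1)
      obtain ⟨hκB, hκp⟩ := (mem_Ker Y).1 hκ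
      have hfB : f ∈ Y.B := by
        have : f = x - κ := by rw [← hfk]; abel
        rw [this]
        exact Submodule.sub_mem _ hx.1 hκB
      have h3 : pc x = Y.p ⟨f, hfB⟩ := by
        rw [← hfk, map_add, hpc' _ hκB, hκp, add_zero, hpc' _ hfB]
      rw [h3]
      exact (mem_YF Y).2 ⟨f, hfB, hf, rfl⟩
    obtain ⟨y, hy⟩ := hC
    have h3 : ContinuousAt (fun z : ℂ => j (x₁ + z • y)) 0 :=
      (hφ x₁ hx₁O y).self_of_nhds.continuousAt
    have h4 : ∀ᶠ z in 𝓝 (0 : ℂ), pc x ∈ Y.F (k - 1) (j (x₁ + z • y)) := by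
      refine h3.eventually (p := fun s => pc x ∈ Y.F (k - 1) s) ?_
      beta_reduce
      rw [zero_smul, add_zero, hx₁s]
      exact h2
    obtain ⟨δ, hδ, hδ'⟩ := Metric.eventually_nhds_iff_ball.1 ((hcurve x₁ hx₁O y).and h4)
    have hd2 : ((δ / 2 : ℝ) : ℂ) ∈ Metric.ball (0 : ℂ) δ := by
      rw [mem_ball_zero_iff, Complex.norm_real, Real.norm_eq_abs, abs_of_pos (by positivity)]
      linarith
    have h5 := flatPoly_const hΨ x₁ y (α, 0, 0, 0) (fun z hz => (hδ' z hz).1) hd2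
    have h6 := hle _ (hδ' _ hd2).1 (hδ' _ hd2).2
    rw [← hu2', ← h5, map_mem_iff] at h6
    obtain ⟨α', w', h7⟩ := mem_deg_one.1 h6
    have h8 := congrArg (fun a : HEven T => a.2.2.1) h7
    simp only [flatPoly, cup_apply, Prod.snd_sub, Prod.snd_add, Prod.smul_snd, Prod.fst_sub,
      Prod.fst_add, Prod.smul_fst, map_smul, smul_zero, sub_zero, zero_sub, map_zero,
      zero_smul, neg_zero, zero_add] at h8
    have h9 : α • C y y = 0 := by
      refine (smul_eq_zero.1 h8).resolve_left ?_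
      have : ((δ / 2 : ℝ) : ℂ) ≠ 0 := by exact_mod_cast (by positivity : (δ / 2 : ℝ) ≠ 0)
      exact div_ne_zero (pow_ne_zero 2 this) two_ne_zero
    have h10 : α = 0 := (smul_eq_zero.1 h9).resolve_right hy
    rw [h10] at hu2'
    refine (mem_Ker Y).2 ⟨hx.1, ?_⟩
    rw [← hpc' _ hx.1, ← hu2']
    exact (Ψ x₁).map_zero
  -- the final contradiction
  have hKR : Ker Y ≤ stab Y (k - 1) D := fun x hx =>
    ⟨Ker_le Y hx, fun s _ => Submodule.mem_sup_right hx⟩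
  set rt : E := deriv l 0 - c • b₁ with hrt
  have hrtB : rt ∈ Y.B := Submodule.sub_mem _ hdB (Submodule.smul_mem _ c hb₁B)
  have hrtp : pc rt = rE := by
    rw [hrt, map_sub, map_smul, hc, hb₁c, hrconst x₁ hx₁]
    abel
  have hrtstab : rt ∈ stab Y (k - 1) D := by
    have h1 : rt = br + (rt - br) := by abel
    rw [h1]
    refine Submodule.add_mem _ hbrstab (hKR ((mem_Ker Y).2 ⟨Submodule.sub_mem _ hrtB hbrB, ?_⟩))
    have h4 : (⟨rt - br, Submodule.sub_mem _ hrtB hbrB⟩ : Y.B) = ⟨rt, hrtB⟩ - ⟨br, hbrB⟩ := rfl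
    rw [h4, map_sub, hbr, ← hpc' _ hrtB, hrtp, sub_self]
  have hrtF : rt ∈ X.F (k - 1) s₁ :=
    Submodule.sub_mem _ hdF (Submodule.smul_mem _ c (X.antitone s₁ (by omega) hb₁F))
  obtain ⟨e, he⟩ := (hB.fil s₁).exists_iso
  obtain ⟨g, hg⟩ := X.exists_local s₁
  have hgF : IsFrame X s₁ g := hg
  have X₁ := hB.fil s₁
  have PF := X₁.pfam he
  have hfix : ∀ p x, Fil.fam X.h (fun p => X.F p s₁) e p (e x) = e x ↔ x ∈ X.F p s₁ := by
    intro p x
    unfold Fil.fam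
    rw [cj_apply, e.symm_apply_apply, e.injective.eq_iff]
    constructor
    · intro h
      rw [← h]
      exact X₁.mem p x
    · intro h
      exact X₁.fix h
  have hstK := stable hB hL (Ker Y) (fun γ x hx => Ker_stable Y γ hx) he hgF hφd hφ0
  have hstR := stable hB hL (stab Y (k - 1) D) (fun γ x hx => stab_stable Y (k - 1) ρ γ hx)
    he hgF hφd hφ0
  have hlead := leading (X := X) (a := a) (b := b) (e := e) (g := g) hB (φ := φ) (z₀ := 0)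
    (by rw [hφ0]; exact he) (by rw [hφ0]; exact hgF) (k := k) (l := l)
    (hl.mono fun z hz => ⟨hz.1, hz.2.1, hz.2.2.1⟩)
  rw [hφ0] at hlead
  have hfin := finish PF k ((Ker Y).map ((e : E →L[ℂ] EuclideanSpace ℂ (Fin
      (Module.finrank ℂ E))) : E →ₗ[ℂ] EuclideanSpace ℂ (Fin (Module.finrank ℂ E))))
    ((stab Y (k - 1) D).map ((e : E →L[ℂ] EuclideanSpace ℂ (Fin
      (Module.finrank ℂ E))) : E →ₗ[ℂ] EuclideanSpace ℂ (Fin (Module.finrank ℂ E))))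
    (Submodule.map_mono hKR)
    (g' := deriv (fun z => cj e (g (φ z))) 0)
    (fun x hx => (hstK x hx).1) (fun x hx => (hstR x hx).2) ?_
    (u := e rt) (l := PFam.e (Fil.fam X.h (fun p => X.F p s₁) e) k (e (l 0)))
    ⟨rt, hrtstab, rfl⟩ ((hfix (k - 1) rt).2 hrtF) ?_
  · obtain ⟨y, hy, hye⟩ := hfin
    have hyrt : y = rt := e.injective hye
    rw [hyrt] at hy
    obtain ⟨h1, h2⟩ := (mem_Ker Y).1 hy
    rw [← hpc' _ h1, hrtp] at h2
    exact hrE0 h2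
  · rintro x ⟨y, hy, rfl⟩ hxq
    have h1 : y ∈ X.F k s₁ := (hfix k y).1 hxq
    exact ⟨y, hnew y hy h1, rfl⟩
  · rw [← hlead, hrt, map_sub, map_sub, map_smul, map_smul, (hfix k b₁).2 hb₁F]
    abel

end Main

end Pool.Agent.H25.GW
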